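import Pool.Agent.H479.X.Stm

/-! # almost all pairs (log X, log H) (proved by helper969) -/


open MeasureTheory Filter Topology

namespace H479.X.AA2


theorem mono_aux (V : ℝ → ℝ → ℝ) (c L : ℝ) {ε ε' : ℝ} (h : ε' ≤ ε) :
    {p : ℝ × ℝ | 0 ≤ p.1 ∧ p.1 ≤ L ∧ ε * p.1 ≤ p.2 ∧ p.2 ≤ (1 - ε) * p.1 ∧
      ε < |V (Real.exp p.1) (Real.exp p.2) / (Real.exp p.2 * (p.1 - p.2 - c)) - 1|} ⊆
    {p : ℝ × ℝ | 0 ≤ p.1 ∧ p.1 ≤ L ∧ ε' * p.1 ≤ p.2 ∧ p.2 ≤ (1 - ε') * p.1 ∧
      ε' < |V (Real.exp p.1) (Real.exp p.2) / (Real.exp p.2 * (p.1 - p.2 - c)) - 1|} := by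
  rintro ⟨x, y⟩ ⟨h0, hL, h1, h2, h3⟩
  simp only at h0 hL h1 h2 h3
  refine ⟨h0, hL, ?_, ?_, lt_of_le_of_lt h h3⟩
  · simp only
    nlinarith [mul_le_mul_of_nonneg_right h h0]
  · simp only
    nlinarith [mul_le_mul_of_nonneg_right h h0]

theorem main (V : ℝ → ℝ → ℝ) (hm : Measurable fun p : ℝ × ℝ => V p.1 p.2)
    (H : ∀ u v ε : ℝ, 1 ≤ u → u < v → 0 < ε → ∀ᶠ T in atTop,
      volume {x : ℝ | u * Real.log T ≤ x ∧ x ≤ v * Real.log T ∧
        ε < |V (Real.exp x) (Real.exp x / T) / (Real.exp x / T * Real.log T) - 1|} ≤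
          ENNReal.ofReal (ε * Real.log T)) (c ε : ℝ) (hε : 0 < ε) (hε3 : ε ≤ 1 / 3) :
    ∀ᶠ L in atTop,
      volume {p : ℝ × ℝ | 0 ≤ p.1 ∧ p.1 ≤ L ∧ ε * p.1 ≤ p.2 ∧ p.2 ≤ (1 - ε) * p.1 ∧
        ε < |V (Real.exp p.1) (Real.exp p.2) / (Real.exp p.2 * (p.1 - p.2 - c)) - 1|} ≤
          ENNReal.ofReal (ε * L ^ 2) := by
  have hu1 : (1 : ℝ) ≤ 1 / (1 - ε) := by
    rw [le_div_iff₀ (by linarith)]; linarith
  have huv : 1 / (1 - ε) < 1 / ε := by
    apply one_div_lt_one_div_of_lt hε; linarith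
  obtain ⟨T0, hT0⟩ := (eventually_atTop.1 (H (1 / (1 - ε)) (1 / ε) (ε / 4) hu1 huv (by linarith)))
  set t3 : ℝ := max (max (Real.log (max T0 1)) 1) (max (2 * |c|) (4 * |c| / ε)) with ht3
  have ht3_1 : 1 ≤ t3 := le_trans (le_max_right _ _) (le_max_left _ _)
  have ht3_0 : Real.log (max T0 1) ≤ t3 := le_trans (le_max_left _ _) (le_max_left _ _)
  have ht3_c : 2 * |c| ≤ t3 := le_trans (le_max_left _ _) (le_max_right _ _)
  have ht3_d : 4 * |c| / ε ≤ t3 := le_trans (le_max_right _ _) (le_max_right _ _)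
  -- the slices
  set A : ℝ → Set ℝ := fun t => {x : ℝ | 1 / (1 - ε) * t ≤ x ∧ x ≤ 1 / ε * t ∧
        ε / 4 < |V (Real.exp x) (Real.exp x / Real.exp t) / (Real.exp x / Real.exp t * t) - 1|} with hA
  have hAv : ∀ t, t3 ≤ t → volume (A t) ≤ ENNReal.ofReal (ε / 4 * t) := by
    intro t ht
    have h1 : T0 ≤ Real.exp t := by
      have : max T0 1 ≤ Real.exp t := by
        rw [← Real.exp_log (show 0 < max T0 1 from lt_of_lt_of_le one_pos (le_max_right _ _))]
        exact Real.exp_le_exp.2 (ht3_0.trans ht)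
      exact (le_max_left _ _).trans this
    have := hT0 _ h1
    simpa only [Real.log_exp] using this
  -- the part with large t
  set D' : ℝ → Set (ℝ × ℝ) := fun L => {z : ℝ × ℝ | (t3 ≤ z.1 ∧ z.1 ≤ L) ∧ z.1 + z.2 ∈ A z.1} with hD'
  have hD'm : ∀ L, MeasurableSet (D' L) := by
    intro L
    have e1 : Measurable fun z : ℝ × ℝ => z.1 + z.2 := measurable_fst.add measurable_snd
    have e2 : Measurable fun z : ℝ × ℝ => V (Real.exp (z.1 + z.2)) (Real.exp (z.1 + z.2) / Real.exp z.1) :=
      hm.comp ((Real.measurable_exp.comp e1).prodMk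
        ((Real.measurable_exp.comp e1).div (Real.measurable_exp.comp measurable_fst)))
    have e3 : Measurable fun z : ℝ × ℝ =>
        |V (Real.exp (z.1 + z.2)) (Real.exp (z.1 + z.2) / Real.exp z.1) /
          (Real.exp (z.1 + z.2) / Real.exp z.1 * z.1) - 1| := by
      have : Measurable fun z : ℝ × ℝ =>
        V (Real.exp (z.1 + z.2)) (Real.exp (z.1 + z.2) / Real.exp z.1) /
          (Real.exp (z.1 + z.2) / Real.exp z.1 * z.1) - 1 := by
        refine (e2.div (((Real.measurable_exp.comp e1).div (Real.measurable_exp.comp measurable_fst)).mul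
          measurable_fst)).sub_const 1
      exact this.abs
    refine MeasurableSet.inter (MeasurableSet.inter ?_ ?_) (MeasurableSet.inter ?_
      (MeasurableSet.inter ?_ ?_))
    · exact measurableSet_le measurable_const measurable_fst
    · exact measurableSet_le measurable_fst measurable_const
    · exact measurableSet_le (measurable_fst.const_mul _) e1
    · exact measurableSet_le e1 (measurable_fst.const_mul _)
    · exact measurableSet_lt measurable_const e3
  have hD'v : ∀ L, t3 ≤ L → volume (D' L) ≤ ENNReal.ofReal (ε / 4 * L ^ 2) := by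
    intro L hL
    rw [Measure.volume_eq_prod, Measure.prod_apply (hD'm L)]
    have hb : ∀ t, volume (Prod.mk t ⁻¹' D' L) ≤
        (Set.Icc t3 L).indicator (fun _ => ENNReal.ofReal (ε / 4 * L)) t := by
      intro t
      by_cases ht : t ∈ Set.Icc t3 L
      · rw [Set.indicator_of_mem ht]
        have : Prod.mk t ⁻¹' D' L ⊆ (fun y => t + y) ⁻¹' (A t) := by
          intro y hy
          exact hy.2
        refine (measure_mono this).trans ?_
        rw [measure_preimage_add]
        refine (hAv t ht.1).trans (ENNReal.ofReal_le_ofReal ?_)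
        have := ht.2
        nlinarith
      · rw [Set.indicator_of_notMem ht]
        have : Prod.mk t ⁻¹' D' L = ∅ := by
          ext y
          simp only [Set.mem_preimage, Set.mem_empty_iff_false, iff_false]
          intro hy
          exact ht ⟨hy.1.1, hy.1.2⟩
        rw [this]; simp
    refine (lintegral_mono hb).trans ?_
    rw [lintegral_indicator measurableSet_Icc, setLIntegral_const, Real.volume_Icc,
      ← ENNReal.ofReal_mul (by nlinarith)]
    refine ENNReal.ofReal_le_ofReal ?_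
    have : L - t3 ≤ L := by linarith
    have h0 : 0 ≤ ε / 4 * L := by nlinarith
    nlinarith [mul_le_mul_of_nonneg_left this h0]
  have key : ∀ᶠ L : ℝ in atTop, (t3 / ε) ^ 2 ≤ 3 * ε / 4 * L ^ 2 := by
    have : Tendsto (fun L : ℝ => 3 * ε / 4 * L ^ 2) atTop atTop :=
      (tendsto_pow_atTop (by norm_num)).const_mul_atTop (by positivity)
    exact this.eventually_ge_atTop _
  filter_upwards [key, eventually_ge_atTop t3] with L hL1 hL2
  -- cover
  have hcov : {p : ℝ × ℝ | 0 ≤ p.1 ∧ p.1 ≤ L ∧ ε * p.1 ≤ p.2 ∧ p.2 ≤ (1 - ε) * p.1 ∧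
        ε < |V (Real.exp p.1) (Real.exp p.2) / (Real.exp p.2 * (p.1 - p.2 - c)) - 1|} ⊆
      (Set.Icc 0 (t3 / ε) ×ˢ Set.Icc 0 (t3 / ε)) ∪ (fun z : ℝ × ℝ => (z.1 - z.2, z.2)) ⁻¹' D' L := by
    rintro ⟨x, y⟩ ⟨h0, hL, h1, h2, h3⟩
    simp only at h0 hL h1 h2 h3
    have hy0 : 0 ≤ y := le_trans (by positivity) h1
    have hyx : y ≤ x := by nlinarith
    have htx : ε * x ≤ x - y := by nlinarith
    have htx' : x - y ≤ (1 - ε) * x := by nlinarith
    by_cases ht : x - y < t3
    · left
      have hx : x ≤ t3 / ε := by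
        rw [le_div_iff₀ hε]; nlinarith
      exact ⟨⟨h0, hx⟩, ⟨hy0, hyx.trans hx⟩⟩
    · right
      push Not at ht
      refine ⟨⟨ht, ?_⟩, ?_⟩
      · show x - y ≤ L
        linarith
      · show x - y + y ∈ A (x - y)
        rw [sub_add_cancel]
        have hexp : Real.exp x / Real.exp (x - y) = Real.exp y := by
          rw [← Real.exp_sub]; congr 1; ring
        refine ⟨?_, ?_, ?_⟩
        · rw [div_mul_eq_mul_div, one_mul, div_le_iff₀ (by linarith)]
          linarith
        · rw [div_mul_eq_mul_div, one_mul, le_div_iff₀ hε]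
          linarith
        · rw [hexp]
          by_contra hcon
          push Not at hcon
          set t := x - y with htdef
          have ht0 : 0 < t := lt_of_lt_of_le (by linarith) ht
          have htc : t / 2 ≤ t - c := by
            have := le_abs_self c
            linarith
          have htc0 : 0 < t - c := by linarith
          set q := V (Real.exp x) (Real.exp y) / (Real.exp y * t) with hq
          have e0 : Real.exp y ≠ 0 := (Real.exp_pos y).ne'
          have e1 : V (Real.exp x) (Real.exp y) / (Real.exp y * (t - c)) - 1 =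
              (q - 1) * (t / (t - c)) + c / (t - c) := by
            rw [hq]
            field_simp
            ring
          rw [e1] at h3
          have e2 : |(q - 1) * (t / (t - c)) + c / (t - c)| ≤ ε / 4 * 2 + ε / 2 := by
            refine (abs_add_le _ _).trans (add_le_add ?_ ?_)
            · rw [abs_mul]
              refine mul_le_mul hcon ?_ (abs_nonneg _) (by linarith)
              rw [abs_of_nonneg (by positivity), div_le_iff₀ htc0]
              linarith
            · rw [abs_div, abs_of_pos htc0, div_le_iff₀ htc0]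
              have h5 : 4 * |c| ≤ t * ε := by
                rw [← div_le_iff₀ hε]; exact ht3_d.trans ht
              nlinarith
          linarith
  refine (measure_mono hcov).trans ((measure_union_le _ _).trans ?_)
  have hb1 : volume (Set.Icc 0 (t3 / ε) ×ˢ Set.Icc 0 (t3 / ε) : Set (ℝ × ℝ)) =
      ENNReal.ofReal ((t3 / ε) ^ 2) := by
    rw [Measure.volume_eq_prod, Measure.prod_prod, Real.volume_Icc, sub_zero,
      ← ENNReal.ofReal_mul (by positivity), pow_two]
  have hb2 : volume ((fun z : ℝ × ℝ => (z.1 - z.2, z.2)) ⁻¹' D' L) = volume (D' L) := by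
    have hmp : MeasurePreserving (fun z : ℝ × ℝ => (z.1 - z.2, z.2))
        ((volume : Measure ℝ).prod volume) ((volume : Measure ℝ).prod volume) :=
      measurePreserving_sub_prod (volume : Measure ℝ) (volume : Measure ℝ)
    rw [Measure.volume_eq_prod]
    exact hmp.measure_preimage (hD'm L).nullMeasurableSet
  rw [hb1, hb2]
  refine (add_le_add_right (hD'v L hL2) _).trans ?_
  rw [← ENNReal.ofReal_add (by positivity) (by positivity)]
  refine ENNReal.ofReal_le_ofReal ?_
  nlinarith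

theorem main' (V : ℝ → ℝ → ℝ) (hm : Measurable fun p : ℝ × ℝ => V p.1 p.2)
    (H : ∀ u v ε : ℝ, 1 ≤ u → u < v → 0 < ε → ∀ᶠ T in atTop,
      volume {x : ℝ | u * Real.log T ≤ x ∧ x ≤ v * Real.log T ∧
        ε < |V (Real.exp x) (Real.exp x / T) / (Real.exp x / T * Real.log T) - 1|} ≤
          ENNReal.ofReal (ε * Real.log T)) (c ε : ℝ) (hε : 0 < ε) :
    ∀ᶠ L in atTop,
      volume {p : ℝ × ℝ | 0 ≤ p.1 ∧ p.1 ≤ L ∧ ε * p.1 ≤ p.2 ∧ p.2 ≤ (1 - ε) * p.1 ∧
        ε < |V (Real.exp p.1) (Real.exp p.2) / (Real.exp p.2 * (p.1 - p.2 - c)) - 1|} ≤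
          ENNReal.ofReal (ε * L ^ 2) := by
  have h := main V hm H c (min ε (1 / 3)) (lt_min hε (by norm_num)) (min_le_right _ _)
  filter_upwards [h, eventually_ge_atTop 0] with L hL hL0
  refine (measure_mono (mono_aux V c L (min_le_left ε (1 / 3)))).trans (hL.trans ?_)
  refine ENNReal.ofReal_le_ofReal ?_
  exact mul_le_mul_of_nonneg_right (min_le_left _ _) (by positivity)

end H479.X.AA2

namespace H479.X

open H479.V (ft EW RP S_EFL S_DG S_APP)
open Pool.Agent.N804 (SC CT)
open Pool.Agent.N804.PV (GV ph DT)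

theorem aa2 : S_AA2 := by
  intro hm H c ε hε
  exact AA2.main' V hm H c ε hε

end H479.X
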