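import Pool.Agent.H479.X.Stm

/-! # almost all points of the lines X / H = T (proved by helper695) -/


open MeasureTheory Filter Topology

namespace H479.X

open H479.V (ft EW RP S_EFL S_DG S_APP)
open Pool.Agent.N804 (SC CT)
open Pool.Agent.N804.PV (GV ph DT)

namespace AAL

lemma subst_exp' {a b : ℝ} (hab : a ≤ b) (g : ℝ → ℝ) :
    ∫ x in (Real.exp a)..(Real.exp b), g x = ∫ y in a..b, Real.exp y * g (Real.exp y) := by
  rw [intervalIntegral.integral_of_le (Real.exp_le_exp.2 hab), intervalIntegral.integral_of_le hab,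
    ← integral_Icc_eq_integral_Ioc, ← integral_Icc_eq_integral_Ioc]
  have himg : Real.exp '' (Set.Icc a b) = Set.Icc (Real.exp a) (Real.exp b) := by
    ext x
    constructor
    · rintro ⟨y, hy, rfl⟩
      exact ⟨Real.exp_le_exp.2 hy.1, Real.exp_le_exp.2 hy.2⟩
    · intro hx
      have hx0 : 0 < x := (Real.exp_pos a).trans_le hx.1
      refine ⟨Real.log x, ⟨?_, ?_⟩, Real.exp_log hx0⟩
      · rw [Real.le_log_iff_exp_le hx0]; exact hx.1
      · rw [Real.log_le_iff_le_exp hx0]; exact hx.2
  have h := integral_image_eq_integral_abs_deriv_smul (measurableSet_Icc (a := a) (b := b))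
    (fun x _ => (Real.hasDerivAt_exp x).hasDerivWithinAt) (Real.exp_injective.injOn) g
  rw [himg] at h
  rw [h]
  refine setIntegral_congr_fun measurableSet_Icc fun x _ => ?_
  show |Real.exp x| • g (Real.exp x) = _
  rw [abs_of_pos (Real.exp_pos x), smul_eq_mul]

/-- the normalised variance on the line -/
noncomputable def q (T x : ℝ) : ℝ :=
  V (Real.exp x) (Real.exp x / T) / (Real.exp x / T * Real.log T)

lemma W_eq {T u v : ℝ} (hT : 1 < T) (huv : u ≤ v) :
    W T u v = 1 / Real.log T * ∫ x in (u * Real.log T)..(v * Real.log T), q T x := by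
  have hT0 : 0 < T := by linarith
  have hL := Real.log_pos hT
  have e1 : ∀ s : ℝ, T ^ s = Real.exp (s * Real.log T) := fun s => by
    rw [Real.rpow_def_of_pos hT0, mul_comm]
  unfold W
  rw [e1 u, e1 v, subst_exp' (mul_le_mul_of_nonneg_right huv hL.le)]
  congr 1
  refine intervalIntegral.integral_congr fun x _ => ?_
  show Real.exp x * (V (Real.exp x) (Real.exp x / T) / (Real.exp x / T * Real.log T) / Real.exp x) =
    V (Real.exp x) (Real.exp x / T) / (Real.exp x / T * Real.log T)
  have := Real.exp_pos x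
  field_simp

lemma V_nonneg {X H : ℝ} (hX : 0 < X) : 0 ≤ V X H := by
  unfold V
  apply mul_nonneg (by positivity)
  exact intervalIntegral.integral_nonneg (by linarith) fun x _ => sq_nonneg _

lemma meas_q (h : S_MV) (T : ℝ) : Measurable (q T) := by
  have h1 : Measurable fun x : ℝ => V (Real.exp x) (Real.exp x / T) :=
    h.comp (f := fun x : ℝ => (Real.exp x, Real.exp x / T)) (by fun_prop)
  unfold q
  exact h1.div (by fun_prop)

lemma core {q : ℝ → ℝ} (hq : Measurable q) {a b ε η : ℝ} (hab : a ≤ b)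
    (hηε : η < ε) (h0 : ∀ x, a ≤ x → x ≤ b → 0 ≤ q x) (h1 : ∀ x, a ≤ x → x ≤ b → q x ≤ 1 + η) :
    volume {x : ℝ | a ≤ x ∧ x ≤ b ∧ ε < |q x - 1|} ≠ ⊤ ∧
    (ε + η) * (volume {x : ℝ | a ≤ x ∧ x ≤ b ∧ ε < |q x - 1|}).toReal ≤
      (1 + η) * (b - a) - ∫ x in a..b, q x := by
  obtain ⟨B, hBd⟩ : ∃ B, B = {x : ℝ | a ≤ x ∧ x ≤ b ∧ ε < |q x - 1|} := ⟨_, rfl⟩
  rw [← hBd]
  have hBs : B ⊆ Set.Icc a b := by
    rw [hBd]; rintro x ⟨g1, g2, _⟩; exact ⟨g1, g2⟩
  have hBm : MeasurableSet B := by
    have e : B = Set.Icc a b ∩ {x | ε < |q x - 1|} := by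
      rw [hBd]; ext x
      constructor
      · rintro ⟨g1, g2, g3⟩; exact ⟨⟨g1, g2⟩, g3⟩
      · rintro ⟨⟨g1, g2⟩, g3⟩; exact ⟨g1, g2, g3⟩
    rw [e]
    exact measurableSet_Icc.inter (measurableSet_lt measurable_const ((hq.sub_const 1).abs))
  have hBf : volume B ≠ ⊤ := by
    refine ne_top_of_le_ne_top ?_ (measure_mono hBs)
    rw [Real.volume_Icc]; exact ENNReal.ofReal_ne_top
  refine ⟨hBf, ?_⟩
  have hqi : IntegrableOn q (Set.Icc a b) := by
    refine Measure.integrableOn_of_bounded (M := 1 + η) ?_ hq.aestronglyMeasurable ?_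
    · rw [Real.volume_Icc]; exact ENNReal.ofReal_ne_top
    · refine (ae_restrict_iff' measurableSet_Icc).2 (Eventually.of_forall fun x hx => ?_)
      rw [Real.norm_eq_abs, abs_of_nonneg (h0 x hx.1 hx.2)]
      exact h1 x hx.1 hx.2
  have hind : IntegrableOn (B.indicator fun _ => (1 : ℝ)) (Set.Icc a b) := by
    rw [IntegrableOn, integrable_indicator_iff hBm]
    refine integrableOn_const ?_
    rw [Measure.restrict_apply hBm]
    exact ne_top_of_le_ne_top hBf (measure_mono Set.inter_subset_left)
  have hc : IntegrableOn (fun _ : ℝ => 1 + η) (Set.Icc a b) := by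
    refine integrableOn_const ?_
    rw [Real.volume_Icc]; exact ENNReal.ofReal_ne_top
  have hmono : ∫ x in Set.Icc a b, q x ≤
      ∫ x in Set.Icc a b, ((1 + η) - (ε + η) * B.indicator (fun _ => (1 : ℝ)) x) := by
    refine setIntegral_mono_on hqi (hc.sub (hind.const_mul _)) measurableSet_Icc fun x hx => ?_
    by_cases hxB : x ∈ B
    · rw [Set.indicator_of_mem hxB]
      have g := hxB
      rw [hBd] at g
      obtain ⟨g1, g2, g3⟩ := g
      have g4 := h1 x g1 g2
      rcases lt_abs.1 g3 with g5 | g5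
      · linarith
      · linarith
    · rw [Set.indicator_of_notMem hxB]
      have := h1 x hx.1 hx.2
      linarith
  rw [integral_sub hc (hind.const_mul _), integral_const_mul, integral_indicator hBm,
    Measure.restrict_restrict hBm, Set.inter_eq_left.2 hBs] at hmono
  rw [setIntegral_const, setIntegral_const, smul_eq_mul, smul_eq_mul, mul_one, Measure.real,
    Measure.real, Real.volume_Icc, ENNReal.toReal_ofReal (by linarith)] at hmono
  rw [intervalIntegral.integral_of_le hab, ← integral_Icc_eq_integral_Ioc]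
  linarith

end AAL

open AAL in
theorem aal : S_AAL := by
  intro hMV hUp hAs u v ε hu huv hε
  have hv : 0 < v := by linarith
  -- the small parameter
  obtain ⟨η, hη, hηε, hηv, hη2⟩ : ∃ η : ℝ, 0 < η ∧ η < ε ∧ η * v ≤ 1 ∧ η * (v - u + 1) ≤ ε ^ 2 := by
    have hvu : 0 < v - u + 1 := by linarith
    refine ⟨min (ε / 2) (min (1 / v) (ε ^ 2 / (v - u + 1))), ?_, ?_, ?_, ?_⟩
    · refine lt_min (by positivity) (lt_min (by positivity) (by positivity))
    · exact (min_le_left _ _).trans_lt (by linarith)
    · calc _ ≤ 1 / v * v := by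
            gcongr
            exact (min_le_right _ _).trans (min_le_left _ _)
        _ = 1 := by field_simp
    · calc _ ≤ ε ^ 2 / (v - u + 1) * (v - u + 1) := by
            gcongr
            exact (min_le_right _ _).trans (min_le_right _ _)
        _ = ε ^ 2 := by field_simp
  obtain ⟨X0, hX0⟩ := eventually_atTop.1 (hUp η hη)
  have hAs' : ∀ᶠ T in atTop, v - u - η < W T u v :=
    (hAs u v hu huv).eventually (lt_mem_nhds (by linarith))
  filter_upwards [hAs', eventually_gt_atTop (1 : ℝ), eventually_ge_atTop X0] with T hW hT hTX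
  have hT0 : 0 < T := by linarith
  have hL := Real.log_pos hT
  have hq0 : ∀ x, u * Real.log T ≤ x → x ≤ v * Real.log T → 0 ≤ q T x := by
    intro x _ _
    unfold q
    have h1 : 0 ≤ V (Real.exp x) (Real.exp x / T) := V_nonneg (Real.exp_pos x)
    have := Real.exp_pos x
    positivity
  have hq1 : ∀ x, u * Real.log T ≤ x → x ≤ v * Real.log T → q T x ≤ 1 + η := by
    intro x hx1 hx2
    have hex := Real.exp_pos x
    have h1 : T ≤ Real.exp x := by
      rw [← Real.exp_log hT0]
      apply Real.exp_le_exp.2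
      nlinarith
    have h2 : 1 ≤ Real.exp x / T := (one_le_div hT0).2 h1
    have h3 : Real.exp x / T ≤ Real.exp x ^ (1 - η) := by
      rw [Real.rpow_sub hex, Real.rpow_one]
      apply div_le_div_of_nonneg_left hex.le (by positivity)
      rw [← Real.exp_mul]
      have h6 : x * η ≤ Real.log T := by
        calc x * η ≤ v * Real.log T * η := by gcongr
          _ = (η * v) * Real.log T := by ring
          _ ≤ 1 * Real.log T := by gcongr
          _ = _ := one_mul _
      calc Real.exp (x * η) ≤ Real.exp (Real.log T) := Real.exp_le_exp.2 h6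
        _ = T := Real.exp_log hT0
    have h4 := hX0 (Real.exp x) (hTX.trans h1) (Real.exp x / T) h2 h3
    have h5 : Real.exp x / (Real.exp x / T) = T := by field_simp
    rw [h5] at h4
    unfold q
    rw [div_le_iff₀ (by positivity)]
    exact h4
  have hab : u * Real.log T ≤ v * Real.log T := by gcongr
  obtain ⟨hfin, hkey⟩ := core (meas_q hMV T) hab hηε hq0 hq1
  rw [W_eq hT huv.le] at hW
  have hW' : (v - u - η) * Real.log T < ∫ x in (u * Real.log T)..(v * Real.log T), q T x := by
    rw [one_div, ← div_eq_inv_mul, lt_div_iff₀ hL] at hW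
    exact hW
  have hvol : (volume {x : ℝ | u * Real.log T ≤ x ∧ x ≤ v * Real.log T ∧ ε < |q T x - 1|}).toReal ≤
      ε * Real.log T := by
    generalize (volume {x : ℝ | u * Real.log T ≤ x ∧ x ≤ v * Real.log T ∧
      ε < |q T x - 1|}).toReal = m at hkey ⊢
    by_contra hcon
    push Not at hcon
    have h1 : ε * (ε * Real.log T) < (ε + η) * m := by
      have : 0 < ε * Real.log T := by positivity
      nlinarith
    have h2 : (ε + η) * m < η * (v - u + 1) * Real.log T := by nlinarith
    have h3 : η * (v - u + 1) * Real.log T ≤ ε ^ 2 * Real.log T := by gcongr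
    nlinarith
  have := ENNReal.ofReal_le_ofReal hvol
  rw [ENNReal.ofReal_toReal hfin] at this
  exact this

end H479.X
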