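import Pool.Agent.H479.X.Stm
import Pool.Agent.H479.V.Main

/-! # Assembly -/

open MeasureTheory Filter Topology

namespace H479.X

open H479.V (ft EW RP S_EFL S_DG S_APP OS TS ft_nonneg ft_ii gvf one efl dg app)
open Pool.Agent.N804 (SC CT)
open Pool.Agent.N804.PV (GV ph)

lemma GV_nonneg {T u v : ℝ} (hT : 1 < T) (hu : 0 ≤ u) (huv : u ≤ v) : 0 ≤ GV T u v := by
  rw [gvf T u v hT hu huv]
  exact intervalIntegral.integral_nonneg huv fun α _ => ft_nonneg hT α

lemma AV_const_le {T : ℝ} (hT : 2 ≤ T) {f : ℝ → ℝ} {C : ℝ}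
    (hf : ∀ S, T - 1 / 2 ≤ S → S ≤ 2 * T - 1 / 2 → C ≤ f S)
    (hi : IntervalIntegrable f volume (T - 1 / 2) (2 * T - 1 / 2)) : C ≤ AV T f := by
  have hT0 : 0 < T := by linarith
  have h1 : ∫ S in (T - 1 / 2)..(2 * T - 1 / 2), C ≤ ∫ S in (T - 1 / 2)..(2 * T - 1 / 2), f S :=
    intervalIntegral.integral_mono_on (by linarith) (by simp) hi fun S hS => hf S hS.1 hS.2
  rw [intervalIntegral.integral_const, smul_eq_mul] at h1
  unfold AV
  rw [one_div, ← div_eq_inv_mul, le_div_iff₀ hT0]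
  calc C * T = (2 * T - 1 / 2 - (T - 1 / 2)) * C := by ring
    _ ≤ _ := h1

/-- there is a point in which the function is at most its average -/
lemma exists_le_AV {T : ℝ} (hT : 2 ≤ T) {f : ℝ → ℝ}
    (hi : IntervalIntegrable f volume (T - 1 / 2) (2 * T - 1 / 2)) {C : ℝ} (hC : AV T f < C) :
    ∃ S, T - 1 / 2 ≤ S ∧ S ≤ 2 * T ∧ f S ≤ C := by
  by_contra hcon
  push Not at hcon
  have := AV_const_le hT (C := C) (fun S h1 h2 => (hcon S h1 (by linarith)).le) hi
  linarith

/-- the averages of the variance are bounded -/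
lemma AV_le_of_Up (hLOV : S_LOV) (h : Up) {a b : ℝ} (ha : 1 ≤ a) (hab : a < b) {ε : ℝ}
    (hε : 0 < ε) : ∀ᶠ T in atTop, AV T (fun S => GV S a b) ≤ b - a + ε := by
  -- choose a small parameter
  obtain ⟨ε₁, h1, h2, h3⟩ : ∃ ε₁ : ℝ, 0 < ε₁ ∧ ε₁ < 1 ∧ (b - a + 2 * ε₁) / (1 - ε₁) ≤ b - a + ε := by
    have hc : ContinuousAt (fun x : ℝ => (b - a + 2 * x) / (1 - x)) 0 := by
      refine ContinuousAt.div (by fun_prop) (by fun_prop) (by norm_num)
    have h4 : (fun x : ℝ => (b - a + 2 * x) / (1 - x)) 0 < b - a + ε := by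
      simp
      linarith
    have h5 := hc.eventually_lt_const h4
    have h6 : ∀ᶠ x in 𝓝[>] (0 : ℝ), (b - a + 2 * x) / (1 - x) < b - a + ε ∧ x < 1 ∧ 0 < x :=
      ((h5.filter_mono nhdsWithin_le_nhds).and
        (((gt_mem_nhds one_pos : ∀ᶠ x : ℝ in 𝓝 0, x < 1).filter_mono nhdsWithin_le_nhds).and
          self_mem_nhdsWithin))
    obtain ⟨x, hx1, hx2, hx3⟩ := h6.exists
    exact ⟨x, hx3, hx2, hx1.le⟩
  obtain ⟨u, hu, hua, hud⟩ : ∃ u : ℝ, 1 ≤ u ∧ (u < a ∨ (u = 1 ∧ a = 1)) ∧ a - ε₁ / 2 ≤ u := by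
    rcases ha.eq_or_lt with h | h
    · exact ⟨1, le_rfl, Or.inr ⟨rfl, h.symm⟩, by linarith⟩
    · exact ⟨max 1 (a - ε₁ / 2), le_max_left _ _, Or.inl (max_lt h (by linarith)), le_max_right _ _⟩
  have hua' : u ≤ a := by rcases hua with h | h <;> linarith [h]
  have hev := hLOV u (b + ε₁ / 2) a b ε₁ hu hua hab (by linarith) h1
  filter_upwards [hev, h u (b + ε₁ / 2) hu (by linarith) ε₁ h1] with T h4 h5
  refine le_trans ?_ h3
  rw [le_div_iff₀ (by linarith)]
  linarith

theorem RH_of_Up (hLOV : S_LOV) (hGI : S_GI) (hRHA : S_RHA) (h : Up) : RiemannHypothesis := by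
  refine hRHA fun b hb => ?_
  obtain ⟨T0, hT0⟩ := eventually_atTop.1 (AV_le_of_Up hLOV h le_rfl hb one_pos)
  refine ⟨b - 1 + 2, max T0 2, fun T hT => ?_⟩
  have h1 := hT0 T ((le_max_left _ _).trans hT)
  have h2 : 2 ≤ T := (le_max_right _ _).trans hT
  exact exists_le_AV h2 (hGI 1 b _ _ zero_le_one hb.le (by linarith) (by linarith)) (by linarith)

theorem lim_of_Up (hLOV : S_LOV) (hGI : S_GI) (hRHA : S_RHA) (hBD : S_BD) (hLOW : S_LOW2)
    (hFUB : S_FUB) (hAVL : S_AVL) (h : Up) : ∀ t : ℝ, 1 ≤ t →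
    Tendsto (fun T => AV T (fun S => GV S 1 t)) atTop (𝓝 (t - 1)) := by
  have RH := RH_of_Up hLOV hGI hRHA h
  have hb : ∀ b : ℝ, 1 < b → ∃ C T0 : ℝ, ∀ T : ℝ, T0 ≤ T → ∫ α in (1 : ℝ)..b, ft T α ≤ C := by
    intro b hb
    obtain ⟨C, T0, hC⟩ := hBD RH b hb
    refine ⟨C, max T0 2, fun T hT => ?_⟩
    have h1 := hC T ((le_max_left _ _).trans hT)
    have h2 : 2 ≤ T := (le_max_right _ _).trans hT
    rw [gvf T 0 b (by linarith) le_rfl (by linarith)] at h1
    have h3 := intervalIntegral.integral_add_adjacent_intervals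
      (ft_ii (show 1 < T by linarith) 0 1) (ft_ii (show 1 < T by linarith) 1 b)
    have h4 : 0 ≤ ∫ α in (0 : ℝ)..1, ft T α := intervalIntegral.integral_nonneg zero_le_one
      fun α _ => ft_nonneg (by linarith) α
    linarith
  have hlow := hAVL (hLOW RH efl dg app hb)
  have key := one atTop fA ?_ ?_ ?_ hlow
  · intro t ht
    refine (key t ht).congr' ?_
    filter_upwards [eventually_ge_atTop 2] with T hT
    exact ((hFUB T hT).2 1 t zero_le_one ht).2
  · filter_upwards [eventually_ge_atTop 2] with T hT α using (hFUB T hT).1 α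
  · filter_upwards [eventually_ge_atTop 2] with T hT a b ha hab using
      ((hFUB T hT).2 a b (by linarith) hab).1
  · intro a b ha hab ε hε
    filter_upwards [AV_le_of_Up hLOV h ha hab hε, eventually_ge_atTop 2] with T h1 hT
    rwa [((hFUB T hT).2 a b (by linarith) hab.le).2]

theorem OS_of_Up (hLOV : S_LOV) (hGI : S_GI) (hRHA : S_RHA) (hBD : S_BD) (hLOW : S_LOW2)
    (hFUB : S_FUB) (hAVL : S_AVL) (hCES : S_CES) (hCON : S_CON) (hUNA : S_UNA) (h : Up) : OS := by
  have RH := RH_of_Up hLOV hGI hRHA h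
  refine hUNA hGI hCES hCON (hBD RH) fun a b ha hab => ?_
  have hl := lim_of_Up hLOV hGI hRHA hBD hLOW hFUB hAVL h
  have h1 := (hl b (by linarith)).sub (hl a ha)
  have e : b - 1 - (a - 1) = b - a := by ring
  rw [e] at h1
  refine h1.congr' ?_
  filter_upwards [eventually_ge_atTop 2] with T hT
  rw [← ((hFUB T hT).2 1 b zero_le_one (by linarith)).2,
    ← ((hFUB T hT).2 1 a zero_le_one ha).2, ← ((hFUB T hT).2 a b (by linarith) hab.le).2]
  have := intervalIntegral.integral_add_adjacent_intervals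
    ((hFUB T hT).2 1 a zero_le_one ha).1 ((hFUB T hT).2 a b (by linarith) hab.le).1
  linarith

/-- averages of a convergent function -/
lemma AV_tendsto {g : ℝ → ℝ} {c : ℝ} (hg : Tendsto g atTop (𝓝 c))
    (hi : ∀ R R' : ℝ, 1 < R → R ≤ R' → IntervalIntegrable g volume R R') :
    Tendsto (fun T => AV T g) atTop (𝓝 c) := by
  rw [Metric.tendsto_atTop] at hg ⊢
  intro ε hε
  obtain ⟨N, hN⟩ := hg (ε / 2) (by positivity)
  refine ⟨max (N + 1) 2, fun T hT => ?_⟩
  have h1 : N + 1 ≤ T := (le_max_left _ _).trans hT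
  have h2 : 2 ≤ T := (le_max_right _ _).trans hT
  have hii := hi (T - 1 / 2) (2 * T - 1 / 2) (by linarith) (by linarith)
  have hb : ∀ S, T - 1 / 2 ≤ S → S ≤ 2 * T - 1 / 2 → |g S - c| < ε / 2 := fun S hS _ => by
    have := hN S (by linarith)
    rwa [Real.dist_eq] at this
  have lo := AV_const_le h2 (f := g) (C := c - ε / 2)
    (fun S hS1 hS2 => by have := (abs_lt.1 (hb S hS1 hS2)).1; linarith) hii
  have hi' := AV_const_le h2 (f := fun S => -g S) (C := -(c + ε / 2))
    (fun S hS1 hS2 => by have := (abs_lt.1 (hb S hS1 hS2)).2; linarith) hii.neg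
  have e : AV T (fun S => -g S) = -AV T g := by
    unfold AV
    rw [intervalIntegral.integral_neg]
    ring
  rw [e] at hi'
  rw [Real.dist_eq, abs_lt]
  constructor <;> linarith

theorem As_of_TS (hLOV : S_LOV) (hHIV : S_HIV) (hGI : S_GI) (h : TS) : As := by
  intro u v hu huv
  have hAV : ∀ a b : ℝ, 1 ≤ a → a < b → Tendsto (fun T => AV T (fun S => GV S a b)) atTop
      (𝓝 (b - a)) := fun a b ha hab => AV_tendsto (h a b ha hab)
        (fun R R' hR hRR' => hGI a b R R' (by linarith) hab.le hR hRR')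
  have hW : ∀ᶠ T in atTop, 0 ≤ W T u v := by
    filter_upwards [eventually_ge_atTop 2] with T hT
    unfold W
    have hL : 0 < Real.log T := Real.log_pos (by linarith)
    refine mul_nonneg (by positivity) (intervalIntegral.integral_nonneg
      (Real.rpow_le_rpow_of_exponent_le (by linarith) huv.le) fun X hX => ?_)
    have hX0 : 0 < X := (Real.rpow_pos_of_pos (by linarith) u).trans_le hX.1
    have hV : 0 ≤ V X (X / T) := by
      unfold V
      exact mul_nonneg (by positivity) (intervalIntegral.integral_nonneg (by linarith)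
        fun x _ => sq_nonneg _)
    have : 0 < X / T := by positivity
    positivity
  rw [tendsto_order]
  constructor
  · intro m hm
    -- choose the parameter
    obtain ⟨δ, hδ, hδ1, hδ2⟩ : ∃ δ : ℝ, 0 < δ ∧ δ < 1 ∧ m < (1 - δ) * (v - u - 3 * δ) := by
      have hc : ContinuousAt (fun x : ℝ => (1 - x) * (v - u - 3 * x)) 0 := by fun_prop
      have h4 : m < (fun x : ℝ => (1 - x) * (v - u - 3 * x)) 0 := by simpa using hm
      have h5 := hc.eventually_const_lt h4
      have h6 : ∀ᶠ x in 𝓝[>] (0 : ℝ), m < (1 - x) * (v - u - 3 * x) ∧ x < 1 ∧ 0 < x :=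
        ((h5.filter_mono nhdsWithin_le_nhds).and
          (((gt_mem_nhds one_pos : ∀ᶠ x : ℝ in 𝓝 0, x < 1).filter_mono nhdsWithin_le_nhds).and
            self_mem_nhdsWithin))
      obtain ⟨x, hx1, hx2, hx3⟩ := h6.exists
      exact ⟨x, hx3, hx2, hx1⟩
    rcases le_or_gt (v - u) (2 * δ) with h7 | h7
    · filter_upwards [hW] with T hT
      refine lt_of_lt_of_le (hδ2.trans_le ?_) hT
      exact mul_nonpos_of_nonneg_of_nonpos (by linarith) (by linarith)
    obtain ⟨a, hua, had⟩ : ∃ a : ℝ, (u < a ∨ (u = 1 ∧ a = 1)) ∧ a ≤ u + δ / 2 :=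
      ⟨u + δ / 2, Or.inl (by linarith), le_rfl⟩
    have hua' : u ≤ a := by rcases hua with h | h <;> linarith [h]
    have hev := hLOV u v a (v - δ / 2) δ hu hua (by linarith) (by linarith) hδ
    filter_upwards [hev, (tendsto_order.1 (hAV a (v - δ / 2) (by linarith) (by linarith))).1
      (v - δ / 2 - a - δ) (by linarith)] with T h1 h2
    refine hδ2.trans_le (le_trans ?_ h1)
    exact mul_le_mul_of_nonneg_left (by linarith) (by linarith)
  · intro m hm
    obtain ⟨δ, hδ, hδ2⟩ : ∃ δ : ℝ, 0 < δ ∧ (1 + δ) * (v - u + 2 * δ) < m := by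
      have hc : ContinuousAt (fun x : ℝ => (1 + x) * (v - u + 2 * x)) 0 := by fun_prop
      have h4 : (fun x : ℝ => (1 + x) * (v - u + 2 * x)) 0 < m := by simpa using hm
      have h5 := hc.eventually_lt_const h4
      have h6 : ∀ᶠ x in 𝓝[>] (0 : ℝ), (1 + x) * (v - u + 2 * x) < m ∧ 0 < x :=
        ((h5.filter_mono nhdsWithin_le_nhds).and self_mem_nhdsWithin)
      obtain ⟨x, hx1, hx3⟩ := h6.exists
      exact ⟨x, hx3, hx1⟩
    obtain ⟨a, ha, hau, had⟩ : ∃ a : ℝ, 1 ≤ a ∧ (a < u ∨ (a = 1 ∧ u = 1)) ∧ u - δ / 2 ≤ a := by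
      rcases hu.eq_or_lt with h | h
      · exact ⟨1, le_rfl, Or.inr ⟨rfl, h.symm⟩, by linarith⟩
      · exact ⟨max 1 (u - δ / 2), le_max_left _ _, Or.inl (max_lt h (by linarith)), le_max_right _ _⟩
    have hau' : a ≤ u := by rcases hau with h | h <;> linarith [h]
    have hev := hHIV u v a (v + δ / 2) δ ha hau huv (by linarith) hδ
    filter_upwards [hev, (tendsto_order.1 (hAV a (v + δ / 2) ha (by linarith))).2
      (v + δ / 2 - a + δ) (by linarith)] with T h1 h2
    refine lt_of_le_of_lt (h1.trans ?_) hδ2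
    exact mul_le_mul_of_nonneg_left (by linarith) (by linarith)

end H479.X
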