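import Pool.Agent.H479.X.Stm
import Pool.Agent.H479.V.Gvf

/-! # the averaged lower bound (proved by helper328) -/


open MeasureTheory Filter Topology

namespace H479.X

open H479.V (ft EW RP S_EFL S_DG S_APP)
open Pool.Agent.N804 (SC CT)
open Pool.Agent.N804.PV (GV ph DT)

namespace AVLaux

/-- the density is jointly measurable -/
theorem ft_meas2 : Measurable (fun p : ℝ × ℝ => ft p.1 p.2) := by
  have h1 : Measurable fun p : ℝ × ℝ =>
      Chebyshev.psi (Real.exp (p.2 * Real.log p.1) * (1 + 1 / p.1)) :=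
    Pool.Agent.N278.PV.meas_psi.comp (by fun_prop)
  have h2 : Measurable fun p : ℝ × ℝ => Chebyshev.psi (Real.exp (p.2 * Real.log p.1)) :=
    Pool.Agent.N278.PV.meas_psi.comp (by fun_prop)
  unfold ft DT
  fun_prop

/-- pointwise bound of the density -/
theorem ft_bd {T : ℝ} (hT : 2 ≤ T) {S α b : ℝ} (h1 : T - 1 / 2 ≤ S) (h2 : S ≤ 2 * T - 1 / 2)
    (hα : α ≤ b) : |ft S α| ≤ (2 * T) / Real.log (T - 1 / 2) *
      (Pool.Agent.N278.PV.C1 ^ 2 * Real.exp (|b| * Real.log (2 * T))) := by
  have hS1 : 1 < S := by linarith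
  have hL : 0 < Real.log S := Real.log_pos hS1
  have hL1 : 0 < Real.log (T - 1 / 2) := Real.log_pos (by linarith)
  have hL2 : Real.log (T - 1 / 2) ≤ Real.log S := Real.log_le_log (by linarith) h1
  have hL3 : Real.log S ≤ Real.log (2 * T) := Real.log_le_log (by linarith) (by linarith)
  have h3 := Pool.Agent.N278.PV.DT_bound hS1.le (α * Real.log S)
  have h4 := Pool.Agent.N278.PV.C1_pos
  unfold ft
  rw [abs_mul, abs_of_pos (by positivity : 0 < S / Real.log S), abs_pow]
  have h5 : S / Real.log S ≤ 2 * T / Real.log (T - 1 / 2) := by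
    apply div_le_div₀ (by linarith) (by linarith) hL1 hL2
  have h6 := pow_le_pow_left₀ (abs_nonneg _) h3 2
  have h7 : (Pool.Agent.N278.PV.C1 * Real.exp (α * Real.log S / 2)) ^ 2 ≤
      Pool.Agent.N278.PV.C1 ^ 2 * Real.exp (|b| * Real.log (2 * T)) := by
    rw [mul_pow, ← Real.exp_nat_mul]
    refine mul_le_mul_of_nonneg_left ?_ (by positivity)
    apply Real.exp_le_exp.2
    push_cast
    have h8 : α * Real.log S ≤ |b| * Real.log S :=
      mul_le_mul_of_nonneg_right (hα.trans (le_abs_self b)) hL.le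
    have h9 : |b| * Real.log S ≤ |b| * Real.log (2 * T) :=
      mul_le_mul_of_nonneg_left hL3 (abs_nonneg b)
    linarith
  exact mul_le_mul h5 (h6.trans h7) (by positivity) (by positivity)

/-- the primitive is jointly measurable for `t ≥ 1` -/
theorem prim_meas : Measurable (fun p : ℝ × ℝ => ∫ α, (Set.Ioc 1 p.2).indicator (ft p.1) α) := by
  have h1 : StronglyMeasurable (fun q : (ℝ × ℝ) × ℝ =>
      (Set.Ioc 1 q.1.2).indicator (ft q.1.1) q.2) := by
    apply Measurable.stronglyMeasurable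
    have hs : MeasurableSet {q : (ℝ × ℝ) × ℝ | 1 < q.2 ∧ q.2 ≤ q.1.2} := by
      apply MeasurableSet.inter
      · exact measurableSet_lt measurable_const measurable_snd
      · exact measurableSet_le measurable_snd (measurable_snd.comp measurable_fst)
    have hf : Measurable (fun q : (ℝ × ℝ) × ℝ => ft q.1.1 q.2) :=
      ft_meas2.comp ((measurable_fst.comp measurable_fst).prodMk measurable_snd)
    have e : (fun q : (ℝ × ℝ) × ℝ => (Set.Ioc 1 q.1.2).indicator (ft q.1.1) q.2) =
        {q : (ℝ × ℝ) × ℝ | 1 < q.2 ∧ q.2 ≤ q.1.2}.indicator (fun q => ft q.1.1 q.2) := by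
      funext q
      by_cases h : 1 < q.2 ∧ q.2 ≤ q.1.2
      · rw [Set.indicator_of_mem (by exact h), Set.indicator_of_mem (by exact h)]
      · rw [Set.indicator_of_notMem (by exact h), Set.indicator_of_notMem (by exact h)]
    rw [e]
    exact hf.indicator hs
  exact (h1.integral_prod_right (ν := volume)).measurable

theorem prim_eq (S t : ℝ) (ht : 1 ≤ t) :
    ∫ α in (1 : ℝ)..t, ft S α = ∫ α, (Set.Ioc 1 t).indicator (ft S) α := by
  rw [intervalIntegral.integral_of_le ht, integral_indicator measurableSet_Ioc]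

end AVLaux

open AVLaux

theorem avl (hF : S_FUB) (hGI : S_GI) : S_AVL := by
  intro hLB b ε hb hε
  obtain ⟨T0, hT0⟩ := eventually_atTop.1 (hLB b ε hb hε)
  filter_upwards [eventually_ge_atTop (max (T0 + 1) 2)] with T hT
  have hT1 : T0 + 1 ≤ T := (le_max_left _ _).trans hT
  have hT2 : 2 ≤ T := (le_max_right _ _).trans hT
  have hTpos : 0 < T := by linarith
  obtain ⟨-, hfub⟩ := hF T hT2
  set μ : Measure ℝ := volume.restrict (Set.Ioc (T - 1 / 2) (2 * T - 1 / 2)) with hμ
  set ν : Measure ℝ := volume.restrict (Set.Ioc 1 b) with hν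
  have hle : T - 1 / 2 ≤ 2 * T - 1 / 2 := by linarith
  -- the primitive
  obtain ⟨H, hH⟩ : ∃ H : ℝ → ℝ → ℝ, ∀ S t, H S t = ∫ α, (Set.Ioc 1 t).indicator (ft S) α :=
    ⟨_, fun _ _ => rfl⟩
  have hHm : Measurable (Function.uncurry H) := by
    have : Function.uncurry H = fun p : ℝ × ℝ => ∫ α, (Set.Ioc 1 p.2).indicator (ft p.1) α := by
      funext p
      exact hH p.1 p.2
    rw [this]
    exact prim_meas
  have hHe : ∀ S t, 1 ≤ t → ∫ α in (1 : ℝ)..t, ft S α = H S t := by
    intro S t ht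
    rw [hH, prim_eq S t ht]
  have hGH : ∀ S t, 1 < S → 1 ≤ t → GV S 1 t = H S t := by
    intro S t hS ht
    rw [H479.V.gvf S 1 t hS (by norm_num) ht, hHe S t ht]
  -- bound
  obtain ⟨C, hC⟩ : ∃ C : ℝ, C = (2 * T) / Real.log (T - 1 / 2) *
      (Pool.Agent.N278.PV.C1 ^ 2 * Real.exp (|b| * Real.log (2 * T))) := ⟨_, rfl⟩
  have hHb : ∀ S t, T - 1 / 2 ≤ S → S ≤ 2 * T - 1 / 2 → 1 ≤ t → t ≤ b →
      ‖H S t‖ ≤ C * |b - 1| := by
    intro S t h1 h2 h3 h4
    rw [← hHe S t h3]
    have h5 : ∀ α ∈ Set.uIoc 1 t, ‖ft S α‖ ≤ C := by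
      intro α hα
      rw [Set.uIoc_of_le h3] at hα
      rw [Real.norm_eq_abs, hC]
      exact ft_bd hT2 h1 h2 (hα.2.trans h4)
    have h6 := intervalIntegral.norm_integral_le_of_norm_le_const h5
    have hC0 : 0 ≤ C := by
      rw [hC]
      have h7 : 0 < Real.log (T - 1 / 2) := Real.log_pos (by linarith)
      positivity
    refine h6.trans (mul_le_mul_of_nonneg_left ?_ hC0)
    rw [abs_of_nonneg (by linarith), abs_of_nonneg (by linarith)]
    linarith
  have hint : Integrable (Function.uncurry H) (μ.prod ν) := by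
    have hfin : IsFiniteMeasure (μ.prod ν) := by
      rw [hμ, hν]
      infer_instance
    refine Integrable.of_bound hHm.aestronglyMeasurable (C * |b - 1|) ?_
    rw [hμ, hν, Measure.prod_restrict]
    refine (ae_restrict_iff' (measurableSet_Ioc.prod measurableSet_Ioc)).2
      (Eventually.of_forall fun p hp => ?_)
    exact hHb p.1 p.2 hp.1.1.le hp.1.2 hp.2.1.le hp.2.2
  have hswap := integral_integral_swap (f := H) hint
  -- the left side
  have e1 : ∫ t in (1 : ℝ)..b, ((∫ α in (1 : ℝ)..t, fA T α) - (t - 1)) =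
      ∫ t, (1 / T * (∫ S, H S t ∂μ) - (t - 1)) ∂ν := by
    rw [intervalIntegral.integral_of_le hb.le]
    refine setIntegral_congr_fun measurableSet_Ioc fun t ht => ?_
    show (∫ α in (1 : ℝ)..t, fA T α) - (t - 1) = _
    rw [(hfub 1 t (by norm_num) ht.1.le).2]
    unfold AV
    rw [intervalIntegral.integral_of_le hle]
    congr 2
    refine setIntegral_congr_fun measurableSet_Ioc fun S hS => ?_
    exact hGH S t (by linarith [hS.1]) ht.1.le
  have i1 : Integrable (fun t : ℝ => t - 1) ν := by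
    rw [hν, ← IntegrableOn, ← intervalIntegrable_iff_integrableOn_Ioc_of_le hb.le]
    apply Continuous.intervalIntegrable
    fun_prop
  have i2 : Integrable (fun t => 1 / T * ∫ S, H S t ∂μ) ν := hint.integral_prod_right.const_mul _
  have i3 : Integrable (fun S => ∫ t, H S t ∂ν) μ := hint.integral_prod_left
  rw [e1, integral_sub i2 i1, integral_const_mul, ← hswap]
  obtain ⟨c0, hc0⟩ : ∃ c0 : ℝ, c0 = ∫ t, (t - 1) ∂ν := ⟨_, rfl⟩
  rw [← hc0]
  -- the lower bound for every `S`
  have hS : ∀ S ∈ Set.Ioc (T - 1 / 2) (2 * T - 1 / 2), -(1 / 6) - ε + c0 ≤ ∫ t, H S t ∂ν := by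
    intro S hS
    have h1 := hT0 S (by linarith [hS.1])
    have hS1 : 1 < S := by linarith [hS.1]
    have i4 : Integrable (fun t => H S t) ν := by
      have h2 : Continuous fun t => ∫ α in (1 : ℝ)..t, ft S α :=
        intervalIntegral.continuous_primitive (fun a b => H479.V.ft_ii hS1 a b) 1
      have h3 : IntegrableOn (fun t => ∫ α in (1 : ℝ)..t, ft S α) (Set.Ioc 1 b) := by
        rw [← intervalIntegrable_iff_integrableOn_Ioc_of_le hb.le]
        exact h2.intervalIntegrable _ _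
      refine Integrable.congr h3 ?_
      refine (ae_restrict_iff' measurableSet_Ioc).2 (Eventually.of_forall fun t ht => ?_)
      exact hHe S t ht.1.le
    have e2 : ∫ t in (1 : ℝ)..b, ((∫ α in (1 : ℝ)..t, ft S α) - (t - 1)) =
        ∫ t, (H S t - (t - 1)) ∂ν := by
      rw [intervalIntegral.integral_of_le hb.le]
      refine setIntegral_congr_fun measurableSet_Ioc fun t ht => ?_
      show (∫ α in (1 : ℝ)..t, ft S α) - (t - 1) = _
      rw [hHe S t ht.1.le]
    rw [e2, integral_sub i4 i1, ← hc0] at h1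
    linarith
  have h2 : ∫ _S, (-(1 / 6) - ε + c0) ∂μ ≤ ∫ S, ∫ t, H S t ∂ν ∂μ := by
    refine integral_mono_ae (integrable_const _) i3 ?_
    refine (ae_restrict_iff' measurableSet_Ioc).2 (Eventually.of_forall fun S hS' => ?_)
    exact hS S hS'
  have h3 : ∫ _S, (-(1 / 6) - ε + c0) ∂μ = T * (-(1 / 6) - ε + c0) := by
    rw [integral_const, smul_eq_mul]
    congr 1
    rw [hμ, measureReal_restrict_apply_univ, Real.volume_real_Ioc_of_le hle]
    ring
  rw [h3] at h2
  have h4 : 1 / T * (T * (-(1 / 6) - ε + c0)) ≤ 1 / T * ∫ S, ∫ t, H S t ∂ν ∂μ :=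
    mul_le_mul_of_nonneg_left h2 (by positivity)
  have h5 : 1 / T * (T * (-(1 / 6) - ε + c0)) = -(1 / 6) - ε + c0 := by
    field_simp
  rw [h5] at h4
  linarith

end H479.X
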