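import Pool.Agent.H479.X.Stm
import Pool.Agent.H479.V.Gvf
import Pool.Graph.R_pool_sql_team_seeded_63374d34.N415.PV_7

/-! # the variance for x ≤ T is bounded (proved by helper337) -/


set_option autoImplicit false

open MeasureTheory Filter Topology

namespace H479.X

open H479.V (ft EW RP S_EFL S_DG S_APP)
open Pool.Agent.N804 (SC CT)
open Pool.Agent.N804.PV (GV ph DT)

namespace BD0h

open Pool.Agent.N415.PV7

/-- the mean square of `DT` over `0 ≤ y ≤ log T` -/
theorem dt_int {T : ℝ} (hT : 2 ≤ T) :
    ∫ y in (0 : ℝ)..(Real.log T), DT T y ^ 2 ≤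
      2 * Real.log (T + 1) * ((Real.log 4 + 4) * (Real.log T + 2) / T) + Real.log T * (2 / T) := by
  have hT0 : 0 < T := by linarith
  have hL0 : 0 ≤ Real.log T := Real.log_nonneg (by linarith)
  obtain ⟨i1, i2⟩ := first_moment (T := T) (by linarith) hL0
  have hlog0 : 0 ≤ Real.log (T + 1) := Real.log_nonneg (by linarith)
  have hmain : ∫ y in (0 : ℝ)..(Real.log T), DT T y ^ 2 ≤
      ∫ y in (0 : ℝ)..(Real.log T), (2 * Real.log (T + 1) * (Real.exp (-y) *
        (Chebyshev.psi (Real.exp y * (1 + 1 / T)) - Chebyshev.psi (Real.exp y))) + 2 / T) := by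
    have hgi : IntervalIntegrable (fun y => 2 * Real.log (T + 1) * (Real.exp (-y) *
        (Chebyshev.psi (Real.exp y * (1 + 1 / T)) - Chebyshev.psi (Real.exp y))) + 2 / T)
        volume 0 (Real.log T) := (i1.const_mul _).add intervalIntegrable_const
    rw [intervalIntegral.integral_of_le hL0, intervalIntegral.integral_of_le hL0]
    refine integral_mono_of_nonneg (Eventually.of_forall fun y => sq_nonneg _)
      ((intervalIntegrable_iff_integrableOn_Ioc_of_le hL0).1 hgi) ?_
    refine (ae_restrict_mem measurableSet_Ioc).mono fun y hy => ?_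
    exact DT_sq_le hT hy.2
  rw [intervalIntegral.integral_add (i1.const_mul _) intervalIntegrable_const,
    intervalIntegral.integral_const_mul, intervalIntegral.integral_const, smul_eq_mul, sub_zero] at hmain
  rw [sub_zero] at i2
  refine hmain.trans ?_
  have h := mul_le_mul_of_nonneg_left i2 (by positivity : 0 ≤ 2 * Real.log (T + 1))
  linarith

end BD0h

theorem bd0 : S_BD0 := by
  have hc : 0 < Real.log 4 + 4 := by
    have := Real.log_nonneg (show (1 : ℝ) ≤ 4 by norm_num)
    linarith
  refine ⟨12 * (Real.log 4 + 4) + 2, Real.exp 1, fun T hTe => ?_⟩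
  have he : (2 : ℝ) ≤ Real.exp 1 := by
    have := Real.add_one_le_exp (1 : ℝ)
    linarith
  have hT : 2 ≤ T := he.trans hTe
  have hT0 : 0 < T := by linarith
  have hL1 : 1 ≤ Real.log T := by
    rw [← Real.log_exp 1]
    exact Real.log_le_log (Real.exp_pos 1) hTe
  have hlog2 : Real.log (T + 1) ≤ 2 * Real.log T := by
    have h1 : T + 1 ≤ T ^ 2 := by nlinarith
    calc Real.log (T + 1) ≤ Real.log (T ^ 2) := Real.log_le_log (by linarith) h1
      _ = 2 * Real.log T := by rw [Real.log_pow]; push_cast; rfl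
  have hlog0 : 0 ≤ Real.log (T + 1) := Real.log_nonneg (by linarith)
  rw [H479.V.gvf T 0 1 (by linarith) le_rfl zero_le_one]
  unfold ft
  rw [intervalIntegral.integral_const_mul,
    intervalIntegral.integral_comp_mul_right (fun y => DT T y ^ 2) (by linarith : Real.log T ≠ 0)]
  rw [zero_mul, one_mul, smul_eq_mul]
  have h := BD0h.dt_int hT
  set L := Real.log T with hL
  set c := Real.log 4 + 4 with hcd
  have hL0 : 0 < L := by linarith
  have h5 : ∫ y in (0 : ℝ)..L, DT T y ^ 2 ≤ 2 * (2 * L) * (c * (L + 2) / T) + L * (2 / T) := by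
    refine h.trans ?_
    have h7 : 0 ≤ c * (L + 2) / T := by positivity
    gcongr
  calc T / L * (L⁻¹ * ∫ y in (0 : ℝ)..L, DT T y ^ 2)
      ≤ T / L * (L⁻¹ * (2 * (2 * L) * (c * (L + 2) / T) + L * (2 / T))) := by gcongr
    _ = 4 * c * (L + 2) / L + 2 / L := by
        field_simp
        ring
    _ ≤ 4 * c * (L + 2 * L) / L + 2 / 1 := by
        gcongr
        linarith
    _ = 12 * c + 2 := by
        field_simp
        ring

end H479.X
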