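import Pool.Agent.H479.X.Stm
import Pool.Agent.H479.V.Low
import Pool.Agent.H479.V.Gvf

/-! # the variance for T ≤ x ≤ T^b is bounded (proved by helper734) -/


open MeasureTheory Filter Topology

namespace H479.X

open H479.V (ft EW RP S_EFL S_DG S_APP)
open Pool.Agent.N804 (SC CT)
open Pool.Agent.N804.PV (GV ph DT)

namespace BD1

open H479.V (rtl rtl_pos rtl_neg rtl_zero rtl_sc rtl_CT low_ft_nonneg low_ft_ii low_ft_mul)
open H479.P (exists_chi)
open Pool.Agent.Y744 TH803TW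

lemma cs_of_TK {k : ℝ} {χ : ℝ → ℝ} (h : TK k χ) : HasCompactSupport χ := by
  refine HasCompactSupport.intro (isCompact_Icc : IsCompact (Set.Icc (-k) k)) fun x hx => ?_
  apply h.supp
  rw [Set.mem_Icc, not_and_or, not_le, not_le] at hx
  rcases hx with hx | hx
  · rw [lt_abs]
    right
    linarith
  · rw [lt_abs]
    left
    exact hx

/-- the lower bound for the integral of the right half -/
lemma lower {w : ℝ → ℝ} (hw : EW w) (hw0 : ∀ x, 0 ≤ w x) {b : ℝ} (hb : 1 < b)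
    (h0 : ∀ x, |x| ≤ 3 / 4 → w x = 0) (hs : ∀ x, b + 1 < |x| → w x = 0)
    (h1 : ∀ x, 1 ≤ x → x ≤ b → w x = 1) {T : ℝ} (hT : 1 ≤ T) :
    2 * (∫ α in (1 : ℝ)..b, ft T α) ≤ ∫ α, rtl w α * ft T α := by
  obtain ⟨r, hr⟩ : ∃ r : ℝ → ℝ, r = rtl w := ⟨_, rfl⟩
  rw [← hr]
  have hrc : Continuous r := by
    rw [hr]
    exact (rtl_sc hw.sc (by norm_num : (0 : ℝ) < 3 / 4) h0).sm.continuous
  have hr0 : ∀ x, x ≤ 0 → r x = 0 := fun x hx => by
    rw [hr]
    exact rtl_neg hx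
  have hrs : ∀ x, b + 1 < x → r x = 0 := fun x hx => by
    rw [hr, rtl_pos (by linarith)]
    rw [hs x (by rw [abs_of_pos (by linarith)]; exact hx)]
    ring
  have hrn : ∀ x, 0 ≤ r x := fun x => by
    rcases le_or_gt x 0 with h | h
    · rw [hr0 x h]
    · rw [hr, rtl_pos h]
      have := hw0 x
      linarith
  have hr2 : ∀ x, 1 ≤ x → x ≤ b → r x = 2 := fun x hx hx' => by
    rw [hr, rtl_pos (by linarith), h1 x hx hx']
    ring
  have hw1 : ∫ α, r α * ft T α = ∫ α in (0 : ℝ)..(b + 1), r α * ft T α := by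
    rw [intervalIntegral.integral_of_le (by linarith)]
    symm
    refine setIntegral_eq_integral_of_forall_compl_eq_zero fun x hx => ?_
    rw [Set.mem_Ioc, not_and_or, not_lt, not_le] at hx
    rcases hx with hx | hx
    · rw [hr0 x hx, zero_mul]
    · rw [hrs x hx, zero_mul]
  have hft := fun α => low_ft_nonneg hT α
  have i1 := low_ft_mul hT (show (0 : ℝ) ≤ 1 by norm_num) hrc
  have i2 := low_ft_mul hT (show (1 : ℝ) ≤ b by linarith) hrc
  have i3 := low_ft_mul hT (show b ≤ b + 1 by linarith) hrc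
  rw [hw1, ← intervalIntegral.integral_add_adjacent_intervals (i1.trans i2) i3,
    ← intervalIntegral.integral_add_adjacent_intervals i1 i2]
  have n1 : 0 ≤ ∫ α in (0 : ℝ)..1, r α * ft T α :=
    intervalIntegral.integral_nonneg (by norm_num) fun x _ => mul_nonneg (hrn x) (hft x)
  have n3 : 0 ≤ ∫ α in b..(b + 1), r α * ft T α :=
    intervalIntegral.integral_nonneg (by linarith) fun x _ => mul_nonneg (hrn x) (hft x)
  have e2 : ∫ α in (1 : ℝ)..b, r α * ft T α = 2 * ∫ α in (1 : ℝ)..b, ft T α := by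
    rw [← intervalIntegral.integral_const_mul]
    apply intervalIntegral.integral_congr
    intro α hα
    rw [Set.uIcc_of_le hb.le] at hα
    simp only
    rw [hr2 α hα.1 hα.2]
  rw [e2]
  linarith

end BD1

open BD1 in
theorem bd1 : S_BD1 := by
  intro RH hE hB b hb
  obtain ⟨χ₁, hχ, hχ1, hχ0, hχle⟩ := H479.P.exists_chi (lam := b) (kap := b + 1)
    (by linarith) (by linarith)
  obtain ⟨χ₂, hξ, hξ1, hξ0, hξle⟩ := H479.P.exists_chi (lam := 3 / 4) (kap := 7 / 8)
    (by norm_num) (by norm_num)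
  have s1 : ContDiff ℝ (⊤ : ℕ∞) χ₁ := hχ.smooth
  have s2 : ContDiff ℝ (⊤ : ℕ∞) χ₂ := hξ.smooth
  obtain ⟨w, hwd⟩ : ∃ w : ℝ → ℝ, w = fun x => χ₁ x * (1 - χ₂ x) := ⟨_, rfl⟩
  have hwx : ∀ x, w x = χ₁ x * (1 - χ₂ x) := fun x => by rw [hwd]
  have hw : EW w := by
    refine ⟨⟨?_, ?_⟩, fun x => ?_⟩
    · rw [hwd]
      exact s1.mul (contDiff_const.sub s2)
    · rw [hwd]
      exact (cs_of_TK hχ).mul_right
    · rw [hwx, hwx, hχ.even, hξ.even]
  have hw0 : ∀ x, 0 ≤ w x := fun x => by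
    rw [hwx]
    exact mul_nonneg (hχ0 x) (by linarith [hξle x])
  have h0 : ∀ x, |x| ≤ 3 / 4 → w x = 0 := fun x hx => by
    rw [hwx, hξ1 x hx]
    ring
  have hs : ∀ x, b + 1 < |x| → w x = 0 := fun x hx => by
    rw [hwx, hχ.supp x hx]
    ring
  have h1 : ∀ x, 1 ≤ x → x ≤ b → w x = 1 := fun x hx hx' => by
    have ha : |x| = x := abs_of_pos (by linarith)
    rw [hwx, hχ1 x (by rw [ha]; exact hx'), hξ.supp x (by rw [ha]; linarith)]
    ring
  obtain ⟨C, T0, hC⟩ := hB RH w hw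
  have he := hE RH _ (H479.V.rtl_sc hw.sc (by norm_num : (0 : ℝ) < 3 / 4) h0)
    (fun x hx => H479.V.rtl_zero h0 (by linarith))
  have hRP : ∀ T, RP (H479.V.rtl w) T = RP w T := by
    intro T
    unfold RP
    simp only [H479.V.rtl_CT hw (by norm_num : (0 : ℝ) < 3 / 4) h0]
  obtain ⟨T1, hT1⟩ := eventually_atTop.1 (he.eventually_lt_const (show (0 : ℝ) < 1 by norm_num))
  refine ⟨(C + 1) / 2, max T0 (max T1 1), fun T hT => ?_⟩
  have hTa : T0 ≤ T := (le_max_left _ _).trans hT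
  have hTb : T1 ≤ T := ((le_max_left _ _).trans (le_max_right _ _)).trans hT
  have hTc : 1 ≤ T := ((le_max_right _ _).trans (le_max_right _ _)).trans hT
  have k1 := hT1 T hTb
  have k2 := hC T hTa
  have k3 := lower hw hw0 hb h0 hs h1 hTc
  rw [hRP] at k1
  have k4 := le_abs_self (RP w T)
  linarith

end H479.X
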