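import Pool.Agent.H479.X.Stm
import Pool.Agent.H479.V.Ta
import Pool.Agent.H479.V.Gvf

/-! # The pair functional is bounded; assembly of the bound for the variance -/

open MeasureTheory Filter Topology

namespace H479.X

open H479.V
open H479.P
open H479.U hiding mz_nonneg
open Pool.Agent.Y744 TH803TW
open Pool.Agent.N804 (SC CT)
open Pool.Agent.N804.PV (DT GV ph aT S_ABEL S_ABELB S_TAU)

theorem bdr : S_BDR := by
  intro RH w hw
  obtain ⟨D, hD, hd⟩ := ew_decay hw
  obtain ⟨B, T0, hB, hT0, hb⟩ := Bbound RH hD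
  obtain ⟨C, hC, hCb⟩ := Pool.Agent.N482.PV.abelb
  refine ⟨C * B * (1 + 1), T0, fun T hT => ?_⟩
  have hT20 : 20 ≤ T := hT0.trans hT
  have hT1 : 1 < T := by linarith
  have hT00 : 0 < T := by linarith
  have h1 := (hCb (ℂ × ℂ) (AP T) (pp T) (cw (fun y => D / (1 + y ^ 2)) T) B hB
    (fun q hq => ⟨pp_pos hT00 hq, TAx.cw_nonneg (fun y => by positivity) hT1 q⟩) (hb T hT) 1
    one_pos).1
  refine le_trans ?_ h1
  have e : RP w T = ∑ q ∈ AP T, ph (pp T q / 1) * cw (CT w) T q := by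
    unfold RP AP
    rw [Finset.sum_product]
    refine Finset.sum_congr rfl fun s _ => Finset.sum_congr rfl fun s' _ => ?_
    unfold cw pp
    simp only [div_one]
    ring
  rw [e]
  refine (Finset.abs_sum_le_sum_abs _ _).trans (Finset.sum_le_sum fun q _ => ?_)
  rw [abs_mul, abs_of_nonneg (TAx.ph_nn _)]
  exact mul_le_mul_of_nonneg_left (TAx.cw_abs (TAx.decay1 hD hd) hT1 q) (TAx.ph_nn _)

end H479.X
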