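import Pool.Agent.H479.X.Stm

/-! # from dyadic averages to short averages (proved by helper354) -/


set_option linter.all false

open MeasureTheory Filter Topology

namespace H479.X

open H479.V (ft EW RP S_EFL S_DG S_APP)
open Pool.Agent.N804 (SC CT)
open Pool.Agent.N804.PV (GV ph DT)

namespace CES354

variable {g : ℝ → ℝ} {c C T0 : ℝ}

lemma int_bd (hg : ∀ T, T0 ≤ T → 0 ≤ g T ∧ g T ≤ C)
    (hi : ∀ R R' : ℝ, T0 ≤ R → R ≤ R' → IntervalIntegrable g volume R R') {R R' : ℝ}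
    (hR : T0 ≤ R) (hR' : R ≤ R') : 0 ≤ (∫ S in R..R', g S) ∧ (∫ S in R..R', g S) ≤ C * (R' - R) := by
  constructor
  · exact intervalIntegral.integral_nonneg hR' fun x hx => (hg x (hR.trans hx.1)).1
  · have h1 := intervalIntegral.integral_mono_on hR' (hi R R' hR hR')
      (intervalIntegrable_const (c := C)) (fun x hx => (hg x (hR.trans hx.1)).2)
    rw [intervalIntegral.integral_const, smul_eq_mul] at h1
    linarith

lemma stepA (hT0 : 1 < T0) (hg : ∀ T, T0 ≤ T → 0 ≤ g T ∧ g T ≤ C)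
    (hi : ∀ R R' : ℝ, T0 ≤ R → R ≤ R' → IntervalIntegrable g volume R R')
    (hA : Tendsto (fun T => AV T g) atTop (𝓝 c)) {δ : ℝ} (hδ : 0 < δ) :
    ∃ R0, T0 ≤ R0 ∧ ∀ R, R0 ≤ R → |(∫ S in R..(2 * R), g S) - c * R| ≤ δ * R := by
  have h1 := (Metric.tendsto_nhds.1 hA) (δ / 2) (by linarith)
  obtain ⟨N, hN⟩ := eventually_atTop.1 h1
  refine ⟨max T0 (max N (1 / 2 + (|c| + |C|) / δ)), le_max_left _ _, fun R hR => ?_⟩
  have hR1 : T0 ≤ R := (le_max_left _ _).trans hR
  have hR2 : N ≤ R := ((le_max_left _ _).trans (le_max_right _ _)).trans hR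
  have hR3 : 1 / 2 + (|c| + |C|) / δ ≤ R := ((le_max_right _ _).trans (le_max_right _ _)).trans hR
  have h2 := hN (R + 1 / 2) (by linarith)
  rw [Real.dist_eq] at h2
  unfold AV at h2
  have e1 : R + 1 / 2 - 1 / 2 = R := by ring
  have e2 : 2 * (R + 1 / 2) - 1 / 2 = 2 * R + 1 / 2 := by ring
  rw [e1, e2] at h2
  have hTp : 0 < R + 1 / 2 := by linarith
  have h3 : |(∫ S in R..(2 * R + 1 / 2), g S) - c * (R + 1 / 2)| ≤ δ / 2 * (R + 1 / 2) := by
    have e3 : (∫ S in R..(2 * R + 1 / 2), g S) - c * (R + 1 / 2) =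
        (1 / (R + 1 / 2) * (∫ S in R..(2 * R + 1 / 2), g S) - c) * (R + 1 / 2) := by
      generalize (∫ S in R..(2 * R + 1 / 2), g S) = I
      have h0 : R + 1 / 2 ≠ 0 := hTp.ne'
      generalize R + 1 / 2 = w at h0
      field_simp
    rw [e3, abs_mul, abs_of_pos hTp]
    exact mul_le_mul_of_nonneg_right h2.le hTp.le
  have e4 := intervalIntegral.integral_add_adjacent_intervals (hi R (2 * R) hR1 (by linarith))
    (hi (2 * R) (2 * R + 1 / 2) (by linarith) (by linarith))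
  obtain ⟨h5, h6⟩ := int_bd hg hi (R := 2 * R) (R' := 2 * R + 1 / 2) (by linarith) (by linarith)
  rw [← e4] at h3
  have h7 : (|c| + |C|) / δ * δ = |c| + |C| := by field_simp
  have h8 : (|c| + |C|) + δ / 2 ≤ δ * R := by
    have := mul_le_mul_of_nonneg_left hR3 hδ.le
    nlinarith
  have h9 := le_abs_self C
  have h10 := abs_le.1 h3
  have h11 := abs_le.1 (le_refl |c|)
  rw [abs_le]
  constructor <;> nlinarith [h10.1, h10.2, h11.1, h11.2]

lemma stepB (hT0 : 1 < T0) (hg : ∀ T, T0 ≤ T → 0 ≤ g T ∧ g T ≤ C)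
    (hi : ∀ R R' : ℝ, T0 ≤ R → R ≤ R' → IntervalIntegrable g volume R R') {δ R0 : ℝ}
    (hδ : 0 < δ) (hR0 : T0 ≤ R0)
    (h : ∀ R, R0 ≤ R → |(∫ S in R..(2 * R), g S) - c * R| ≤ δ * R) (n : ℕ) :
    ∀ R, R0 ≤ R → R ≤ 2 ^ (n + 1) * R0 → |(∫ S in T0..R, g S) - c * R| ≤
      ((∫ S in T0..(2 * R0), g S) + |c| * (2 * R0)) + δ * R := by
  have base : ∀ R, R0 ≤ R → R ≤ 2 * R0 → |(∫ S in T0..R, g S) - c * R| ≤
      ((∫ S in T0..(2 * R0), g S) + |c| * (2 * R0)) + δ * R := by
    intro R h1 h2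
    have e := intervalIntegral.integral_add_adjacent_intervals (hi T0 R le_rfl (by linarith))
      (hi R (2 * R0) (by linarith) h2)
    obtain ⟨h3, -⟩ := int_bd hg hi (R := R) (R' := 2 * R0) (by linarith) h2
    obtain ⟨h4, -⟩ := int_bd hg hi (R := T0) (R' := R) le_rfl (by linarith)
    have h5 : |c * R| ≤ |c| * (2 * R0) := by
      rw [abs_mul, abs_of_pos (by linarith : 0 < R)]
      exact mul_le_mul_of_nonneg_left h2 (abs_nonneg c)
    have h6 := abs_le.1 h5
    have h7 : 0 ≤ δ * R := mul_nonneg hδ.le (by linarith)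
    rw [abs_le]
    constructor <;> linarith [h6.1, h6.2]
  induction n with
  | zero =>
    intro R h1 h2
    exact base R h1 (by simpa using h2)
  | succ n ih =>
    intro R h1 h2
    by_cases h3 : R ≤ 2 * R0
    · exact base R h1 h3
    · push Not at h3
      have h4 := ih (R / 2) (by linarith) (by rw [pow_succ] at h2; linarith)
      have h5 := h (R / 2) (by linarith)
      have e1 : 2 * (R / 2) = R := by ring
      rw [e1] at h5
      have e := intervalIntegral.integral_add_adjacent_intervals (hi T0 (R / 2) le_rfl (by linarith))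
        (hi (R / 2) R (by linarith) (by linarith))
      rw [← e]
      have h6 := abs_le.1 h4
      have h7 := abs_le.1 h5
      rw [abs_le]
      constructor <;> linarith [h6.1, h6.2, h7.1, h7.2]

lemma stepC (hT0 : 1 < T0) (hg : ∀ T, T0 ≤ T → 0 ≤ g T ∧ g T ≤ C)
    (hi : ∀ R R' : ℝ, T0 ≤ R → R ≤ R' → IntervalIntegrable g volume R R')
    (hA : Tendsto (fun T => AV T g) atTop (𝓝 c)) {ε : ℝ} (hε : 0 < ε) :
    ∃ R1, T0 ≤ R1 ∧ ∀ R, R1 ≤ R → |(∫ S in T0..R, g S) - c * R| ≤ ε * R := by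
  obtain ⟨R0, hR0, h⟩ := stepA hT0 hg hi hA (half_pos hε)
  set K := (∫ S in T0..(2 * R0), g S) + |c| * (2 * R0) with hK
  refine ⟨max R0 (2 * K / ε), hR0.trans (le_max_left _ _), fun R hR => ?_⟩
  have h1 : R0 ≤ R := (le_max_left _ _).trans hR
  have h2 : 2 * K / ε ≤ R := (le_max_right _ _).trans hR
  have hR0' : 0 < R0 := by linarith
  obtain ⟨n, hn⟩ := pow_unbounded_of_one_lt (R / R0) (one_lt_two : (1 : ℝ) < 2)
  have h3 : R ≤ 2 ^ (n + 1) * R0 := by
    rw [div_lt_iff₀ hR0'] at hn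
    rw [pow_succ]
    nlinarith
  have h4 := stepB hT0 hg hi (half_pos hε) hR0 h n R h1 h3
  rw [div_le_iff₀ hε] at h2
  rw [← hK] at h4
  linarith

end CES354

theorem ces : S_CES := by
  intro g c C T0 hT0 hg hi hA η hη hη1
  rw [Metric.tendsto_nhds]
  intro ε hε
  obtain ⟨R1, hR1, h⟩ := CES354.stepC hT0 hg hi hA (ε := ε * η / 3) (by positivity)
  filter_upwards [eventually_ge_atTop (R1 / (1 - η))] with R hR
  have h1η : 0 < 1 - η := by linarith
  rw [div_le_iff₀ h1η] at hR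
  have hR0 : 0 < R := by
    by_contra hcon
    push Not at hcon
    nlinarith
  have hR2 : (1 - η) * R ≤ R := by nlinarith
  have h1 := h R (by linarith)
  have h2 := h ((1 - η) * R) (by linarith)
  have e := intervalIntegral.integral_add_adjacent_intervals
    (hi T0 ((1 - η) * R) le_rfl (by linarith)) (hi ((1 - η) * R) R (by linarith) hR2)
  rw [Real.dist_eq]
  have e1 : R - (1 - η) * R = η * R := by ring
  rw [e1]
  have hp : 0 < η * R := by positivity
  have e2 : 1 / (η * R) * (∫ S in ((1 - η) * R)..R, g S) - c =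
      ((∫ S in ((1 - η) * R)..R, g S) - c * (η * R)) / (η * R) := by
    field_simp
  rw [e2, abs_div, abs_of_pos hp, div_lt_iff₀ hp]
  have h3 : |(∫ S in ((1 - η) * R)..R, g S) - c * (η * R)| ≤ 2 * (ε * η / 3 * R) := by
    have h4 := abs_le.1 h1
    have h5 := abs_le.1 h2
    have h6 : ε * η / 3 * ((1 - η) * R) ≤ ε * η / 3 * R :=
      mul_le_mul_of_nonneg_left hR2 (by positivity)
    rw [abs_le]
    constructor <;> nlinarith [h4.1, h4.2, h5.1, h5.2]
  refine h3.trans_lt ?_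
  have h7 : 0 < ε * η * R := by positivity
  nlinarith

end H479.X
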