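import Pool.Agent.H479.X.Stm

/-! # change of variables in the double integral (proved by helper127) -/


open MeasureTheory Filter Topology

namespace H479.X

/-! ### auxiliary lemmas -/
namespace CHG

/-- the error for the primes in `(y, y + h]` -/
noncomputable def DD (y h : ℝ) : ℝ := Chebyshev.psi (y + h) - Chebyshev.psi y - h

lemma psiC_eq {y h : ℝ} (hy : 0 < y) (hh : 0 ≤ h) (hn : ∀ n : ℕ, (n : ℝ) ≠ y) :
    psiC (y + h / 2) h = Chebyshev.psi (y + h) - Chebyshev.psi y := by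
  unfold psiC Chebyshev.psi
  have e1 : y + h / 2 - h / 2 = y := by ring
  have e2 : y + h / 2 + h / 2 = y + h := by ring
  rw [e1, e2]
  have e3 : ⌈y⌉₊ = ⌊y⌋₊ + 1 := by
    rw [Nat.ceil_eq_iff (Nat.succ_ne_zero _)]
    constructor
    · show ((⌊y⌋₊ + 1 - 1 : ℕ) : ℝ) < y
      rw [Nat.add_sub_cancel]
      exact lt_of_le_of_ne (Nat.floor_le hy.le) (hn _)
    · push_cast
      exact (Nat.lt_floor_add_one y).le
  have e4 : ⌊y⌋₊ ≤ ⌊y + h⌋₊ := Nat.floor_le_floor (by linarith)
  rw [e3, eq_sub_iff_add_eq, add_comm]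
  have e5 : Finset.Icc (⌊y⌋₊ + 1) ⌊y + h⌋₊ = Finset.Ioc ⌊y⌋₊ ⌊y + h⌋₊ := by
    ext n
    simp only [Finset.mem_Icc, Finset.mem_Ioc]
    omega
  rw [e5, Finset.sum_Ioc_consecutive _ (Nat.zero_le _) e4]

lemma meas_psi : Measurable Chebyshev.psi := Chebyshev.psi_mono.measurable

lemma ms_eq {X T : ℝ} (hX : 0 < X) (hT : 2 ≤ T) :
    V X (X / T) = 1 / T * ∫ S in (T - 1 / 2)..(2 * T - 1 / 2), DD (S * (X / T)) (X / T) ^ 2 := by
  have hT0 : 0 < T := by linarith
  have hH : 0 < X / T := by positivity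
  set H : ℝ := X / T with hHd
  have hXT : X = H * T := by rw [hHd]; field_simp
  have h1 : ∫ x in X..(2 * X), (psiC x H - H) ^ 2 =
      ∫ y in (X - H / 2)..(2 * X - H / 2), (psiC (y + H / 2) H - H) ^ 2 := by
    have := intervalIntegral.integral_comp_add_right (a := X - H / 2) (b := 2 * X - H / 2)
      (fun x => (psiC x H - H) ^ 2) (H / 2)
    rw [this]
    congr 1 <;> ring
  have h2 : ∫ y in (X - H / 2)..(2 * X - H / 2), (psiC (y + H / 2) H - H) ^ 2 =
      ∫ y in (X - H / 2)..(2 * X - H / 2), DD y H ^ 2 := by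
    apply intervalIntegral.integral_congr_ae
    have hc : (Set.range (fun n : ℕ => (n : ℝ))).Countable := Set.countable_range _
    filter_upwards [hc.ae_notMem volume] with y hy hy2
    rw [Set.uIoc_of_le (by linarith)] at hy2
    have hy0 : 0 < y := by
      refine lt_trans ?_ hy2.1
      rw [hXT]
      nlinarith
    rw [psiC_eq hy0 hH.le (fun n h => hy ⟨n, h⟩)]
    rfl
  have h3 : ∫ y in (X - H / 2)..(2 * X - H / 2), DD y H ^ 2 =
      H * ∫ S in (T - 1 / 2)..(2 * T - 1 / 2), DD (S * H) H ^ 2 := by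
    have := intervalIntegral.smul_integral_comp_mul_right (a := T - 1 / 2) (b := 2 * T - 1 / 2)
      (fun y => DD y H ^ 2) H
    rw [smul_eq_mul] at this
    rw [this]
    congr 1 <;> rw [hXT] <;> ring
  unfold V
  rw [h1, h2, h3, ← mul_assoc]
  congr 1
  rw [hXT]
  field_simp

lemma W_eq {T u v : ℝ} (hT : 2 ≤ T) (huv : u ≤ v) :
    W T u v = 1 / Real.log T ^ 2 * ∫ X in (T ^ u)..(T ^ v),
      ∫ S in (T - 1 / 2)..(2 * T - 1 / 2), DD (S * (X / T)) (X / T) ^ 2 / X ^ 2 := by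
  have hT0 : 0 < T := by linarith
  have hL : 0 < Real.log T := Real.log_pos (by linarith)
  unfold W
  have h1 : ∀ X ∈ Set.uIcc (T ^ u) (T ^ v), V X (X / T) / (X / T * Real.log T) / X =
      1 / Real.log T * ∫ S in (T - 1 / 2)..(2 * T - 1 / 2),
        DD (S * (X / T)) (X / T) ^ 2 / X ^ 2 := by
    intro X hX
    rw [Set.uIcc_of_le (Real.rpow_le_rpow_of_exponent_le (by linarith) huv)] at hX
    have hX0 : 0 < X := (Real.rpow_pos_of_pos hT0 u).trans_le hX.1
    rw [ms_eq hX0 hT, intervalIntegral.integral_div]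
    generalize ∫ S in (T - 1 / 2)..(2 * T - 1 / 2), DD (S * (X / T)) (X / T) ^ 2 = I
    field_simp
  rw [intervalIntegral.integral_congr h1, intervalIntegral.integral_const_mul]
  ring

lemma J_eq {T u v S : ℝ} (hT : 2 ≤ T) (hS : 0 < S) :
    ∫ x in (T ^ (u - 1) * S)..(T ^ (v - 1) * S),
      (Chebyshev.psi (x + x / S) - Chebyshev.psi x - x / S) ^ 2 / x ^ 2 =
    T / S * ∫ X in (T ^ u)..(T ^ v), DD (S * (X / T)) (X / T) ^ 2 / X ^ 2 := by
  have hT0 : 0 < T := by linarith
  have h1 := intervalIntegral.smul_integral_comp_mul_right (a := T ^ u) (b := T ^ v)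
    (fun x => (Chebyshev.psi (x + x / S) - Chebyshev.psi x - x / S) ^ 2 / x ^ 2) (S / T)
  have h2 : ∀ w : ℝ, T ^ w * (S / T) = T ^ (w - 1) * S := by
    intro w
    rw [Real.rpow_sub_one hT0.ne']
    ring
  rw [h2, h2, smul_eq_mul] at h1
  rw [← h1, ← intervalIntegral.integral_const_mul, ← intervalIntegral.integral_const_mul]
  congr 1
  funext X
  have h3 : X * (S / T) = S * (X / T) := by ring
  have h4 : X * (S / T) / S = X / T := by field_simp
  rw [h4, h3]
  unfold DD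
  rcases eq_or_ne X 0 with rfl | hX
  · simp
  · field_simp

lemma fub {T u v : ℝ} (hT : 2 ≤ T) (hu : 1 ≤ u) (huv : u ≤ v) :
    ∫ X in (T ^ u)..(T ^ v), ∫ S in (T - 1 / 2)..(2 * T - 1 / 2),
      DD (S * (X / T)) (X / T) ^ 2 / X ^ 2 =
    ∫ S in (T - 1 / 2)..(2 * T - 1 / 2), ∫ X in (T ^ u)..(T ^ v),
      DD (S * (X / T)) (X / T) ^ 2 / X ^ 2 := by
  have hT0 : 0 < T := by linarith
  have h1 : T ^ u ≤ T ^ v := Real.rpow_le_rpow_of_exponent_le (by linarith) huv
  have h2 : T - 1 / 2 ≤ 2 * T - 1 / 2 := by linarith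
  have h3 : 1 ≤ T ^ u := Real.one_le_rpow (by linarith) (by linarith)
  simp_rw [intervalIntegral.integral_of_le h1, intervalIntegral.integral_of_le h2]
  have hm : Measurable (Function.uncurry fun X S : ℝ => DD (S * (X / T)) (X / T) ^ 2 / X ^ 2) := by
    have hp := meas_psi
    unfold DD Function.uncurry
    have m1 : Measurable (fun p : ℝ × ℝ => Chebyshev.psi (p.2 * (p.1 / T) + p.1 / T)) :=
      hp.comp (by fun_prop)
    have m2 : Measurable (fun p : ℝ × ℝ => Chebyshev.psi (p.2 * (p.1 / T))) :=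
      hp.comp (by fun_prop)
    have m3 : Measurable (fun p : ℝ × ℝ => p.1 / T) := by fun_prop
    have m4 : Measurable (fun p : ℝ × ℝ => p.1 ^ 2) := by fun_prop
    exact (((m1.sub m2).sub m3).pow_const 2).div m4
  refine integral_integral_swap ?_
  rw [Measure.prod_restrict]
  set M : ℝ := (2 * T + 1) * T ^ v / T with hM
  refine Measure.integrableOn_of_bounded (M := (Chebyshev.psi M + M) ^ 2) ?_
    hm.aestronglyMeasurable ?_
  · rw [Measure.prod_prod, Real.volume_Ioc, Real.volume_Ioc]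
    exact ENNReal.mul_ne_top ENNReal.ofReal_ne_top ENNReal.ofReal_ne_top
  · refine (ae_restrict_iff' (measurableSet_Ioc.prod measurableSet_Ioc)).2
      (Eventually.of_forall fun p hp => ?_)
    obtain ⟨⟨hX1, hX2⟩, ⟨hS1, hS2⟩⟩ := hp
    show ‖DD (p.2 * (p.1 / T)) (p.1 / T) ^ 2 / p.1 ^ 2‖ ≤ _
    have hX0 : 1 < p.1 := lt_of_le_of_lt h3 hX1
    have hS0 : 0 < p.2 := by linarith
    have hh : 0 < p.1 / T := by positivity
    have hy : p.2 * (p.1 / T) + p.1 / T ≤ M := by
      rw [hM, mul_div_assoc]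
      have : p.1 / T ≤ T ^ v / T := by gcongr
      nlinarith
    have hD : |DD (p.2 * (p.1 / T)) (p.1 / T)| ≤ Chebyshev.psi M + M := by
      unfold DD
      have a1 := Chebyshev.psi_mono hy
      have a2 := Chebyshev.psi_nonneg (p.2 * (p.1 / T))
      have a3 : Chebyshev.psi (p.2 * (p.1 / T)) ≤ Chebyshev.psi (p.2 * (p.1 / T) + p.1 / T) :=
        Chebyshev.psi_mono (by linarith)
      have a4 : p.1 / T ≤ M := by
        have : 0 ≤ p.2 * (p.1 / T) := by positivity
        linarith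
      have a5 := Chebyshev.psi_nonneg M
      rw [abs_le]
      constructor <;> linarith
    rw [norm_div, norm_pow, norm_pow, Real.norm_eq_abs, Real.norm_eq_abs]
    have b1 : |DD (p.2 * (p.1 / T)) (p.1 / T)| ^ 2 ≤ (Chebyshev.psi M + M) ^ 2 :=
      pow_le_pow_left₀ (abs_nonneg _) hD 2
    refine (div_le_self (by positivity) ?_).trans b1
    rw [sq_abs]
    nlinarith

end CHG

open CHG in
theorem chg : S_CHG := by
  intro T u v hT hu huv
  have hT0 : 0 < T := by linarith
  rw [W_eq hT huv, fub hT hu huv]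
  unfold AV
  have h1 : ∀ S ∈ Set.uIcc (T - 1 / 2) (2 * T - 1 / 2),
      S / Real.log T ^ 2 * ∫ x in (T ^ (u - 1) * S)..(T ^ (v - 1) * S),
        (Chebyshev.psi (x + x / S) - Chebyshev.psi x - x / S) ^ 2 / x ^ 2 =
      T / Real.log T ^ 2 * ∫ X in (T ^ u)..(T ^ v), DD (S * (X / T)) (X / T) ^ 2 / X ^ 2 := by
    intro S hS
    rw [Set.uIcc_of_le (by linarith)] at hS
    have hS0 : 0 < S := by linarith [hS.1]
    rw [J_eq hT hS0, ← mul_assoc]
    congr 1
    field_simp
  rw [intervalIntegral.integral_congr h1, intervalIntegral.integral_const_mul]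
  rw [← mul_assoc]
  congr 1
  field_simp

end H479.X
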