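import Pool.Agent.H479.X.Stm
import Pool.Agent.H479.V.Gvf

/-! # the variance is nearly continuous in T (proved by helper271) -/

open MeasureTheory Filter Topology

namespace H479.X

open H479.V (ft EW RP S_EFL S_DG S_APP)
open Pool.Agent.N804 (SC CT)
open Pool.Agent.N804.PV (GV ph DT)

namespace CONpf

/-- the integrand of the variance -/
noncomputable def F (T x : ℝ) : ℝ :=
  (Chebyshev.psi (x + x / T) - Chebyshev.psi x - x / T) ^ 2 / x ^ 2

lemma F_nonneg (T x : ℝ) : 0 ≤ F T x := by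
  unfold F
  positivity

lemma psi_meas : Measurable Chebyshev.psi := Chebyshev.psi_mono.measurable

lemma F_meas (T : ℝ) : Measurable (F T) := by
  have := psi_meas
  unfold F
  fun_prop

lemma F_ii {T c d : ℝ} (hT : 0 < T) (hc : 0 < c) (hcd : c ≤ d) :
    IntervalIntegrable (F T) volume c d := by
  rw [intervalIntegrable_iff_integrableOn_Ioc_of_le hcd]
  refine Measure.integrableOn_of_bounded (M := (Chebyshev.psi (d + d / T) + d / T) ^ 2 / c ^ 2)
    (by simp) (F_meas T).aestronglyMeasurable ?_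
  refine (ae_restrict_iff' measurableSet_Ioc).2 (Eventually.of_forall fun x hx => ?_)
  rw [Real.norm_eq_abs, abs_of_nonneg (F_nonneg T x)]
  unfold F
  have hx0 : 0 < x := hc.trans hx.1
  have h1 : 0 ≤ Chebyshev.psi x := Chebyshev.psi_nonneg x
  have h2 : Chebyshev.psi x ≤ Chebyshev.psi (x + x / T) :=
    Chebyshev.psi_mono (by have := div_pos hx0 hT; linarith)
  have h3 : Chebyshev.psi (x + x / T) ≤ Chebyshev.psi (d + d / T) :=
    Chebyshev.psi_mono (add_le_add hx.2 (div_le_div_of_nonneg_right hx.2 hT.le))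
  have h4 : x / T ≤ d / T := div_le_div_of_nonneg_right hx.2 hT.le
  have h5 : 0 < x / T := div_pos hx0 hT
  refine div_le_div₀ (by positivity) ?_ (by positivity) (pow_le_pow_left₀ hc.le hx.1.le 2)
  refine sq_le_sq' ?_ ?_ <;> linarith

lemma F_mono {T c' c d d' : ℝ} (hT : 0 < T) (hc : 0 < c') (h1 : c' ≤ c) (h2 : c ≤ d) (h3 : d ≤ d') :
    ∫ x in c..d, F T x ≤ ∫ x in c'..d', F T x :=
  intervalIntegral.integral_mono_interval h1 h2 h3 (Eventually.of_forall fun x => F_nonneg T x)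
    (F_ii hT hc (h1.trans (h2.trans h3)))

lemma GV_eq (T u v : ℝ) : GV T u v = T / Real.log T ^ 2 * ∫ x in (T ^ u)..(T ^ v), F T x := rfl

lemma GV_nonneg {T u v : ℝ} (hT : 1 ≤ T) (huv : u ≤ v) : 0 ≤ GV T u v := by
  rw [GV_eq]
  refine mul_nonneg (by positivity) ?_
  exact intervalIntegral.integral_nonneg (Real.rpow_le_rpow_of_exponent_le hT huv)
    (fun x _ => F_nonneg T x)

lemma F_int_eq {T u v : ℝ} (hT : 1 < T) :
    ∫ x in (T ^ u)..(T ^ v), F T x = Real.log T ^ 2 / T * GV T u v := by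
  rw [GV_eq]
  have h1 : 0 < Real.log T := Real.log_pos hT
  have h2 : 0 < T := by linarith
  field_simp

/-- change of variables for the difference -/
lemma subE {R S A B : ℝ} (hR : 0 < R) (hS : 0 < S) (hSR : S < R) :
    ∫ x in A..B, (Chebyshev.psi (x + x / S) - Chebyshev.psi (x + x / R) - (x / S - x / R)) ^ 2 / x ^ 2 =
      (1 + 1 / R) * ∫ y in ((1 + 1 / R) * A)..((1 + 1 / R) * B), F ((1 + 1 / R) / (1 / S - 1 / R)) y := by
  have hc : (1 + 1 / R) ≠ 0 := by positivity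
  have hd : (1 / S - 1 / R) ≠ 0 := by
    have : 1 / R < 1 / S := one_div_lt_one_div_of_lt hS hSR
    linarith
  have h1 := intervalIntegral.integral_comp_mul_left (a := A) (b := B)
    (fun y => F ((1 + 1 / R) / (1 / S - 1 / R)) y) hc
  rw [smul_eq_mul] at h1
  have h2 : (1 + 1 / R) * ∫ y in ((1 + 1 / R) * A)..((1 + 1 / R) * B),
      F ((1 + 1 / R) / (1 / S - 1 / R)) y =
      (1 + 1 / R) ^ 2 * ∫ x in A..B, F ((1 + 1 / R) / (1 / S - 1 / R)) ((1 + 1 / R) * x) := by
    rw [h1]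
    field_simp
  rw [h2, ← intervalIntegral.integral_const_mul]
  refine intervalIntegral.integral_congr (fun x _ => ?_)
  simp only [F]
  have e1 : (1 + 1 / R) * x / ((1 + 1 / R) / (1 / S - 1 / R)) = x / S - x / R := by
    field_simp
  have e2 : (1 + 1 / R) * x + (x / S - x / R) = x + x / S := by ring
  have e3 : (1 + 1 / R) * x = x + x / R := by ring
  rw [e1, e2, e3]
  have e4 : (x + x / R) ^ 2 = (1 + 1 / R) ^ 2 * x ^ 2 := by ring
  rw [e4, mul_div_assoc', mul_div_mul_left _ _ (pow_ne_zero 2 hc)]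

lemma logsq {q Q : ℝ} (hq : Real.exp 2 ≤ q) (hqQ : q ≤ Q) :
    Real.log Q ^ 2 / Q ≤ Real.log q ^ 2 / q := by
  have h1 := Real.log_div_sqrt_antitoneOn (show q ∈ {x | Real.exp 2 ≤ x} from hq)
    (show Q ∈ {x | Real.exp 2 ≤ x} from hq.trans hqQ) hqQ
  simp only at h1
  have hq0 : 0 < q := (Real.exp_pos 2).trans_le hq
  have hQ0 : 0 < Q := hq0.trans_le hqQ
  have hQ1 : 1 ≤ Q := by
    have := Real.add_one_le_exp (2 : ℝ)
    linarith
  have h2 : 0 ≤ Real.log Q / √Q := div_nonneg (Real.log_nonneg hQ1) (Real.sqrt_nonneg _)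
  have h3 := pow_le_pow_left₀ h2 h1 2
  rw [div_pow, div_pow, Real.sq_sqrt hQ0.le, Real.sq_sqrt hq0.le] at h3
  exact h3

lemma sq_split (p q t : ℝ) (ht : 0 < t) : (p - q) ^ 2 ≤ (1 + t) * p ^ 2 + (1 + 1 / t) * q ^ 2 := by
  have h1 : 0 ≤ (t * p + q) ^ 2 / t := by positivity
  have h2 : (t * p + q) ^ 2 / t = t * p ^ 2 + 2 * p * q + 1 / t * q ^ 2 := by
    field_simp
    ring
  nlinarith

lemma alg1 {R η l L C : ℝ} (hR : 0 < R) (hη : 0 < η) (hL : 0 < L) :
    R / L ^ 2 * (2 * (l ^ 2 / (3 * R / (4 * η)) * C)) = 8 / 3 * C * η * (l ^ 2 / L ^ 2) := by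
  field_simp
  ring

lemma alg2 {t C η : ℝ} (ht : 0 < t) (htt : t * t = η) :
    (1 + 1 / t) * (16 / 3 * C * η) = 16 / 3 * C * (η + t) := by
  rw [← htt]
  field_simp

lemma fac {R S η : ℝ} (hη : 0 < η) (hη4 : η ≤ 1 / 4) (hR : 1 < R) (hS1 : 1 < S)
    (hS : (1 - η) * R ≤ S) (hSR : S ≤ R) :
    R / Real.log R ^ 2 * (Real.log S ^ 2 / S) ≤ 1 + 2 * η := by
  have hS0 : 0 < S := by linarith
  have hlogR : 0 < Real.log R := Real.log_pos hR
  have hlogS : 0 < Real.log S := Real.log_pos hS1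
  have h5 : Real.log S ^ 2 ≤ Real.log R ^ 2 :=
    pow_le_pow_left₀ hlogS.le (Real.log_le_log hS0 hSR) 2
  have h6 : R ≤ (1 + 2 * η) * S := by nlinarith
  rw [div_mul_div_comm, div_le_iff₀ (by positivity)]
  have h7 : R * Real.log S ^ 2 ≤ ((1 + 2 * η) * S) * Real.log R ^ 2 :=
    mul_le_mul h6 h5 (by positivity) (by positivity)
  linarith

lemma inv_diff {R S η : ℝ} (hη : 0 < η) (hη4 : η ≤ 1 / 4) (hR0 : 0 < R)
    (hS : (1 - η) * R ≤ S) : 1 / S - 1 / R ≤ 4 * η / (3 * R) := by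
  have hη1 : 0 < 1 - η := by linarith
  have h5 : 1 / S ≤ 1 / ((1 - η) * R) := one_div_le_one_div_of_le (by positivity) hS
  have h6 : 1 / ((1 - η) * R) - 1 / R = η / ((1 - η) * R) := by
    field_simp
    ring
  have h7 : η / ((1 - η) * R) ≤ 4 * η / (3 * R) := by
    rw [div_le_div_iff₀ (by positivity) (by positivity)]
    nlinarith [mul_pos hη hR0]
  linarith

/-- the second part -/
lemma IE_bound {R S a b C T0 η : ℝ} (ha : 1 ≤ a) (hab : a < b) (hC : 0 < C)
    (hGC : ∀ Q : ℝ, T0 ≤ Q → GV Q 0 (b + 1) ≤ C) (hη : 0 < η) (hη4 : η ≤ 1 / 4) (h3 : 3 ≤ R)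
    (h4 : |T0| ≤ R) (hS0 : 0 < S) (hS : (1 - η) * R ≤ S) (hlt : S < R) :
    ∫ x in (R ^ a)..(R ^ b), (Chebyshev.psi (x + x / S) - Chebyshev.psi (x + x / R) -
      (x / S - x / R)) ^ 2 / x ^ 2 ≤
      2 * (Real.log (3 * R / (4 * η)) ^ 2 / (3 * R / (4 * η)) * C) := by
  have hR0 : 0 < R := by linarith
  have hR1 : 1 < R := by linarith
  have hA : 0 < R ^ a := Real.rpow_pos_of_pos hR0 _
  have hA1 : 1 ≤ R ^ a := Real.one_le_rpow hR1.le (by linarith)
  have hAB : R ^ a ≤ R ^ b := Real.rpow_le_rpow_of_exponent_le hR1.le hab.le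
  set Q : ℝ := (1 + 1 / R) / (1 / S - 1 / R) with hQ
  have hd : 0 < 1 / S - 1 / R := by
    have : 1 / R < 1 / S := one_div_lt_one_div_of_lt hS0 hlt
    linarith
  have hd2 : 1 / S - 1 / R ≤ 4 * η / (3 * R) := inv_diff hη hη4 hR0 hS
  have hQ0 : 3 * R / (4 * η) ≤ Q := by
    rw [hQ, div_le_div_iff₀ (by positivity) hd]
    have h5 : 3 * R * (1 / S - 1 / R) ≤ 4 * η := by
      have := mul_le_mul_of_nonneg_left hd2 (show 0 ≤ 3 * R by positivity)
      have h6 : 3 * R * (4 * η / (3 * R)) = 4 * η := by field_simp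
      linarith
    have h7 : 0 < 1 / R := by positivity
    nlinarith
  have hq3 : 3 * R ≤ 3 * R / (4 * η) := by
    rw [le_div_iff₀ (by positivity)]
    nlinarith
  have hQR : 3 * R ≤ Q := hq3.trans hQ0
  have hQpos : 0 < Q := by linarith
  have hQ1 : 1 < Q := by linarith
  have hexp2 : Real.exp 2 ≤ 9 := by
    have h5 := Real.exp_one_lt_d9
    have h6 : Real.exp 2 = Real.exp 1 * Real.exp 1 := by rw [← Real.exp_add]; norm_num
    rw [h6]
    have h7 := Real.exp_pos 1
    nlinarith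
  have h5 : ∫ x in (R ^ a)..(R ^ b), (Chebyshev.psi (x + x / S) - Chebyshev.psi (x + x / R) -
      (x / S - x / R)) ^ 2 / x ^ 2 = (1 + 1 / R) *
      ∫ y in ((1 + 1 / R) * R ^ a)..((1 + 1 / R) * R ^ b), F Q y := subE hR0 hS0 hlt
  rw [h5]
  have hR1' : 0 < 1 / R := by positivity
  have hR2' : 1 / R ≤ 1 := by
    rw [div_le_one hR0]; linarith
  have h6 : ∫ y in ((1 + 1 / R) * R ^ a)..((1 + 1 / R) * R ^ b), F Q y ≤
      ∫ y in (Q ^ (0 : ℝ))..(Q ^ (b + 1)), F Q y := by
    refine F_mono hQpos (Real.rpow_pos_of_pos hQpos _) ?_ ?_ ?_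
    · rw [Real.rpow_zero]
      nlinarith
    · exact mul_le_mul_of_nonneg_left hAB (by linarith)
    · have h7 : R ^ (b + 1) ≤ Q ^ (b + 1) := Real.rpow_le_rpow hR0.le (by linarith) (by linarith)
      refine le_trans ?_ h7
      rw [Real.rpow_add hR0, Real.rpow_one]
      have h8 : 0 < R ^ b := Real.rpow_pos_of_pos hR0 _
      nlinarith
  rw [F_int_eq hQ1] at h6
  have h7 : Real.log Q ^ 2 / Q * GV Q 0 (b + 1) ≤ Real.log Q ^ 2 / Q * C :=
    mul_le_mul_of_nonneg_left (hGC Q ((le_abs_self T0).trans (h4.trans (by linarith))))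
      (by positivity)
  have h8 : Real.log Q ^ 2 / Q ≤ Real.log (3 * R / (4 * η)) ^ 2 / (3 * R / (4 * η)) :=
    logsq (by linarith) hQ0
  have h9 := mul_le_mul_of_nonneg_right h8 hC.le
  have h10 : ∫ y in ((1 + 1 / R) * R ^ a)..((1 + 1 / R) * R ^ b), F Q y ≤
      Real.log (3 * R / (4 * η)) ^ 2 / (3 * R / (4 * η)) * C := by linarith
  have h11 : 0 ≤ Real.log (3 * R / (4 * η)) ^ 2 / (3 * R / (4 * η)) * C := by positivity
  have h12 := mul_le_mul_of_nonneg_left h10 (show 0 ≤ 1 + 1 / R by linarith)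
  have h13 := mul_le_mul_of_nonneg_right (show 1 + 1 / R ≤ 2 by linarith) h11
  linarith

end CONpf

open CONpf

theorem con : S_CON := by
  intro a b C T0 ha hab hC hGC ε' η hε' hη hη4
  have hη1 : 0 < 1 - η := by linarith
  set t := Real.sqrt η with ht
  have ht0 : 0 < t := Real.sqrt_pos.2 hη
  have htt : t * t = η := Real.mul_self_sqrt hη.le
  have ht1 : t ≤ 1 := by
    rw [ht]
    exact Real.sqrt_le_one.2 (by linarith)
  have hb : 0 < b + ε' := by linarith
  have ev1 : ∀ᶠ R : ℝ in atTop, ((1 - η) ^ (b + ε'))⁻¹ ≤ R ^ ε' :=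
    (tendsto_rpow_atTop hε').eventually_ge_atTop _
  have ev2 : ∀ᶠ R : ℝ in atTop, 5 / 2 * Real.log (3 / (4 * η)) ≤ Real.log R :=
    Real.tendsto_log_atTop.eventually_ge_atTop _
  filter_upwards [ev1, ev2, eventually_ge_atTop (3 : ℝ), eventually_ge_atTop |T0|] with R h1 h2 h3 h4
  intro S hS hSR
  have hR0 : 0 < R := by linarith
  have hS1 : 1 < S := by nlinarith
  have hS0 : 0 < S := by linarith
  have hR1 : 1 < R := by linarith
  have hlogR : 0 < Real.log R := Real.log_pos hR1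
  have hlogS : 0 < Real.log S := Real.log_pos hS1
  have hGS : 0 ≤ GV S a (b + ε') := GV_nonneg hS1.le (by linarith)
  rcases hSR.lt_or_eq with hlt | heq
  swap
  · -- S = R
    subst heq
    have h5 : GV S a b ≤ GV S a (b + ε') := by
      rw [GV_eq, GV_eq]
      refine mul_le_mul_of_nonneg_left ?_ (by positivity)
      exact F_mono hS0 (Real.rpow_pos_of_pos hS0 _) le_rfl
        (Real.rpow_le_rpow_of_exponent_le hS1.le hab.le)
        (Real.rpow_le_rpow_of_exponent_le hS1.le (by linarith))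
    have h6 : 1 ≤ (1 + t) * (1 + 2 * η) := by nlinarith
    have h7 : 0 ≤ 20 * C * t := by positivity
    nlinarith
  -- the splitting
  have hA : 0 < R ^ a := Real.rpow_pos_of_pos hR0 _
  have hA1 : 1 ≤ R ^ a := Real.one_le_rpow hR1.le (by linarith)
  have hAB : R ^ a ≤ R ^ b := Real.rpow_le_rpow_of_exponent_le hR1.le hab.le
  set E : ℝ → ℝ := fun x =>
    (Chebyshev.psi (x + x / S) - Chebyshev.psi (x + x / R) - (x / S - x / R)) ^ 2 / x ^ 2 with hE
  have hEm : Measurable E := by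
    have := psi_meas
    simp only [hE]
    fun_prop
  have hpt : ∀ x, F R x ≤ (1 + t) * F S x + (1 + 1 / t) * E x := by
    intro x
    simp only [F, hE]
    rw [mul_div_assoc', mul_div_assoc', ← add_div]
    refine div_le_div_of_nonneg_right ?_ (sq_nonneg x)
    have h5 := sq_split (Chebyshev.psi (x + x / S) - Chebyshev.psi x - x / S)
      (Chebyshev.psi (x + x / S) - Chebyshev.psi (x + x / R) - (x / S - x / R)) t ht0
    refine le_trans (le_of_eq ?_) h5
    ring
  have hEpt : ∀ x, E x ≤ 2 * F S x + 2 * F R x := by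
    intro x
    simp only [F, hE]
    rw [mul_div_assoc', mul_div_assoc', ← add_div]
    refine div_le_div_of_nonneg_right ?_ (sq_nonneg x)
    have h5 := sq_nonneg ((Chebyshev.psi (x + x / S) - Chebyshev.psi x - x / S) +
      (Chebyshev.psi (x + x / R) - Chebyshev.psi x - x / R))
    nlinarith
  have hE0 : ∀ x, 0 ≤ E x := fun x => by simp only [hE]; positivity
  have iS : IntervalIntegrable (F S) volume (R ^ a) (R ^ b) := F_ii hS0 hA hAB
  have iR : IntervalIntegrable (F R) volume (R ^ a) (R ^ b) := F_ii hR0 hA hAB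
  have iE : IntervalIntegrable E volume (R ^ a) (R ^ b) := by
    refine ((iS.const_mul 2).add (iR.const_mul 2)).mono_fun' hEm.aestronglyMeasurable
      (Eventually.of_forall fun x => ?_)
    show ‖E x‖ ≤ 2 * F S x + 2 * F R x
    rw [Real.norm_eq_abs, abs_of_nonneg (hE0 x)]
    exact hEpt x
  have hint : ∫ x in (R ^ a)..(R ^ b), F R x ≤ (1 + t) * (∫ x in (R ^ a)..(R ^ b), F S x) +
      (1 + 1 / t) * ∫ x in (R ^ a)..(R ^ b), E x := by
    rw [← intervalIntegral.integral_const_mul, ← intervalIntegral.integral_const_mul,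
      ← intervalIntegral.integral_add (iS.const_mul _) (iE.const_mul _)]
    exact intervalIntegral.integral_mono_on hAB iR ((iS.const_mul _).add (iE.const_mul _))
      (fun x _ => hpt x)
  -- first part
  have hwin : R ^ b ≤ S ^ (b + ε') := by
    have h5 : ((1 - η) * R) ^ (b + ε') ≤ S ^ (b + ε') :=
      Real.rpow_le_rpow (by positivity) hS hb.le
    refine le_trans ?_ h5
    rw [Real.mul_rpow hη1.le hR0.le, Real.rpow_add hR0]
    have h6 : 0 < (1 - η) ^ (b + ε') := Real.rpow_pos_of_pos hη1 _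
    have h7 : 1 ≤ (1 - η) ^ (b + ε') * R ^ ε' := by
      have := mul_le_mul_of_nonneg_left h1 h6.le
      rwa [mul_inv_cancel₀ h6.ne'] at this
    have h8 : 0 < R ^ b := Real.rpow_pos_of_pos hR0 _
    nlinarith
  have hI1 : ∫ x in (R ^ a)..(R ^ b), F S x ≤ Real.log S ^ 2 / S * GV S a (b + ε') := by
    rw [← F_int_eq hS1]
    exact F_mono hS0 (Real.rpow_pos_of_pos hS0 _) (Real.rpow_le_rpow hS0.le hSR (by linarith)) hAB hwin
  have hfac : R / Real.log R ^ 2 * (Real.log S ^ 2 / S) ≤ 1 + 2 * η := fac hη hη4 hR1 hS1 hS hSR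
  have hpart1 : R / Real.log R ^ 2 * ((1 + t) * ∫ x in (R ^ a)..(R ^ b), F S x) ≤
      (1 + t) * (1 + 2 * η) * GV S a (b + ε') := by
    have h5 : R / Real.log R ^ 2 * ∫ x in (R ^ a)..(R ^ b), F S x ≤ (1 + 2 * η) * GV S a (b + ε') := by
      have h6 := mul_le_mul_of_nonneg_left hI1 (show 0 ≤ R / Real.log R ^ 2 by positivity)
      have h7 := mul_le_mul_of_nonneg_right hfac hGS
      linarith
    have h8 := mul_le_mul_of_nonneg_left h5 (show 0 ≤ 1 + t by linarith)
    linarith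
  -- second part
  have hIE : ∫ x in (R ^ a)..(R ^ b), E x ≤ 2 * (Real.log (3 * R / (4 * η)) ^ 2 / (3 * R / (4 * η)) * C) :=
    IE_bound ha hab hC hGC hη hη4 h3 h4 hS0 hS hlt
  have hlog : Real.log (3 * R / (4 * η)) ^ 2 ≤ 2 * Real.log R ^ 2 := by
    have h5 : Real.log (3 * R / (4 * η)) = Real.log (3 / (4 * η)) + Real.log R := by
      rw [← Real.log_mul (by positivity) hR0.ne']
      congr 1
      field_simp
    have h6 : 0 ≤ Real.log (3 / (4 * η)) := by
      refine Real.log_nonneg ?_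
      rw [le_div_iff₀ (by positivity)]
      linarith
    rw [h5]
    nlinarith
  have hpart2 : R / Real.log R ^ 2 * ((1 + 1 / t) * ∫ x in (R ^ a)..(R ^ b), E x) ≤ 20 * C * t := by
    have h5 : R / Real.log R ^ 2 * ∫ x in (R ^ a)..(R ^ b), E x ≤ 16 / 3 * C * η := by
      have h6 := mul_le_mul_of_nonneg_left hIE (show 0 ≤ R / Real.log R ^ 2 by positivity)
      refine h6.trans ?_
      have h7 : R / Real.log R ^ 2 * (2 * (Real.log (3 * R / (4 * η)) ^ 2 / (3 * R / (4 * η)) * C)) =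
          8 / 3 * C * η * (Real.log (3 * R / (4 * η)) ^ 2 / Real.log R ^ 2) := alg1 hR0 hη hlogR
      rw [h7]
      have h8 : Real.log (3 * R / (4 * η)) ^ 2 / Real.log R ^ 2 ≤ 2 := by
        rw [div_le_iff₀ (by positivity)]
        exact hlog
      have h9 := mul_le_mul_of_nonneg_left h8 (show 0 ≤ 8 / 3 * C * η by positivity)
      linarith
    have h10 := mul_le_mul_of_nonneg_left h5 (show 0 ≤ 1 + 1 / t by positivity)
    have h11 : (1 + 1 / t) * (16 / 3 * C * η) = 16 / 3 * C * (η + t) := alg2 ht0 htt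
    have h12 : η ≤ t := by nlinarith
    rw [h11] at h10
    nlinarith [mul_nonneg hC.le ht0.le, mul_le_mul_of_nonneg_left h12 hC.le]
  rw [GV_eq R a b]
  have h5 := mul_le_mul_of_nonneg_left hint (show 0 ≤ R / Real.log R ^ 2 by positivity)
  rw [mul_add] at h5
  linarith

end H479.X
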