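import Pool.Agent.H479.X.Stm
import Pool.Agent.H479.V.Gvf

/-! # Fubini for the averaged density (proved by helper354) -/


open MeasureTheory Filter Topology

namespace H479.X

open H479.V (ft EW RP S_EFL S_DG S_APP)
open Pool.Agent.N804 (SC CT)
open Pool.Agent.N804.PV (GV ph DT)

namespace FUB354

lemma meas_ft : Measurable (fun q : ℝ × ℝ => ft q.1 q.2) := by
  have hψ : Measurable (fun x : ℝ => Chebyshev.psi x) := Chebyshev.psi_mono.measurable
  unfold ft DT
  have h1 : Measurable (fun q : ℝ × ℝ => Chebyshev.psi (Real.exp (q.2 * Real.log q.1) *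
      (1 + 1 / q.1))) := hψ.comp (by fun_prop)
  have h2 : Measurable (fun q : ℝ × ℝ => Chebyshev.psi (Real.exp (q.2 * Real.log q.1))) :=
    hψ.comp (by fun_prop)
  fun_prop

lemma bd {T a b S α : ℝ} (hT : 2 ≤ T) (ha : 0 ≤ a) (hS : T - 1 / 2 < S) (hS' : S ≤ 2 * T - 1 / 2)
    (hα : a < α) (hα' : α ≤ b) : |ft S α| ≤ 2 * T / Real.log (3 / 2) *
      (Pool.Agent.N278.PV.C1 ^ 2 * Real.exp (b * Real.log (2 * T))) := by
  have hS1 : 3 / 2 ≤ S := by linarith
  have hL : 0 < Real.log (3 / 2) := Real.log_pos (by norm_num)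
  have hL' : Real.log (3 / 2) ≤ Real.log S := Real.log_le_log (by norm_num) hS1
  have hL'' : Real.log S ≤ Real.log (2 * T) := Real.log_le_log (by linarith) (by linarith)
  have hS0 : 0 < S := by linarith
  have h1 := Pool.Agent.N278.PV.DT_bound (T := S) (by linarith) (α * Real.log S)
  have h2 := Pool.Agent.N278.PV.C1_pos
  unfold ft
  rw [abs_mul, abs_of_pos (div_pos hS0 (hL.trans_le hL')), abs_pow]
  have h3 := pow_le_pow_left₀ (abs_nonneg _) h1 2
  have h4 : (Pool.Agent.N278.PV.C1 * Real.exp (α * Real.log S / 2)) ^ 2 =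
      Pool.Agent.N278.PV.C1 ^ 2 * Real.exp (α * Real.log S) := by
    rw [mul_pow, ← Real.exp_nat_mul]
    congr 2
    push_cast
    ring
  rw [h4] at h3
  have h5 : Real.exp (α * Real.log S) ≤ Real.exp (b * Real.log (2 * T)) := by
    apply Real.exp_le_exp.2
    exact mul_le_mul hα' hL'' (hL.trans_le hL').le (by linarith)
  have h6 : S / Real.log S ≤ 2 * T / Real.log (3 / 2) :=
    div_le_div₀ (by linarith) (by linarith) hL hL'
  have h7 : |DT S (α * Real.log S)| ^ 2 ≤ Pool.Agent.N278.PV.C1 ^ 2 *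
      Real.exp (b * Real.log (2 * T)) :=
    h3.trans (mul_le_mul_of_nonneg_left h5 (by positivity))
  exact mul_le_mul h6 h7 (by positivity) (by positivity)

end FUB354

theorem fub : S_FUB := by
  intro T hT
  have hab' : T - 1 / 2 ≤ 2 * T - 1 / 2 := by linarith
  refine ⟨fun α => ?_, fun a b ha hab => ?_⟩
  · unfold fA AV
    apply mul_nonneg (by positivity)
    apply intervalIntegral.integral_nonneg hab'
    intro S hS
    exact H479.V.ft_nonneg (by linarith [hS.1]) α
  set μ : Measure ℝ := volume.restrict (Set.Ioc (T - 1 / 2) (2 * T - 1 / 2)) with hμ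
  set ν : Measure ℝ := volume.restrict (Set.Ioc a b) with hν
  haveI : IsFiniteMeasure μ := ⟨by rw [hμ, Measure.restrict_apply_univ]; simp⟩
  haveI : IsFiniteMeasure ν := ⟨by rw [hν, Measure.restrict_apply_univ]; simp⟩
  have hint : Integrable (fun q : ℝ × ℝ => ft q.1 q.2) (μ.prod ν) := by
    refine Integrable.mono' (integrable_const (2 * T / Real.log (3 / 2) *
      (Pool.Agent.N278.PV.C1 ^ 2 * Real.exp (b * Real.log (2 * T)))))
      FUB354.meas_ft.aestronglyMeasurable ?_
    rw [hμ, hν, Measure.prod_restrict]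
    refine (ae_restrict_iff' (measurableSet_Ioc.prod measurableSet_Ioc)).2
      (Eventually.of_forall fun q hq => ?_)
    rw [Real.norm_eq_abs]
    exact FUB354.bd hT ha hq.1.1 hq.1.2 hq.2.1 hq.2.2
  have h1 : Integrable (fun α => ∫ S, ft S α ∂μ) ν := hint.integral_prod_right
  have e1 : ∀ α, fA T α = 1 / T * ∫ S, ft S α ∂μ := by
    intro α
    unfold fA AV
    rw [intervalIntegral.integral_of_le hab']
  have e2 : fA T = fun α => 1 / T * ∫ S, ft S α ∂μ := funext e1
  refine ⟨?_, ?_⟩
  · rw [intervalIntegrable_iff_integrableOn_Ioc_of_le hab, e2]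
    exact h1.const_mul _
  · rw [intervalIntegral.integral_of_le hab, e2, integral_const_mul]
    unfold AV
    rw [intervalIntegral.integral_of_le hab']
    congr 1
    have h2 := integral_integral_swap (μ := μ) (ν := ν) (f := fun S α => ft S α) hint
    rw [← hμ, ← hν, ← h2]
    apply setIntegral_congr_fun measurableSet_Ioc
    intro S hS
    have h3 := H479.V.gvf S a b (by linarith [hS.1]) ha hab
    show ∫ α, ft S α ∂ν = GV S a b
    rw [h3, intervalIntegral.integral_of_le hab]

end H479.X
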