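import Pool.Agent.H479.X.Stm

/-! # the variance is locally integrable in T (proved by helper996) -/

/-!
# X-GI: the variance is locally integrable in T
-/

open MeasureTheory Filter Topology

namespace H479.X

open Pool.Agent.N804.PV (GV)

namespace GIx

lemma meas_psi : Measurable Chebyshev.psi := Chebyshev.psi_mono.measurable

/-- the integrand of `GV`, with the indicator of the domain of integration -/
noncomputable def FF (a b : ℝ) (p : ℝ × ℝ) : ℝ :=
  if p.1 ^ a < p.2 ∧ p.2 ≤ p.1 ^ b then
    (Chebyshev.psi (p.2 + p.2 / p.1) - Chebyshev.psi p.2 - p.2 / p.1) ^ 2 / p.2 ^ 2 else 0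

lemma meas_FF (a b : ℝ) : Measurable (FF a b) := by
  unfold FF
  refine Measurable.ite ?_ ?_ measurable_const
  · exact (measurableSet_lt (measurable_fst.pow_const a) measurable_snd).inter
      (measurableSet_le measurable_snd (measurable_fst.pow_const b))
  · refine Measurable.div ?_ (measurable_snd.pow_const 2)
    refine Measurable.pow_const ?_ 2
    refine Measurable.sub (Measurable.sub ?_ (meas_psi.comp measurable_snd))
      (measurable_snd.div measurable_fst)
    exact meas_psi.comp (measurable_snd.add (measurable_snd.div measurable_fst))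

/-- the inner integral is a measurable function -/
lemma meas_int (a b : ℝ) : StronglyMeasurable fun S : ℝ => ∫ x, FF a b (S, x) := by
  have h : StronglyMeasurable (Function.uncurry fun S x : ℝ => FF a b (S, x)) :=
    (meas_FF a b).stronglyMeasurable
  exact h.integral_prod_right

lemma int_eq {S a b : ℝ} (hS : 1 ≤ S) (hab : a ≤ b) :
    ∫ x in (S ^ a)..(S ^ b),
      (Chebyshev.psi (x + x / S) - Chebyshev.psi x - x / S) ^ 2 / x ^ 2 =
      ∫ x, FF a b (S, x) := by
  rw [intervalIntegral.integral_of_le (Real.rpow_le_rpow_of_exponent_le hS hab),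
    ← integral_indicator measurableSet_Ioc]
  refine integral_congr_ae (Eventually.of_forall fun x => ?_)
  simp only [Set.indicator, Set.mem_Ioc, FF]

/-- `GV` is, for `S ≥ 1`, a measurable function of `S` -/
lemma GV_eq {S a b : ℝ} (hS : 1 ≤ S) (hab : a ≤ b) :
    GV S a b = S / Real.log S ^ 2 * ∫ x, FF a b (S, x) := by
  unfold GV
  rw [int_eq hS hab]

lemma meas_GV (a b : ℝ) :
    Measurable fun S : ℝ => S / Real.log S ^ 2 * ∫ x, FF a b (S, x) :=
  (measurable_id.div (Real.measurable_log.pow_const 2)).mul (meas_int a b).measurable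

lemma GV_le {S a b R R' : ℝ} (ha : 0 ≤ a) (hab : a ≤ b) (hR : 1 < R) (h1 : R ≤ S) (h2 : S ≤ R') :
    ‖GV S a b‖ ≤ R' / Real.log R ^ 2 *
      ((Chebyshev.psi (2 * R' ^ b) + R' ^ b) ^ 2 * R' ^ b) := by
  have hS : 1 < S := hR.trans_le h1
  have hS0 : 0 < S := by linarith
  have hR'0 : 0 < R' := by linarith
  have hlR : 0 < Real.log R := Real.log_pos hR
  have hl : Real.log R ≤ Real.log S := Real.log_le_log (by linarith) h1
  have hb : 0 ≤ b := ha.trans hab
  have hSb : S ^ b ≤ R' ^ b := Real.rpow_le_rpow hS0.le h2 hb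
  have hSa : 1 ≤ S ^ a := Real.one_le_rpow hS.le ha
  have hψ : ∀ x : ℝ, 0 ≤ Chebyshev.psi x := fun x => Chebyshev.psi_nonneg x
  unfold GV
  rw [norm_mul]
  refine mul_le_mul ?_ ?_ (norm_nonneg _) (by positivity)
  · rw [Real.norm_of_nonneg (by positivity)]
    exact div_le_div₀ (by linarith) h2 (by positivity) (pow_le_pow_left₀ hlR.le hl 2)
  · have h3 : ∀ x ∈ Set.uIoc (S ^ a) (S ^ b),
        ‖(Chebyshev.psi (x + x / S) - Chebyshev.psi x - x / S) ^ 2 / x ^ 2‖ ≤
          (Chebyshev.psi (2 * R' ^ b) + R' ^ b) ^ 2 := by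
      intro x hx
      rw [Set.uIoc_of_le (Real.rpow_le_rpow_of_exponent_le hS.le hab)] at hx
      have hx1 : 1 < x := hSa.trans_lt hx.1
      have hx2 : x ≤ R' ^ b := hx.2.trans hSb
      have hx3 : x / S ≤ x := div_le_self (by linarith) hS.le
      have hx4 : 0 ≤ x / S := by positivity
      rw [Real.norm_of_nonneg (by positivity)]
      refine (div_le_self (by positivity) (one_le_pow₀ hx1.le)).trans ?_
      refine sq_le_sq' ?_ ?_
      · have h4 : Chebyshev.psi x ≤ Chebyshev.psi (2 * R' ^ b) :=
          Chebyshev.psi_mono (by linarith)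
        have h5 := hψ (x + x / S)
        linarith
      · have h4 : Chebyshev.psi (x + x / S) ≤ Chebyshev.psi (2 * R' ^ b) :=
          Chebyshev.psi_mono (by linarith)
        have h5 := hψ x
        have h6 : 0 ≤ R' ^ b := by linarith
        linarith
    refine (intervalIntegral.norm_integral_le_of_norm_le_const h3).trans ?_
    refine mul_le_mul_of_nonneg_left ?_ (by positivity)
    rw [abs_of_nonneg (sub_nonneg.2 (Real.rpow_le_rpow_of_exponent_le hS.le hab))]
    linarith

end GIx

open GIx in
theorem gi : S_GI := by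
  intro a b R R' ha hab hR hRR
  rw [intervalIntegrable_iff_integrableOn_Ioc_of_le hRR]
  have h : IntegrableOn (fun S : ℝ => S / Real.log S ^ 2 * ∫ x, FF a b (S, x)) (Set.Ioc R R') := by
    refine Measure.integrableOn_of_bounded (M := R' / Real.log R ^ 2 *
      ((Chebyshev.psi (2 * R' ^ b) + R' ^ b) ^ 2 * R' ^ b)) measure_Ioc_lt_top.ne
      (meas_GV a b).aestronglyMeasurable ?_
    rw [ae_restrict_iff' measurableSet_Ioc]
    refine Eventually.of_forall fun S hS => ?_
    rw [← GV_eq (by linarith [hS.1]) hab]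
    exact GV_le ha hab hR hS.1.le hS.2
  refine h.congr_fun (fun S hS => ?_) measurableSet_Ioc
  exact (GV_eq (by linarith [hS.1]) hab).symm

end H479.X
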