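import Pool.Agent.H479.X.Stm
import Pool.Agent.H479.V.Gvf

/-! # upper bound for W by averages of GV (proved by helper37) -/


open MeasureTheory Filter Topology

namespace H479.X

open H479.V (ft EW RP S_EFL S_DG S_APP)
open Pool.Agent.N804 (SC CT)
open Pool.Agent.N804.PV (GV ph DT)

namespace HIVL

/-- the integrand -/
noncomputable def F (S x : ℝ) : ℝ :=
  (Chebyshev.psi (x + x / S) - Chebyshev.psi x - x / S) ^ 2 / x ^ 2

lemma F_nonneg (S x : ℝ) : 0 ≤ F S x := by
  unfold F
  positivity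

lemma F_ii {S p q : ℝ} (hS : 0 < S) (hp : 0 < p) (hpq : p ≤ q) :
    IntervalIntegrable (F S) volume p q := by
  have hm : Measurable Chebyshev.psi := Chebyshev.psi_mono.measurable
  have hF : Measurable (F S) := by
    unfold F
    have h1 : Measurable fun x : ℝ => Chebyshev.psi (x + x / S) :=
      hm.comp (by fun_prop)
    exact ((h1.sub hm).sub (by fun_prop)).pow_const 2 |>.div (by fun_prop)
  rw [intervalIntegrable_iff_integrableOn_Ioc_of_le hpq]
  set M := 2 * Chebyshev.psi (q + q / S) + q / S with hM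
  refine Measure.integrableOn_of_bounded (M := M ^ 2 / p ^ 2) ?_ hF.aestronglyMeasurable ?_
  · simp
  · refine (ae_restrict_iff' measurableSet_Ioc).2 (Filter.Eventually.of_forall fun x hx => ?_)
    have hx0 : 0 < x := hp.trans hx.1
    rw [Real.norm_eq_abs, abs_of_nonneg (F_nonneg S x)]
    unfold F
    have h0 : ∀ y, 0 ≤ Chebyshev.psi y := fun y => Chebyshev.psi_nonneg y
    have h1 : Chebyshev.psi (x + x / S) ≤ Chebyshev.psi (q + q / S) := by
      refine Chebyshev.psi_mono ?_
      have : x / S ≤ q / S := div_le_div_of_nonneg_right hx.2 hS.le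
      linarith [hx.2]
    have h2 : Chebyshev.psi x ≤ Chebyshev.psi (q + q / S) := by
      refine Chebyshev.psi_mono ?_
      have : 0 ≤ q / S := div_nonneg (hp.le.trans hpq) hS.le
      linarith [hx.2]
    have h3 : x / S ≤ q / S := div_le_div_of_nonneg_right hx.2 hS.le
    have h4 : 0 ≤ x / S := div_nonneg hx0.le hS.le
    have h5 : |Chebyshev.psi (x + x / S) - Chebyshev.psi x - x / S| ≤ M := by
      rw [abs_le]
      constructor <;> linarith [h0 (x + x / S), h0 x, h0 (q + q / S)]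
    have h6 : (Chebyshev.psi (x + x / S) - Chebyshev.psi x - x / S) ^ 2 ≤ M ^ 2 := by
      rw [← sq_abs]
      exact pow_le_pow_left₀ (abs_nonneg _) h5 2
    refine div_le_div₀ (sq_nonneg M) h6 (by positivity) ?_
    exact pow_le_pow_left₀ hp.le hx.1.le 2

lemma GV_eq (S a b : ℝ) : GV S a b = S / Real.log S ^ 2 * ∫ x in (S ^ a)..(S ^ b), F S x := rfl

lemma GV_nonneg {S a b : ℝ} (hS : 1 ≤ S) (hab : a ≤ b) : 0 ≤ GV S a b := by
  rw [GV_eq]
  refine mul_nonneg (by positivity) ?_
  exact intervalIntegral.integral_nonneg (Real.rpow_le_rpow_of_exponent_le hS hab)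
    fun x _ => F_nonneg S x

/-- the pointwise bound -/
lemma pt {T S u v a b ε : ℝ} (hT : 4 ≤ T) (hS1 : T - 1 / 2 ≤ S) (hS2 : S ≤ 2 * T - 1 / 2)
    (ha : 1 ≤ a) (hau : a < u ∨ (a = 1 ∧ u = 1)) (huv : u < v) (hvb : v < b) (hε : 0 < ε)
    (h2 : 2 ^ (a - 1) ≤ T ^ (u - a) ∨ (a = 1 ∧ u = 1)) (h3 : 2 ^ (b - 1) ≤ T ^ (b - v))
    (h4 : Real.log (2 * T) ^ 2 ≤ (1 + ε) * Real.log T ^ 2) :
    S / Real.log T ^ 2 * ∫ x in (T ^ (u - 1) * S)..(T ^ (v - 1) * S),
      (Chebyshev.psi (x + x / S) - Chebyshev.psi x - x / S) ^ 2 / x ^ 2 ≤ (1 + ε) * GV S a b := by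
  have hT0 : 0 < T := by linarith
  have hS0 : 0 < S := by linarith
  have hS1' : 1 < S := by linarith
  have hlT : 0 < Real.log T := Real.log_pos (by linarith)
  have hlS : 0 < Real.log S := Real.log_pos hS1'
  have hab : a ≤ b := by
    rcases hau with h | h
    · linarith
    · linarith [h.1, h.2]
  -- (i)
  have hi : S ^ a ≤ T ^ (u - 1) * S := by
    have e1 : S ^ a = S ^ (a - 1) * S := by
      rw [Real.rpow_sub_one hS0.ne']
      field_simp
    rw [e1]
    refine mul_le_mul_of_nonneg_right ?_ hS0.le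
    rcases h2 with h2 | ⟨h5, h6⟩
    · calc S ^ (a - 1) ≤ (2 * T) ^ (a - 1) :=
            Real.rpow_le_rpow hS0.le (by linarith) (by linarith)
        _ = 2 ^ (a - 1) * T ^ (a - 1) := Real.mul_rpow (by norm_num) hT0.le
        _ ≤ T ^ (u - a) * T ^ (a - 1) :=
            mul_le_mul_of_nonneg_right h2 (Real.rpow_nonneg hT0.le _)
        _ = T ^ (u - 1) := by
            rw [← Real.rpow_add hT0]
            congr 1
            ring
    · rw [h5, h6]
      simp
  -- (ii)
  have hii : T ^ (v - 1) * S ≤ S ^ b := by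
    have e1 : S ^ b = S ^ (b - 1) * S := by
      rw [Real.rpow_sub_one hS0.ne']
      field_simp
    rw [e1]
    refine mul_le_mul_of_nonneg_right ?_ hS0.le
    have h5 : 0 < (2 : ℝ) ^ (b - 1) := Real.rpow_pos_of_pos (by norm_num) _
    calc T ^ (v - 1) ≤ T ^ (b - 1) / 2 ^ (b - 1) := by
          rw [le_div_iff₀ h5]
          calc T ^ (v - 1) * 2 ^ (b - 1) ≤ T ^ (v - 1) * T ^ (b - v) :=
                mul_le_mul_of_nonneg_left h3 (Real.rpow_nonneg hT0.le _)
            _ = T ^ (b - 1) := by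
                rw [← Real.rpow_add hT0]
                congr 1
                ring
      _ = (T / 2) ^ (b - 1) := (Real.div_rpow hT0.le (by norm_num) _).symm
      _ ≤ S ^ (b - 1) := Real.rpow_le_rpow (by linarith) (by linarith) (by linarith)
  -- (iii)
  have hiii : T ^ (u - 1) * S ≤ T ^ (v - 1) * S :=
    mul_le_mul_of_nonneg_right (Real.rpow_le_rpow_of_exponent_le (by linarith) (by linarith)) hS0.le
  have hI : ∫ x in (T ^ (u - 1) * S)..(T ^ (v - 1) * S), F S x ≤
      ∫ x in (S ^ a)..(S ^ b), F S x := by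
    refine intervalIntegral.integral_mono_interval hi hiii hii ?_ ?_
    · exact Filter.Eventually.of_forall fun x => F_nonneg S x
    · exact F_ii hS0 (Real.rpow_pos_of_pos hS0 _)
        (Real.rpow_le_rpow_of_exponent_le hS1'.le hab)
  have hJ0 : 0 ≤ ∫ x in (S ^ a)..(S ^ b), F S x :=
    intervalIntegral.integral_nonneg (Real.rpow_le_rpow_of_exponent_le hS1'.le hab)
      fun x _ => F_nonneg S x
  have hlog : Real.log S ^ 2 ≤ (1 + ε) * Real.log T ^ 2 := by
    refine le_trans ?_ h4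
    exact pow_le_pow_left₀ hlS.le (Real.log_le_log hS0 (by linarith)) 2
  change S / Real.log T ^ 2 * ∫ x in (T ^ (u - 1) * S)..(T ^ (v - 1) * S), F S x ≤ _
  rw [GV_eq]
  calc S / Real.log T ^ 2 * ∫ x in (T ^ (u - 1) * S)..(T ^ (v - 1) * S), F S x
      ≤ S / Real.log T ^ 2 * ∫ x in (S ^ a)..(S ^ b), F S x :=
        mul_le_mul_of_nonneg_left hI (by positivity)
    _ ≤ ((1 + ε) * (S / Real.log S ^ 2)) * ∫ x in (S ^ a)..(S ^ b), F S x := by
        refine mul_le_mul_of_nonneg_right ?_ hJ0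
        rw [mul_div_assoc', div_le_div_iff₀ (by positivity) (by positivity)]
        calc S * Real.log S ^ 2 ≤ S * ((1 + ε) * Real.log T ^ 2) :=
              mul_le_mul_of_nonneg_left hlog hS0.le
          _ = _ := by ring
    _ = _ := by ring

end HIVL

open HIVL

theorem hiv (hC : S_CHG) (hGI : S_GI) : S_HIV := by
  intro u v a b ε ha hau huv hvb hε
  have hu1 : 1 ≤ u := by
    rcases hau with h | h
    · linarith
    · exact h.2.ge
  have hab : a ≤ b := by
    rcases hau with h | h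
    · linarith
    · linarith [h.1, h.2]
  have e2 : ∀ᶠ T : ℝ in atTop, (2 : ℝ) ^ (a - 1) ≤ T ^ (u - a) ∨ (a = 1 ∧ u = 1) := by
    rcases hau with h | h
    · filter_upwards [(tendsto_rpow_atTop (by linarith : 0 < u - a)).eventually_ge_atTop
        ((2 : ℝ) ^ (a - 1))] with T hT
      exact Or.inl hT
    · exact Filter.Eventually.of_forall fun T => Or.inr h
  have e3 : ∀ᶠ T : ℝ in atTop, (2 : ℝ) ^ (b - 1) ≤ T ^ (b - v) :=
    (tendsto_rpow_atTop (by linarith : 0 < b - v)).eventually_ge_atTop _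
  have e4 : ∀ᶠ T : ℝ in atTop, Real.log (2 * T) ^ 2 ≤ (1 + ε) * Real.log T ^ 2 := by
    set δ := Real.sqrt (1 + ε) - 1 with hδ
    have hδ0 : 0 < δ := by
      have : 1 < Real.sqrt (1 + ε) := by
        rw [Real.lt_sqrt (by norm_num)]
        linarith
      linarith
    have hsq : (1 + δ) ^ 2 = 1 + ε := by
      have : 1 + δ = Real.sqrt (1 + ε) := by rw [hδ]; ring
      rw [this, Real.sq_sqrt (by linarith)]
    filter_upwards [Real.tendsto_log_atTop.eventually_ge_atTop (Real.log 2 / δ),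
      eventually_ge_atTop (1 : ℝ)] with T hT hT1
    have h1 : Real.log 2 ≤ δ * Real.log T := by
      rw [div_le_iff₀ hδ0] at hT
      linarith
    have h2 : Real.log (2 * T) = Real.log 2 + Real.log T :=
      Real.log_mul (by norm_num) (by linarith)
    have h3 : 0 ≤ Real.log (2 * T) := Real.log_nonneg (by linarith)
    rw [← hsq, ← mul_pow]
    refine pow_le_pow_left₀ h3 ?_ 2
    rw [h2]
    linarith
  filter_upwards [e2, e3, e4, eventually_ge_atTop (4 : ℝ)] with T h2 h3 h4 hT
  have hT0 : 0 < T := by linarith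
  rw [hC T u v (by linarith) hu1 huv.le]
  unfold AV
  set f : ℝ → ℝ := fun S => S / Real.log T ^ 2 * ∫ x in (T ^ (u - 1) * S)..(T ^ (v - 1) * S),
    (Chebyshev.psi (x + x / S) - Chebyshev.psi x - x / S) ^ 2 / x ^ 2 with hf
  have hle : T - 1 / 2 ≤ 2 * T - 1 / 2 := by linarith
  have hg : IntervalIntegrable (fun S => GV S a b) volume (T - 1 / 2) (2 * T - 1 / 2) :=
    hGI a b _ _ (by linarith) hab (by linarith) hle
  have hpt : ∀ S ∈ Set.Icc (T - 1 / 2) (2 * T - 1 / 2), f S ≤ (1 + ε) * GV S a b := fun S hS =>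
    pt hT hS.1 hS.2 ha hau huv hvb hε h2 h3 h4
  have hmain : ∫ S in (T - 1 / 2)..(2 * T - 1 / 2), f S ≤
      (1 + ε) * ∫ S in (T - 1 / 2)..(2 * T - 1 / 2), GV S a b := by
    by_cases hfi : IntervalIntegrable f volume (T - 1 / 2) (2 * T - 1 / 2)
    · rw [← intervalIntegral.integral_const_mul]
      exact intervalIntegral.integral_mono_on hle hfi (hg.const_mul _) hpt
    · rw [intervalIntegral.integral_undef hfi]
      refine mul_nonneg (by linarith) ?_
      refine intervalIntegral.integral_nonneg hle fun S hS => ?_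
      exact GV_nonneg (by linarith [hS.1]) hab
  calc 1 / T * ∫ S in (T - 1 / 2)..(2 * T - 1 / 2), f S
      ≤ 1 / T * ((1 + ε) * ∫ S in (T - 1 / 2)..(2 * T - 1 / 2), GV S a b) :=
        mul_le_mul_of_nonneg_left hmain (by positivity)
    _ = (1 + ε) * (1 / T * ∫ S in (T - 1 / 2)..(2 * T - 1 / 2), GV S a b) := by ring

end H479.X
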