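import Pool.Agent.H479.X.Stm
import Pool.Agent.H479.V.Gvf

/-! # lower bound for W by averages of GV (proved by helper106) -/

/-! # LOV: lower bound for W by averages of GV (helper106) -/

open MeasureTheory Filter Topology

namespace H479.X

open H479.V (ft EW RP S_EFL S_DG S_APP)
open Pool.Agent.N804 (SC CT)
open Pool.Agent.N804.PV (GV ph DT)

namespace Lov

noncomputable section

/-- the integrand -/
def h (S x : ℝ) : ℝ := (Chebyshev.psi (x + x / S) - Chebyshev.psi x - x / S) ^ 2 / x ^ 2

theorem h_nonneg (S x : ℝ) : 0 ≤ h S x := by unfold h; positivity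

theorem meas_psi : Measurable Chebyshev.psi := Chebyshev.psi_mono.measurable

theorem meas_h : Measurable (fun p : ℝ × ℝ => h p.1 p.2) := by
  have h1 : Measurable (fun p : ℝ × ℝ => Chebyshev.psi (p.2 + p.2 / p.1)) :=
    meas_psi.comp (by fun_prop)
  have h2 : Measurable (fun p : ℝ × ℝ => Chebyshev.psi p.2) := meas_psi.comp (by fun_prop)
  unfold h
  fun_prop

theorem h_le {S x M : ℝ} (hS : 1 ≤ S) (hx : 1 ≤ x) (hM : x ≤ M) :
    h S x ≤ (Chebyshev.psi (2 * M) + M) ^ 2 := by
  have h0 : 0 < S := by linarith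
  have h1 : x / S ≤ x := div_le_self (by linarith) hS
  have h2 : 0 ≤ x / S := by positivity
  have h3 : Chebyshev.psi x ≤ Chebyshev.psi (x + x / S) := Chebyshev.psi_mono (by linarith)
  have h4 : Chebyshev.psi (x + x / S) ≤ Chebyshev.psi (2 * M) := Chebyshev.psi_mono (by linarith)
  have h5 := Chebyshev.psi_nonneg x
  have h6 : |Chebyshev.psi (x + x / S) - Chebyshev.psi x - x / S| ≤ Chebyshev.psi (2 * M) + M := by
    rw [abs_le]
    constructor <;> linarith
  have h7 : (Chebyshev.psi (x + x / S) - Chebyshev.psi x - x / S) ^ 2 ≤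
      (Chebyshev.psi (2 * M) + M) ^ 2 := by
    rw [← sq_abs]
    exact pow_le_pow_left₀ (abs_nonneg _) h6 2
  unfold h
  have h8 : (1 : ℝ) ≤ x ^ 2 := by nlinarith
  exact (div_le_self (by positivity) h8).trans h7

theorem h_ii {S c d : ℝ} (hS : 1 ≤ S) (hc : 1 ≤ c) (hcd : c ≤ d) :
    IntervalIntegrable (h S) volume c d := by
  rw [intervalIntegrable_iff_integrableOn_Ioc_of_le hcd]
  refine Measure.integrableOn_of_bounded (M := (Chebyshev.psi (2 * d) + d) ^ 2)
    measure_Ioc_lt_top.ne ?_ ?_
  · exact (meas_h.comp (measurable_const.prodMk measurable_id)).aestronglyMeasurable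
  · rw [ae_restrict_iff' measurableSet_Ioc]
    refine Eventually.of_forall fun x hx => ?_
    rw [Real.norm_of_nonneg (h_nonneg S x)]
    exact h_le hS (by linarith [hx.1]) hx.2

/-- the integral over a window -/
def J (α β : ℝ → ℝ) (S : ℝ) : ℝ := ∫ x, (if α S < x ∧ x ≤ β S then h S x else 0)

theorem J_eq {α β : ℝ → ℝ} {S : ℝ} (h1 : α S ≤ β S) :
    ∫ x in (α S)..(β S), h S x = J α β S := by
  rw [intervalIntegral.integral_of_le h1, ← integral_indicator measurableSet_Ioc]
  unfold J
  refine integral_congr_ae (Eventually.of_forall fun x => ?_)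
  simp only [Set.indicator, Set.mem_Ioc]

theorem J_meas {α β : ℝ → ℝ} (hα : Measurable α) (hβ : Measurable β) :
    StronglyMeasurable (J α β) := by
  have h1 : Measurable (fun p : ℝ × ℝ => if α p.1 < p.2 ∧ p.2 ≤ β p.1 then h p.1 p.2 else 0) := by
    refine Measurable.ite ?_ meas_h measurable_const
    exact (measurableSet_lt (hα.comp measurable_fst) measurable_snd).inter
      (measurableSet_le measurable_snd (hβ.comp measurable_fst))
  exact StronglyMeasurable.integral_prod_right (f := fun S x : ℝ =>
    if α S < x ∧ x ≤ β S then h S x else 0) h1.stronglyMeasurable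

/-- integrability of the integrand of `AV` -/
theorem F_ii {T u v : ℝ} (hT : 2 ≤ T) (hu : 1 ≤ u) (huv : u ≤ v) :
    IntervalIntegrable (fun S => S / Real.log T ^ 2 * ∫ x in (T ^ (u - 1) * S)..(T ^ (v - 1) * S),
      (Chebyshev.psi (x + x / S) - Chebyshev.psi x - x / S) ^ 2 / x ^ 2) volume
      (T - 1 / 2) (2 * T - 1 / 2) := by
  have hT0 : 0 < T := by linarith
  have h1u : 1 ≤ T ^ (u - 1) := Real.one_le_rpow (by linarith) (by linarith)
  have huv' : T ^ (u - 1) ≤ T ^ (v - 1) := Real.rpow_le_rpow_of_exponent_le (by linarith) (by linarith)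
  have hle : T - 1 / 2 ≤ 2 * T - 1 / 2 := by linarith
  set α : ℝ → ℝ := fun S => T ^ (u - 1) * S with hα
  set β : ℝ → ℝ := fun S => T ^ (v - 1) * S with hβ
  rw [intervalIntegrable_iff_integrableOn_Ioc_of_le hle]
  have hJ : IntegrableOn (fun S => S / Real.log T ^ 2 * J α β S) (Set.Ioc (T - 1 / 2) (2 * T - 1 / 2)) := by
    set M : ℝ := T ^ (v - 1) * (2 * T) with hM
    set B : ℝ := (Chebyshev.psi (2 * M) + M) ^ 2 with hB
    refine Measure.integrableOn_of_bounded (M := 2 * T / Real.log T ^ 2 * (B * M))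
      measure_Ioc_lt_top.ne ?_ ?_
    · refine AEStronglyMeasurable.mul ?_ ?_
      · exact (by fun_prop : Measurable fun S : ℝ => S / Real.log T ^ 2).aestronglyMeasurable
      · exact (J_meas (by fun_prop) (by fun_prop)).aestronglyMeasurable
    · rw [ae_restrict_iff' measurableSet_Ioc]
      refine Eventually.of_forall fun S hS => ?_
      have hS1 : 1 ≤ S := by linarith [hS.1]
      have hαβ : α S ≤ β S := mul_le_mul_of_nonneg_right huv' (by linarith)
      have hα1 : 1 ≤ α S := by
        have := mul_le_mul h1u hS1 zero_le_one (by linarith)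
        simpa using this
      have hβM : β S ≤ M := mul_le_mul_of_nonneg_left (by linarith [hS.2]) (by positivity)
      rw [← J_eq hαβ]
      have h0 : 0 ≤ ∫ x in (α S)..(β S), h S x :=
        intervalIntegral.integral_nonneg hαβ fun x _ => h_nonneg S x
      have hi : ∫ x in (α S)..(β S), h S x ≤ B * M := by
        calc ∫ x in (α S)..(β S), h S x ≤ ∫ x in (α S)..(β S), B := by
              refine intervalIntegral.integral_mono_on hαβ (h_ii hS1 hα1 hαβ) (by simp) ?_
              intro x hx
              exact h_le hS1 (by linarith [hx.1]) (by linarith [hx.2])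
          _ = (β S - α S) * B := by simp
          _ ≤ M * B := mul_le_mul_of_nonneg_right (by linarith) (by positivity)
          _ = B * M := mul_comm _ _
      rw [Real.norm_of_nonneg (mul_nonneg (by positivity) h0)]
      refine mul_le_mul ?_ hi h0 (by positivity)
      exact div_le_div_of_nonneg_right (by linarith [hS.2]) (by positivity)
  refine hJ.congr_fun (fun S hS => ?_) measurableSet_Ioc
  have hS1 : 1 ≤ S := by linarith [hS.1]
  have hαβ : α S ≤ β S := mul_le_mul_of_nonneg_right huv' (by linarith)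
  simp only
  rw [← J_eq hαβ]
  rfl

theorem GV_nonneg {S a b : ℝ} (hS : 1 < S) (hab : a ≤ b) : 0 ≤ GV S a b := by
  have h1 : S ^ a ≤ S ^ b := Real.rpow_le_rpow_of_exponent_le hS.le hab
  unfold GV
  refine mul_nonneg (by positivity) ?_
  exact intervalIntegral.integral_nonneg h1 fun x _ => h_nonneg S x

/-- comparison of the windows -/
theorem window {u v a b : ℝ} (hu : 1 ≤ u) (hua : u < a ∨ (u = 1 ∧ a = 1)) (hab : a < b) (hbv : b < v) :
    ∀ᶠ T : ℝ in atTop, ∀ S : ℝ, T - 1 / 2 ≤ S → S ≤ 2 * T - 1 / 2 →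
      T ^ (u - 1) * S ≤ S ^ a ∧ S ^ b ≤ T ^ (v - 1) * S := by
  have hb1 : 1 < b := by
    rcases hua with h | h
    · linarith
    · linarith [h.2]
  have e1 : ∀ᶠ T : ℝ in atTop, (u < a → (2 : ℝ) ^ (a - 1) ≤ T ^ (a - u)) := by
    by_cases h : u < a
    · filter_upwards [(tendsto_rpow_atTop (y := a - u) (by linarith)).eventually_ge_atTop
        ((2 : ℝ) ^ (a - 1))] with T hT _ using hT
    · exact Eventually.of_forall fun T h' => absurd h' h
  have e2 : ∀ᶠ T : ℝ in atTop, (2 : ℝ) ^ (b - 1) ≤ T ^ (v - b) :=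
    (tendsto_rpow_atTop (y := v - b) (by linarith)).eventually_ge_atTop _
  filter_upwards [e1, e2, eventually_ge_atTop 2] with T h1 h2 hT S hS1 hS2
  have hT0 : 0 < T := by linarith
  have hS0 : 0 < S := by linarith
  have key : ∀ c : ℝ, S ^ c = S ^ (c - 1) * S := fun c => by
    rw [← Real.rpow_add_one hS0.ne', sub_add_cancel]
  constructor
  · rw [key a]
    refine mul_le_mul_of_nonneg_right ?_ hS0.le
    rcases hua with h | h
    · have h3 : (T / 2) ^ (a - 1) ≤ S ^ (a - 1) :=
        Real.rpow_le_rpow (by positivity) (by linarith) (by linarith)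
      refine le_trans ?_ h3
      rw [Real.div_rpow hT0.le (by norm_num), le_div_iff₀ (by positivity)]
      calc T ^ (u - 1) * 2 ^ (a - 1) ≤ T ^ (u - 1) * T ^ (a - u) :=
            mul_le_mul_of_nonneg_left (h1 h) (by positivity)
        _ = T ^ (a - 1) := by
            rw [← Real.rpow_add hT0]
            congr 1
            ring
    · rw [h.1, h.2]
      simp
  · rw [key b]
    refine mul_le_mul_of_nonneg_right ?_ hS0.le
    calc S ^ (b - 1) ≤ (2 * T) ^ (b - 1) :=
          Real.rpow_le_rpow hS0.le (by linarith) (by linarith)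
      _ = 2 ^ (b - 1) * T ^ (b - 1) := Real.mul_rpow (by norm_num) hT0.le
      _ ≤ T ^ (v - b) * T ^ (b - 1) := mul_le_mul_of_nonneg_right h2 (by positivity)
      _ = T ^ (v - 1) := by
          rw [← Real.rpow_add hT0]
          congr 1
          ring

end

end Lov

open Lov in
theorem lov (hC : S_CHG) (hGI : S_GI) : S_LOV := by
  intro u v a b ε hu hua hab hbv hε
  have ha1 : 1 ≤ a := by
    rcases hua with h | h
    · linarith
    · linarith [h.2]
  have huv : u ≤ v := by
    rcases hua with h | h
    · linarith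
    · linarith [h.1]
  have e1 : ∀ᶠ T : ℝ in atTop, 2 * Real.log 2 / ε ≤ Real.log T :=
    Real.tendsto_log_atTop.eventually_ge_atTop _
  filter_upwards [window hu hua hab hbv, e1, eventually_ge_atTop 4] with T hw hlog hT
  have hT2 : 2 ≤ T := by linarith
  have hT0 : 0 < T := by linarith
  have hL : 0 < Real.log T := Real.log_pos (by linarith)
  rw [hC T u v hT2 hu huv]
  unfold AV
  rw [← mul_assoc, mul_comm (1 - ε) (1 / T), mul_assoc, ← intervalIntegral.integral_const_mul]
  refine mul_le_mul_of_nonneg_left ?_ (by positivity)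
  refine intervalIntegral.integral_mono_on (by linarith) ?_ (F_ii hT2 hu huv) ?_
  · exact (hGI a b (T - 1 / 2) (2 * T - 1 / 2) (by linarith) hab.le (by linarith)
      (by linarith)).const_mul _
  · intro S hS
    have hS1 : 1 < S := by linarith [hS.1]
    have hS0 : 0 < S := by linarith
    have hLS : 0 < Real.log S := Real.log_pos hS1
    obtain ⟨w1, w2⟩ := hw S hS.1 hS.2
    have h1u : 1 ≤ T ^ (u - 1) := Real.one_le_rpow (by linarith) (by linarith)
    have hα1 : 1 ≤ T ^ (u - 1) * S := by
      have := mul_le_mul h1u hS1.le zero_le_one (by linarith)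
      simpa using this
    have hab' : S ^ a ≤ S ^ b := Real.rpow_le_rpow_of_exponent_le hS1.le hab.le
    have hI : ∫ x in (S ^ a)..(S ^ b), h S x ≤
        ∫ x in (T ^ (u - 1) * S)..(T ^ (v - 1) * S), h S x := by
      refine intervalIntegral.integral_mono_interval w1 hab' w2 ?_ ?_
      · exact Eventually.of_forall fun x => h_nonneg S x
      · exact h_ii hS1.le hα1 (w1.trans (hab'.trans w2))
    have hG : GV S a b = S / Real.log S ^ 2 * ∫ x in (S ^ a)..(S ^ b), h S x := rfl
    have h0 : 0 ≤ GV S a b := GV_nonneg hS1 hab.le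
    have h2 : S / Real.log T ^ 2 * ∫ x in (S ^ a)..(S ^ b), h S x =
        (Real.log S / Real.log T) ^ 2 * GV S a b := by
      rw [hG]
      field_simp
    have h3 : 1 - ε ≤ (Real.log S / Real.log T) ^ 2 := by
      have h4 : Real.log T - Real.log 2 ≤ Real.log S := by
        rw [← Real.log_div hT0.ne' (by norm_num)]
        exact Real.log_le_log (by positivity) (by linarith [hS.1])
      have h5 : 1 - Real.log 2 / Real.log T ≤ Real.log S / Real.log T := by
        rw [le_div_iff₀ hL]
        field_simp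
        linarith
      have h6 : 2 * (Real.log 2 / Real.log T) ≤ ε := by
        rw [← mul_div_assoc, div_le_iff₀ hL]
        rw [div_le_iff₀ hε] at hlog
        linarith
      nlinarith [sq_nonneg (Real.log S / Real.log T - 1)]
    calc (1 - ε) * GV S a b ≤ (Real.log S / Real.log T) ^ 2 * GV S a b :=
          mul_le_mul_of_nonneg_right h3 h0
      _ = S / Real.log T ^ 2 * ∫ x in (S ^ a)..(S ^ b), h S x := h2.symm
      _ ≤ S / Real.log T ^ 2 * ∫ x in (T ^ (u - 1) * S)..(T ^ (v - 1) * S), h S x :=
          mul_le_mul_of_nonneg_left hI (by positivity)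

end H479.X
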