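import Pool.Agent.H479.X.Stm
import Pool.Agent.H479.V.Low
import Pool.Agent.H479.V.Gvf

/-! # The lower bound in the mean, from the diagonal (variant of V/Low.lean, by helper120) -/

open MeasureTheory Filter Topology

namespace H479.X

open H479.V
open H479.P
open H479.U hiding mz_nonneg
open Pool.Agent.Y744 TH803TW
open Pool.Agent.N804 (SC CT)
open Pool.Agent.N804.PV (DT GV ph aT)

theorem low2 : S_LOW2 := by
  intro RH hE hD hA hU b ε hb hε
  obtain ⟨M0, T1, hM0⟩ := hU (b + 1) (by linarith)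
  obtain ⟨M, hM⟩ : ∃ M : ℝ, M = max M0 1 := ⟨_, rfl⟩
  have hM1 : 1 ≤ M := by rw [hM]; exact le_max_right _ _
  have hMM : M0 ≤ M := by rw [hM]; exact le_max_left _ _
  have hb0 : 0 < b := by linarith
  obtain ⟨C, hC, hnear⟩ := low_near
  obtain ⟨δ, hδ⟩ : ∃ δ : ℝ, δ = min 1 (ε / (24 * b ^ 2 * M)) := ⟨_, rfl⟩
  have hδ0 : 0 < δ := by rw [hδ]; exact lt_min one_pos (by positivity)
  have hδ1 : δ ≤ 1 := by rw [hδ]; exact min_le_left _ _
  have hδ2 : δ ≤ ε / (24 * b ^ 2 * M) := by rw [hδ]; exact min_le_right _ _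
  obtain ⟨η, hη⟩ : ∃ η : ℝ, η = min (1 / 4) (ε / (6 * b * C)) := ⟨_, rfl⟩
  have hη0 : 0 < η := by rw [hη]; exact lt_min (by norm_num) (by positivity)
  have hη4 : η ≤ 1 / 4 := by rw [hη]; exact min_le_left _ _
  have hη2 : η ≤ ε / (6 * b * C) := by rw [hη]; exact min_le_right _ _
  obtain ⟨ε₁, hε₁⟩ : ∃ ε₁ : ℝ, ε₁ = ε / (3 * b) := ⟨_, rfl⟩
  have hε₁0 : 0 < ε₁ := by rw [hε₁]; positivity
  obtain ⟨w, hw, hw0, hs, hpd, happ⟩ := hA b δ hb.le hδ0 hδ1
  obtain ⟨χ, hχ, hχ1, hχ0, hχle⟩ := exists_chi (lam := 1 - η) (kap := 1 - η / 2)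
    (by linarith) (by linarith)
  have hdg := hD w hw hpd (ε₁ / 2) (by positivity)
  have hsp := low_split RH hE hw hη0 hη4 hχ hχ1 (show 0 < ε₁ / 2 by positivity)
  filter_upwards [hdg, hsp, eventually_ge_atTop T1, hnear η hη0 (by linarith), eventually_gt_atTop (1 : ℝ)] with
    T h1 h2 hT1 h4 hT0
  have hT : 1 ≤ T := hT0.le
  have h3 : ∫ α in (1 : ℝ)..(b + δ), ft T α ≤ M := by
    have h3a := hM0 T hT1
    have h3b := intervalIntegral.integral_add_adjacent_intervals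
      (low_ft_ii hT (show (1:ℝ) ≤ b + δ by linarith)) (low_ft_ii hT (show b + δ ≤ b + 1 by linarith))
    have h3c : 0 ≤ ∫ α in (b + δ)..(b + 1), ft T α := intervalIntegral.integral_nonneg (by linarith)
      fun α _ => low_ft_nonneg hT α
    linarith
  have h5 := low_upper hw hw0 hb hδ0 hδ1 hs happ hη0 hη4 hχ hχ1 hχ0 hT
  have h6 := low_mass hw hw0 hb hδ0 hs happ
  have h7 := low_lam hw hw0 hb happ (show 1 - η / 2 < 1 by linarith) hχ hχle
  obtain ⟨J, hJ⟩ : ∃ J : ℝ, J = ∫ α in (1 : ℝ)..b, (1 - α / b) * ft T α := ⟨_, rfl⟩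
  rw [← hJ] at h5
  -- integration by parts
  have hion : IntegrableOn (ft T) (Set.Ioc 1 b) := (low_ft_on hT 1 b).mono_set Set.Ioc_subset_Icc_self
  have hp := low_parts hb.le hion
  have hJ2 : ∫ α in (1 : ℝ)..b, (b - α) * ft T α = b * J := by
    rw [hJ, ← intervalIntegral.integral_const_mul]
    apply intervalIntegral.integral_congr
    intro α _
    simp only
    field_simp
  rw [hJ2] at hp
  have hprim : ContinuousOn (fun t => ∫ α in (1 : ℝ)..t, ft T α) (Set.uIcc 1 b) := by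
    apply intervalIntegral.continuousOn_primitive_interval
    rw [Set.uIcc_of_le hb.le]
    exact low_ft_on hT 1 b
  have hS : ∫ t in (1 : ℝ)..b, ((∫ α in (1 : ℝ)..t, ft T α) - (t - 1)) =
      b * J - (b - 1) ^ 2 / 2 := by
    rw [intervalIntegral.integral_sub hprim.intervalIntegrable
      ((by fun_prop : Continuous fun t : ℝ => t - 1).intervalIntegrable _ _), ← hp]
    congr 1
    rw [intervalIntegral.integral_sub (by simp) (by simp)]
    simp
    ring
  rw [hS]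
  -- conclusion
  have hMb : 1 ≤ M := hM1
  have hd3 : 2 * δ * (∫ α in (1 : ℝ)..(b + δ), ft T α) ≤ 2 * (M * δ) := by
    have := mul_le_mul_of_nonneg_left h3 (show 0 ≤ 2 * δ by linarith)
    linarith
  have h8 : b - 2 * δ * b - ε₁ / 2 ≤ (2 - 2 / (3 * b) + 2 * δ) +
      (4 * (C * η) + 2 * J + 2 * (M * δ)) + ε₁ / 2 := by linarith
  have e1 : b * (2 / (3 * b)) = 2 / 3 := by field_simp
  have e2 : b * ε₁ = ε / 3 := by rw [hε₁]; field_simp
  have e3 : b * (C * η) ≤ ε / 6 := by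
    have := mul_le_mul_of_nonneg_left hη2 (show 0 ≤ b * C by positivity)
    calc b * (C * η) = b * C * η := by ring
      _ ≤ b * C * (ε / (6 * b * C)) := this
      _ = ε / 6 := by field_simp
  have e4 : b ^ 2 * M * δ ≤ ε / 24 := by
    have := mul_le_mul_of_nonneg_left hδ2 (show 0 ≤ b ^ 2 * M by positivity)
    calc b ^ 2 * M * δ ≤ b ^ 2 * M * (ε / (24 * b ^ 2 * M)) := this
      _ = ε / 24 := by field_simp
  have e5 : b * (M * δ) ≤ b ^ 2 * M * δ := by
    have : 0 ≤ M * δ := by positivity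
    nlinarith
  have e6 : b ^ 2 * δ ≤ b ^ 2 * M * δ := by
    have : 0 ≤ b ^ 2 * δ := by positivity
    nlinarith
  have e7 : b * δ ≤ b ^ 2 * M * δ := by
    have : 0 ≤ b * δ := by positivity
    nlinarith
  have h9 := mul_le_mul_of_nonneg_left h8 hb0.le
  nlinarith

theorem bd_of (h1 : S_BD1) (h0 : S_BD0) (hE : S_EFL) (hR : S_BDR) : S_BD := by
  intro RH b hb
  obtain ⟨C1, T1, h1⟩ := h1 RH hE hR b hb
  obtain ⟨C0, T0, h0⟩ := h0
  refine ⟨C0 + C1, max (max T0 T1) 2, fun T hT => ?_⟩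
  have a1 : T0 ≤ T := ((le_max_left _ _).trans (le_max_left _ _)).trans hT
  have a2 : T1 ≤ T := ((le_max_right _ _).trans (le_max_left _ _)).trans hT
  have a3 : 2 ≤ T := (le_max_right _ _).trans hT
  have b1 := h1 T a2
  have b0 := h0 T a1
  rw [gvf T 0 1 (by linarith) le_rfl zero_le_one] at b0
  rw [gvf T 0 b (by linarith) le_rfl (by linarith)]
  have := intervalIntegral.integral_add_adjacent_intervals
    (ft_ii (show 1 < T by linarith) 0 1) (ft_ii (show 1 < T by linarith) 1 b)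
  linarith

end H479.X
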