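import Pool.Agent.H479.X.Stm

/-! # measurability of the mean square in (X,H) (proved by helper357) -/


open MeasureTheory Filter Topology

namespace H479.X

open H479.V (ft EW RP S_EFL S_DG S_APP)
open Pool.Agent.N804 (SC CT)
open Pool.Agent.N804.PV (GV ph DT)

namespace MVx

theorem meas_psiC : Measurable fun p : ℝ × ℝ => psiC p.1 p.2 := by
  have h1 : Measurable fun p : ℝ × ℝ => (⌈p.1 - p.2 / 2⌉₊, ⌊p.1 + p.2 / 2⌋₊) := by
    apply Measurable.prodMk
    · exact Nat.measurable_ceil.comp (measurable_fst.sub (measurable_snd.div_const 2))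
    · exact Nat.measurable_floor.comp (measurable_fst.add (measurable_snd.div_const 2))
  have h2 : Measurable fun q : ℕ × ℕ => ∑ n ∈ Finset.Icc q.1 q.2, ArithmeticFunction.vonMangoldt n :=
    Measurable.of_discrete
  exact h2.comp h1

theorem meas_part (S : Set ((ℝ × ℝ) × ℝ)) (hS : MeasurableSet S) : Measurable fun p : ℝ × ℝ =>
    ∫ x, S.indicator (fun q : (ℝ × ℝ) × ℝ => (psiC q.2 q.1.2 - q.1.2) ^ 2) (p, x) := by
  have h0 : Measurable fun q : (ℝ × ℝ) × ℝ => (q.2, q.1.2) :=
    measurable_snd.prodMk (measurable_snd.comp measurable_fst)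
  have h2 : Measurable ((fun p : ℝ × ℝ => psiC p.1 p.2) ∘ fun q : (ℝ × ℝ) × ℝ => (q.2, q.1.2)) :=
    meas_psiC.comp h0
  have h3 : Measurable fun q : (ℝ × ℝ) × ℝ => q.1.2 := measurable_snd.comp measurable_fst
  have h1 : Measurable fun q : (ℝ × ℝ) × ℝ => (psiC q.2 q.1.2 - q.1.2) ^ 2 :=
    (Measurable.sub h2 h3).pow_const 2
  exact (StronglyMeasurable.integral_prod_right' (h1.indicator hS).stronglyMeasurable).measurable

end MVx

open MVx in
theorem mv : S_MV := by
  have hA : MeasurableSet {q : (ℝ × ℝ) × ℝ | q.1.1 < q.2 ∧ q.2 ≤ 2 * q.1.1} := by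
    apply MeasurableSet.inter
    · exact measurableSet_lt (measurable_fst.comp measurable_fst) measurable_snd
    · exact measurableSet_le measurable_snd ((measurable_fst.comp measurable_fst).const_mul 2)
  have hB : MeasurableSet {q : (ℝ × ℝ) × ℝ | 2 * q.1.1 < q.2 ∧ q.2 ≤ q.1.1} := by
    apply MeasurableSet.inter
    · exact measurableSet_lt ((measurable_fst.comp measurable_fst).const_mul 2) measurable_snd
    · exact measurableSet_le measurable_snd (measurable_fst.comp measurable_fst)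
  have e : (fun p : ℝ × ℝ => V p.1 p.2) = fun p : ℝ × ℝ => 1 / p.1 *
      ((∫ x, {q : (ℝ × ℝ) × ℝ | q.1.1 < q.2 ∧ q.2 ≤ 2 * q.1.1}.indicator
        (fun q : (ℝ × ℝ) × ℝ => (psiC q.2 q.1.2 - q.1.2) ^ 2) (p, x)) -
      ∫ x, {q : (ℝ × ℝ) × ℝ | 2 * q.1.1 < q.2 ∧ q.2 ≤ q.1.1}.indicator
        (fun q : (ℝ × ℝ) × ℝ => (psiC q.2 q.1.2 - q.1.2) ^ 2) (p, x)) := by
    funext p
    unfold V intervalIntegral
    rw [← integral_indicator measurableSet_Ioc, ← integral_indicator measurableSet_Ioc]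
    rfl
  unfold S_MV
  rw [e]
  exact (measurable_const.div measurable_fst).mul ((meas_part _ hA).sub (meas_part _ hB))

end H479.X
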