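import Pool.Agent.H479.X.Stm
import Pool.Graph.R_pool_sql_team_seeded_63374d34.N490.PV_6

/-! # the Riemann hypothesis from a variance bounded somewhere in [T-1/2, 2T] (proved by helper181) -/


open MeasureTheory Filter Topology

namespace H479.X

open H479.V (ft EW RP S_EFL S_DG S_APP)
open Pool.Agent.N804 (SC CT)
open Pool.Agent.N804.PV (GV ph DT)

namespace RhaL

open Set
open Pool.Agent.N490.PV6 (IV GV_eq D_int2 window)

/-- the window error from one value of `S` -/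
lemma est {C S X ε : ℝ} (_hε : 0 < ε) (hS2 : 2 ≤ S) (hX2 : 2 ≤ X) (hS12 : S ≤ X ^ (1 / 2 : ℝ))
    (hSε : S ≤ X ^ (ε / 2)) (h2 : 6 * Real.sqrt (|C| + 1) + 28 ≤ X ^ (ε / 2))
    (h3 : ‖Real.log X‖ ≤ 1 * ‖X ^ (ε / 4)‖)
    (hG : S / Real.log S ^ 2 * IV S S (2 * X) ≤ C) :
    ∫ x in X..(2 * X), |Chebyshev.psi x - x| ≤ X ^ (1 + 1 / 2 + ε) := by
  obtain ⟨M, hM⟩ : ∃ M : ℝ, M = |C| + 1 := ⟨_, rfl⟩
  rw [← hM] at h2
  have hM0 : 0 < M := by rw [hM]; positivity
  have hCM : C ≤ M := by rw [hM]; linarith [le_abs_self C]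
  have hX0 : 0 < X := by linarith
  have hX1 : 1 ≤ X := by linarith
  have hSpos : 0 < S := by linarith
  have hSleX : S ≤ X := hS12.trans (by
    calc X ^ (1 / 2 : ℝ) ≤ X ^ (1:ℝ) := Real.rpow_le_rpow_of_exponent_le hX1 (by norm_num)
      _ = X := Real.rpow_one X)
  have hL0 : 0 < Real.log S := Real.log_pos (by linarith)
  have hLX : Real.log S ≤ Real.log X := Real.log_le_log hSpos hSleX
  obtain ⟨I, hI⟩ : ∃ I : ℝ, I = M * Real.log S ^ 2 / S := ⟨_, rfl⟩
  have hI0 : 0 < I := by rw [hI]; positivity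
  have hIV : IV S S (2 * X) ≤ I := by
    rw [hI, le_div_iff₀ hSpos]
    have e1 : S / Real.log S ^ 2 * IV S S (2 * X) * Real.log S ^ 2 = IV S S (2 * X) * S := by
      field_simp
    have e2 := mul_le_mul_of_nonneg_right (hG.trans hCM) (sq_nonneg (Real.log S))
    rw [e1] at e2
    exact e2
  have hw := window (by linarith) hSleX hI0 hIV
  refine hw.trans ?_
  obtain ⟨Y, hY⟩ : ∃ Y : ℝ, Y = X ^ (ε / 2) := ⟨_, rfl⟩
  rw [← hY] at h2
  have hs0 : 0 ≤ Real.sqrt M := Real.sqrt_nonneg _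
  have hY1 : 1 ≤ Y := by linarith
  obtain ⟨Z, hZ⟩ : ∃ Z : ℝ, Z = X ^ (ε / 4) := ⟨_, rfl⟩
  have hZ0 : 0 < Z := by rw [hZ]; positivity
  have hZY : Z ^ 2 = Y := by
    rw [hZ, hY, ← Real.rpow_natCast, ← Real.rpow_mul hX0.le]
    congr 1; push_cast; ring
  obtain ⟨W, hW⟩ : ∃ W : ℝ, W = X ^ (1 / 2 : ℝ) := ⟨_, rfl⟩
  have hW0 : 0 < W := by rw [hW]; positivity
  have hW2 : W ^ 2 = X := by
    rw [hW, ← Real.rpow_natCast, ← Real.rpow_mul hX0.le]
    norm_num
  have hlog : Real.log X ≤ Z := by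
    rw [one_mul, Real.norm_eq_abs, Real.norm_of_nonneg (by positivity), ← hZ] at h3
    exact (le_abs_self _).trans h3
  have hsq : S * Real.sqrt (X * I) ≤ W * Z * Real.sqrt M * Z := by
    have e1 : S * Real.sqrt (X * I) = Real.sqrt (S * (X * (M * Real.log S ^ 2))) := by
      have e2 : S * (X * (M * Real.log S ^ 2)) = S ^ 2 * (X * I) := by
        rw [hI]; field_simp
      rw [e2, Real.sqrt_mul (sq_nonneg S), Real.sqrt_sq hSpos.le]
    rw [e1, Real.sqrt_le_left (by positivity)]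
    have e3 : (W * Z * Real.sqrt M * Z) ^ 2 = Y * (X * (M * Z ^ 2)) := by
      have : (W * Z * Real.sqrt M * Z) ^ 2 = W ^ 2 * Z ^ 2 * (Real.sqrt M) ^ 2 * Z ^ 2 := by ring
      rw [this, Real.sq_sqrt hM0.le, hW2, hZY]; ring
    rw [e3]
    have e4 : S ≤ Y := by rw [hY]; exact hSε
    have e5 : Real.log S ^ 2 ≤ Z ^ 2 := pow_le_pow_left₀ hL0.le (hLX.trans hlog) 2
    gcongr
  have e1 : W * Z * Real.sqrt M * Z = W * Real.sqrt M * Y := by
    rw [← hZY]; ring
  rw [e1] at hsq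
  have e2 : X ^ (1 + 1 / 2 + ε) = X * W * (Y * Y) := by
    rw [Real.rpow_add hX0, Real.rpow_add hX0, Real.rpow_one, hW, hY, ← Real.rpow_add hX0]
    congr 2; ring
  rw [e2]
  have e3 : 6 * S * X * Real.sqrt (X * I) ≤ 6 * X * (W * Real.sqrt M * Y) := by
    have : 6 * S * X * Real.sqrt (X * I) = 6 * X * (S * Real.sqrt (X * I)) := by ring
    rw [this]
    exact mul_le_mul_of_nonneg_left hsq (by positivity)
  have e4 : 28 * S * X ≤ 28 * X * W := by
    have : 28 * X * S ≤ 28 * X * W := mul_le_mul_of_nonneg_left (by rw [hW]; exact hS12) (by positivity)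
    linarith
  have e5 : 6 * Real.sqrt M * Y + 28 ≤ Y * Y := by nlinarith
  have e6 : X * W * (6 * Real.sqrt M * Y + 28) ≤ X * W * (Y * Y) :=
    mul_le_mul_of_nonneg_left e5 (by positivity)
  have e7 : X * W * (6 * Real.sqrt M * Y + 28) = 6 * X * (W * Real.sqrt M * Y) + 28 * X * W := by ring
  linarith

/-- the window error for all large `X` -/
lemma upper {b C T0 ε : ℝ} (hε : 0 < ε) (hb4 : 4 < b) (hbε : 4 / ε < b)
    (hC : ∀ T : ℝ, T0 ≤ T → ∃ S : ℝ, T - 1 / 2 ≤ S ∧ S ≤ 2 * T ∧ GV S 1 (2 * b) ≤ C) :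
    ∀ᶠ X : ℝ in atTop, ∫ x in X..(2 * X), |Chebyshev.psi x - x| ≤ X ^ (1 + 1 / 2 + ε) := by
  have hb0 : 0 < b := by linarith
  have hb2 : 0 < 1 / 2 - 2 / b := by
    have : 2 / b < 1 / 2 := by
      rw [div_lt_div_iff₀ hb0 (by norm_num)]; linarith
    linarith
  have hb3 : 0 < ε / 2 - 2 / b := by
    rw [div_lt_iff₀ hε] at hbε
    have : 2 / b < ε / 2 := by
      rw [div_lt_div_iff₀ hb0 (by norm_num)]; linarith
    linarith
  have t1 : Tendsto (fun X : ℝ => (2 * X) ^ (1 / b)) atTop atTop :=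
    (tendsto_rpow_atTop (by positivity : 0 < 1 / b)).comp
      (tendsto_id.const_mul_atTop (by norm_num : (0:ℝ) < 2))
  have t2 : Tendsto (fun X : ℝ => X ^ (ε / 2)) atTop atTop := tendsto_rpow_atTop (by positivity)
  have t3 : ∀ᶠ X : ℝ in atTop, ‖Real.log X‖ ≤ 1 * ‖X ^ (ε / 4)‖ :=
    (isLittleO_log_rpow_atTop (by positivity)).bound one_pos
  filter_upwards [t1.eventually_ge_atTop (max T0 4),
    t2.eventually_ge_atTop (6 * Real.sqrt (|C| + 1) + 28), t3,
    eventually_ge_atTop 2, (tendsto_rpow_atTop hb2).eventually_ge_atTop 2,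
    (tendsto_rpow_atTop hb3).eventually_ge_atTop 2] with X h1 h2 h3 h4 h5 h6
  obtain ⟨T, hT⟩ : ∃ T : ℝ, T = (2 * X) ^ (1 / b) := ⟨_, rfl⟩
  rw [← hT] at h1
  have hX0 : 0 < X := by linarith
  have hX1 : 1 ≤ X := by linarith
  have hT0 : T0 ≤ T := (le_max_left _ _).trans h1
  have hT4 : 4 ≤ T := (le_max_right _ _).trans h1
  obtain ⟨S, hS1, hS2, hG⟩ := hC T hT0
  have hTpos : 0 < T := by linarith
  have hTb : T ^ b = 2 * X := by
    rw [hT, ← Real.rpow_mul (by positivity), one_div, inv_mul_cancel₀ hb0.ne', Real.rpow_one]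
  have h2X : 2 * X ≤ X ^ (2:ℝ) := by
    rw [Real.rpow_two]; nlinarith
  have hTX : T ≤ X ^ (2 / b) := by
    rw [hT]
    calc (2 * X) ^ (1 / b) ≤ (X ^ (2:ℝ)) ^ (1 / b) := Real.rpow_le_rpow (by positivity) h2X (by positivity)
      _ = X ^ (2 / b) := by
          rw [← Real.rpow_mul hX0.le]; congr 1; ring
  have hS12 : S ≤ X ^ (1 / 2 : ℝ) := by
    calc S ≤ 2 * T := hS2
      _ ≤ X ^ (1 / 2 - 2 / b) * X ^ (2 / b) := by gcongr
      _ = X ^ (1 / 2 : ℝ) := by
          rw [← Real.rpow_add hX0]; congr 1; ring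
  have hSε : S ≤ X ^ (ε / 2) := by
    calc S ≤ 2 * T := hS2
      _ ≤ X ^ (ε / 2 - 2 / b) * X ^ (2 / b) := by gcongr
      _ = X ^ (ε / 2) := by
          rw [← Real.rpow_add hX0]; congr 1; ring
  have hSlow : T / 2 ≤ S := by linarith
  have hS2' : 2 ≤ S := by linarith
  have hS0 : 0 < S := by linarith
  refine est hε hS2' h4 hS12 hSε h2 h3 (le_trans ?_ hG)
  rw [GV_eq, Real.rpow_one]
  have hL0 : 0 < Real.log S := Real.log_pos (by linarith)
  apply mul_le_mul_of_nonneg_left _ (by positivity)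
  have hSX : 2 * X ≤ S ^ (2 * b) := by
    calc 2 * X = T ^ b := hTb.symm
      _ ≤ ((T / 2) ^ (2 : ℝ)) ^ b := by
          apply Real.rpow_le_rpow hTpos.le _ hb0.le
          rw [Real.rpow_two]
          nlinarith
      _ = (T / 2) ^ (2 * b) := by rw [← Real.rpow_mul (by positivity)]
      _ ≤ S ^ (2 * b) := Real.rpow_le_rpow (by positivity) hSlow (by positivity)
  have hSleX : S ≤ 2 * X := by
    have : X ^ (1 / 2 : ℝ) ≤ X ^ (1:ℝ) := Real.rpow_le_rpow_of_exponent_le hX1 (by norm_num)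
    rw [Real.rpow_one] at this
    linarith
  unfold IV
  refine intervalIntegral.integral_mono_interval le_rfl hSleX hSX ?_ ?_
  · exact Filter.Eventually.of_forall fun u => by positivity
  · exact D_int2 (by linarith) hS0 (hSleX.trans hSX)

end RhaL

open RhaL in
theorem rha : S_RHA := by
  intro h
  rw [Pool.Agent.N799.LW.rh_free, Pool.Agent.N799.LW.crit (θ := 1 / 2) (κ := 0) le_rfl (by norm_num)
    le_rfl (by norm_num)]
  intro ε hε
  obtain ⟨b, hb⟩ : ∃ b : ℝ, b = max 4 (4 / ε) + 1 := ⟨_, rfl⟩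
  have hb4 : 4 < b := by
    rw [hb]
    linarith [le_max_left 4 (4 / ε)]
  have hbε : 4 / ε < b := by
    rw [hb]
    linarith [le_max_right 4 (4 / ε)]
  obtain ⟨C, T0, hC⟩ := h (2 * b) (by linarith)
  have h1 := upper hε hb4 hbε hC
  refine Eventually.frequently ?_
  filter_upwards [h1] with X hX
  unfold Pool.Agent.N799.LW.WE
  rw [Real.rpow_zero, div_one, ← two_mul]
  exact hX

end H479.X
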