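import Pool.Agent.H479.X.Upr
import Pool.Agent.H479.X.Asm
import Pool.Agent.H479.X.Bdr
import Pool.Agent.H479.X.Low2
import Pool.Agent.H479.X.Chg
import Pool.Agent.H479.X.Gi
import Pool.Agent.H479.X.Lov
import Pool.Agent.H479.X.Hiv
import Pool.Agent.H479.X.Rha
import Pool.Agent.H479.X.Bd1
import Pool.Agent.H479.X.Bd0
import Pool.Agent.H479.X.Fub
import Pool.Agent.H479.X.Avl
import Pool.Agent.H479.X.Ces
import Pool.Agent.H479.X.Cnt
import Pool.Agent.H479.X.Una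
import Pool.Agent.H479.X.Mv
import Pool.Agent.H479.X.Aa2

open MeasureTheory Filter Topology

namespace H479.X

open H479.V (OS TS efl TS_of_OS TS_of_Aa Aa_of_OS RH_of_OS)
open Pool.Agent.Y744 TH803TW

theorem lov' : S_LOV := lov chg gi

theorem hiv' : S_HIV := hiv chg gi

theorem bd : S_BD := bd_of bd1 bd0 efl bdr

theorem OS_of_Up' (h : Up) : OS :=
  OS_of_Up lov' gi rha bd low2 fub (avl fub gi) ces con una h

theorem As_of_TS' (h : TS) : As := As_of_TS lov' hiv' gi h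

theorem As_of_Up (h : Up) : As := As_of_TS' (TS_of_OS (OS_of_Up' h))

theorem Up_of_As (h : As) : Up := by
  intro u v hu huv ε hε
  filter_upwards [(tendsto_order.1 (h u v hu huv)).2 (v - u + ε) (by linarith)] with T hT
  exact hT.le

theorem aa2' (hR : UpR) (hAs : As) (c ε : ℝ) (hε : 0 < ε) : ∀ᶠ L in atTop,
    volume {p : ℝ × ℝ | 0 ≤ p.1 ∧ p.1 ≤ L ∧ ε * p.1 ≤ p.2 ∧ p.2 ≤ (1 - ε) * p.1 ∧
      ε < |V (Real.exp p.1) (Real.exp p.2) / (Real.exp p.2 * (p.1 - p.2 - c)) - 1|} ≤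
        ENNReal.ofReal (ε * L ^ 2) :=
  aa2 mv (fun u v ε hu huv hε => aal_ge mv hR hAs u v ε hu huv hε) c ε hε

end H479.X
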