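import Pool.Agent.H479.V.Stm

/-!
# The variance of the primes in short intervals and its upper half: interface
-/

open MeasureTheory Filter Topology

namespace H479.X

open H479.V (ft EW RP S_EFL S_DG S_APP)
open Pool.Agent.N804 (SC CT)
open Pool.Agent.N804.PV (GV ph)

noncomputable section

/-- `ψ(x; H)`: the sum of `Λ(n)` over `x - H/2 ≤ n ≤ x + H/2` -/
def psiC (x H : ℝ) : ℝ :=
  ∑ n ∈ Finset.Icc ⌈x - H / 2⌉₊ ⌊x + H / 2⌋₊, ArithmeticFunction.vonMangoldt n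

/-- the mean square of `ψ(x; H) - H` over `X ≤ x ≤ 2X` -/
def V (X H : ℝ) : ℝ := 1 / X * ∫ x in X..(2 * X), (psiC x H - H) ^ 2

/-- the normalised variance `V(X; X/T) / ((X/T) log T)`, averaged over `T^u ≤ X ≤ T^v` -/
def W (T u v : ℝ) : ℝ :=
  1 / Real.log T * ∫ X in (T ^ u)..(T ^ v), V X (X / T) / (X / T * Real.log T) / X

/-- the average over `[T - 1/2, 2T - 1/2]` -/
def AV (T : ℝ) (f : ℝ → ℝ) : ℝ := 1 / T * ∫ S in (T - 1 / 2)..(2 * T - 1 / 2), f S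

/-- the upper half, in the mean along the lines `X / H = T` -/
def Up : Prop := ∀ u v : ℝ, 1 ≤ u → u < v → ∀ ε : ℝ, 0 < ε → ∀ᶠ T in atTop, W T u v ≤ v - u + ε

/-- the asymptotic formula, in the mean along the lines `X / H = T` -/
def As : Prop := ∀ u v : ℝ, 1 ≤ u → u < v → Tendsto (fun T => W T u v) atTop (𝓝 (v - u))

/-- the upper half of the asymptotic formula, for all lengths up to `X ^ (1 - ε)` -/
def UpP : Prop := ∀ ε : ℝ, 0 < ε → ∀ᶠ X in atTop, ∀ H : ℝ, 1 ≤ H → H ≤ X ^ (1 - ε) →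
  V X H ≤ (1 + ε) * (H * Real.log (X / H))

/-- CHG: change of variables -/
def S_CHG : Prop := ∀ T u v : ℝ, 2 ≤ T → 1 ≤ u → u ≤ v →
  W T u v = AV T (fun S => S / Real.log T ^ 2 * ∫ x in (T ^ (u - 1) * S)..(T ^ (v - 1) * S),
    (Chebyshev.psi (x + x / S) - Chebyshev.psi x - x / S) ^ 2 / x ^ 2)

/-- GI: the variance is a locally integrable function of `T` -/
def S_GI : Prop := ∀ a b R R' : ℝ, 0 ≤ a → a ≤ b → 1 < R → R ≤ R' →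
  IntervalIntegrable (fun S => GV S a b) volume R R'

/-- LOV: lower bound for `W` by averages of `GV` -/
def S_LOV : Prop := ∀ u v a b ε : ℝ, 1 ≤ u → (u < a ∨ (u = 1 ∧ a = 1)) → a < b → b < v → 0 < ε →
  ∀ᶠ T in atTop, (1 - ε) * AV T (fun S => GV S a b) ≤ W T u v

/-- HIV: upper bound for `W` by averages of `GV` -/
def S_HIV : Prop := ∀ u v a b ε : ℝ, 1 ≤ a → (a < u ∨ (a = 1 ∧ u = 1)) → u < v → v < b → 0 < ε →
  ∀ᶠ T in atTop, W T u v ≤ (1 + ε) * AV T (fun S => GV S a b)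

/-- RHA: the Riemann hypothesis from a variance that is bounded somewhere in `[T - 1/2, 2T]` -/
def S_RHA : Prop := (∀ b : ℝ, 1 < b → ∃ C T0 : ℝ, ∀ T : ℝ, T0 ≤ T → ∃ S : ℝ, T - 1 / 2 ≤ S ∧
  S ≤ 2 * T ∧ GV S 1 b ≤ C) → RiemannHypothesis

/-- BDR: the pair functional is bounded -/
def S_BDR : Prop := RiemannHypothesis → ∀ w : ℝ → ℝ, EW w → ∃ C T0 : ℝ, ∀ T : ℝ, T0 ≤ T →
  |RP w T| ≤ C

/-- BD1: the variance for `T ≤ x ≤ T^b` -/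
def S_BD1 : Prop := RiemannHypothesis → S_EFL → S_BDR → ∀ b : ℝ, 1 < b → ∃ C T0 : ℝ, ∀ T : ℝ,
  T0 ≤ T → ∫ α in (1 : ℝ)..b, ft T α ≤ C

/-- BD0: the variance for `x ≤ T` -/
def S_BD0 : Prop := ∃ C T0 : ℝ, ∀ T : ℝ, T0 ≤ T → GV T 0 1 ≤ C

/-- BD: on the Riemann hypothesis the variance is bounded -/
def S_BD : Prop := RiemannHypothesis → ∀ b : ℝ, 1 < b → ∃ C T0 : ℝ, ∀ T : ℝ, T0 ≤ T → GV T 0 b ≤ C

/-- LOW2: the lower bound in the mean, from the diagonal -/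
def S_LOW2 : Prop := RiemannHypothesis → S_EFL → S_DG → S_APP →
  (∀ b : ℝ, 1 < b → ∃ C T0 : ℝ, ∀ T : ℝ, T0 ≤ T → ∫ α in (1 : ℝ)..b, ft T α ≤ C) →
  ∀ b ε : ℝ, 1 < b → 0 < ε → ∀ᶠ T in atTop,
    -(1 / 6) - ε ≤ ∫ t in (1 : ℝ)..b, ((∫ α in (1 : ℝ)..t, ft T α) - (t - 1))

/-- the averaged density -/
def fA (T α : ℝ) : ℝ := AV T (fun S => ft S α)

/-- FUB: properties of the averaged density -/
def S_FUB : Prop := ∀ T : ℝ, 2 ≤ T → (∀ α, 0 ≤ fA T α) ∧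
  ∀ a b : ℝ, 0 ≤ a → a ≤ b → IntervalIntegrable (fA T) volume a b ∧
    ∫ α in a..b, fA T α = AV T (fun S => GV S a b)

/-- AVL: the averaged lower bound from the lower bound -/
def S_AVL : Prop := (∀ b ε : ℝ, 1 < b → 0 < ε → ∀ᶠ T in atTop,
    -(1 / 6) - ε ≤ ∫ t in (1 : ℝ)..b, ((∫ α in (1 : ℝ)..t, ft T α) - (t - 1))) →
  ∀ b ε : ℝ, 1 < b → 0 < ε → ∀ᶠ T in atTop,
    -(1 / 6) - ε ≤ ∫ t in (1 : ℝ)..b, ((∫ α in (1 : ℝ)..t, fA T α) - (t - 1))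

/-- CES: from dyadic averages to short averages -/
def S_CES : Prop := ∀ (g : ℝ → ℝ) (c C T0 : ℝ), 1 < T0 → (∀ T, T0 ≤ T → 0 ≤ g T ∧ g T ≤ C) →
  (∀ R R' : ℝ, T0 ≤ R → R ≤ R' → IntervalIntegrable g volume R R') →
  Tendsto (fun T => AV T g) atTop (𝓝 c) → ∀ η : ℝ, 0 < η → η < 1 →
  Tendsto (fun R => 1 / (R - (1 - η) * R) * ∫ S in ((1 - η) * R)..R, g S) atTop (𝓝 c)

/-- CON: the variance is nearly continuous in `T` -/
def S_CON : Prop := ∀ a b C T0 : ℝ, 1 ≤ a → a < b → 0 < C →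
  (∀ Q : ℝ, T0 ≤ Q → GV Q 0 (b + 1) ≤ C) → ∀ ε' η : ℝ, 0 < ε' → 0 < η → η ≤ 1 / 4 →
  ∀ᶠ R in atTop, ∀ S : ℝ, (1 - η) * R ≤ S → S ≤ R →
    GV R a b ≤ (1 + Real.sqrt η) * (1 + 2 * η) * GV S a (b + ε') + 20 * C * Real.sqrt η

/-- UNA: the upper half for every `T` -/
def S_UNA : Prop := S_GI → S_CES → S_CON → (∀ b : ℝ, 1 < b → ∃ C T0 : ℝ, ∀ T : ℝ, T0 ≤ T → GV T 0 b ≤ C) →
  (∀ a b : ℝ, 1 ≤ a → a < b → Tendsto (fun T => AV T (fun S => GV S a b)) atTop (𝓝 (b - a))) →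
  ∀ u v : ℝ, 1 ≤ u → u < v → ∀ ε : ℝ, 0 < ε → ∀ᶠ T in atTop, GV T u v ≤ v - u + ε

/-- UPW: from all pairs to the mean -/
def S_UPW : Prop := UpP → Up

/-- MV: the mean square is a measurable function of `X` and `H` -/
def S_MV : Prop := Measurable fun p : ℝ × ℝ => V p.1 p.2

/-- AAL: almost all points of the lines `X / H = T` -/
def S_AAL : Prop := S_MV → UpP → As → ∀ u v ε : ℝ, 1 ≤ u → u < v → 0 < ε → ∀ᶠ T in atTop,
  volume {x : ℝ | u * Real.log T ≤ x ∧ x ≤ v * Real.log T ∧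
    ε < |V (Real.exp x) (Real.exp x / T) / (Real.exp x / T * Real.log T) - 1|} ≤
      ENNReal.ofReal (ε * Real.log T)

/-- AA2: almost all pairs `(log X, log H)` -/
def S_AA2 : Prop := S_MV → (∀ u v ε : ℝ, 1 ≤ u → u < v → 0 < ε → ∀ᶠ T in atTop,
  volume {x : ℝ | u * Real.log T ≤ x ∧ x ≤ v * Real.log T ∧
    ε < |V (Real.exp x) (Real.exp x / T) / (Real.exp x / T * Real.log T) - 1|} ≤
      ENNReal.ofReal (ε * Real.log T)) → ∀ c ε : ℝ, 0 < ε → ∀ᶠ L in atTop,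
  volume {p : ℝ × ℝ | 0 ≤ p.1 ∧ p.1 ≤ L ∧ ε * p.1 ≤ p.2 ∧ p.2 ≤ (1 - ε) * p.1 ∧
    ε < |V (Real.exp p.1) (Real.exp p.2) / (Real.exp p.2 * (p.1 - p.2 - c)) - 1|} ≤
      ENNReal.ofReal (ε * L ^ 2)

end

end H479.X
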