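import Pool.Agent.H479.X.Stm
import Pool.Agent.H479.V.Gvf

/-! # the upper half for every T (proved by helper685) -/


open MeasureTheory Filter Topology

namespace H479.X

open H479.V (ft EW RP S_EFL S_DG S_APP gvf ft_ii ft_nonneg)
open Pool.Agent.N804 (SC CT)
open Pool.Agent.N804.PV (GV ph DT)

namespace UNA

lemma GV_nonneg {T u v : ℝ} (hT : 1 < T) (hu : 0 ≤ u) (huv : u ≤ v) : 0 ≤ GV T u v := by
  rw [gvf T u v hT hu huv]
  exact intervalIntegral.integral_nonneg huv fun α _ => ft_nonneg hT α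

lemma GV_mono {T u v w : ℝ} (hT : 1 < T) (hu : 0 ≤ u) (huv : u ≤ v) (hvw : v ≤ w) :
    GV T u v ≤ GV T 0 w := by
  rw [gvf T u v hT hu huv, gvf T 0 w hT le_rfl (by linarith)]
  exact intervalIntegral.integral_mono_interval hu huv hvw
    (Eventually.of_forall fun α => ft_nonneg hT α) (ft_ii hT _ _)

/-- averaging the inequality of `S_CON` -/
lemma avg {g : ℝ → ℝ} {G κ B R η : ℝ} (hR : 0 < R) (hη : 0 < η)
    (hg : IntervalIntegrable g volume ((1 - η) * R) R)
    (h : ∀ S : ℝ, (1 - η) * R ≤ S → S ≤ R → G ≤ κ * g S + B) :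
    G ≤ κ * (1 / (R - (1 - η) * R) * ∫ S in ((1 - η) * R)..R, g S) + B := by
  have hle : (1 - η) * R ≤ R := by nlinarith
  have hd : 0 < R - (1 - η) * R := by nlinarith
  have h1 : ∫ _ in ((1 - η) * R)..R, G ≤ ∫ S in ((1 - η) * R)..R, (κ * g S + B) := by
    refine intervalIntegral.integral_mono_on hle intervalIntegrable_const
      ((hg.const_mul κ).add intervalIntegrable_const) fun S hS => h S hS.1 hS.2
  rw [intervalIntegral.integral_const, intervalIntegral.integral_add (hg.const_mul κ)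
    intervalIntegrable_const, intervalIntegral.integral_const_mul,
    intervalIntegral.integral_const, smul_eq_mul, smul_eq_mul] at h1
  have h2 : (R - (1 - η) * R) * G ≤ (R - (1 - η) * R) *
      (κ * (1 / (R - (1 - η) * R) * ∫ S in ((1 - η) * R)..R, g S) + B) := by
    have h3 : (R - (1 - η) * R) *
      (κ * (1 / (R - (1 - η) * R) * ∫ S in ((1 - η) * R)..R, g S) + B) =
        κ * (∫ S in ((1 - η) * R)..R, g S) + (R - (1 - η) * R) * B := by
      have h4 : ∀ d I : ℝ, 0 < d → d * (κ * (1 / d * I) + B) = κ * I + d * B := by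
        intro d I hd
        field_simp
      exact h4 _ _ hd
    rw [h3]
    exact h1
  exact le_of_mul_le_mul_left h2 hd

end UNA

open UNA in
theorem una : S_UNA := by
  intro hGI hCES hCON hB hA u v hu huv ε hε
  obtain ⟨C0, T00, hC0⟩ := hB (v + 1) (by linarith)
  obtain ⟨C, hCdef⟩ : ∃ C, C = max C0 1 := ⟨_, rfl⟩
  obtain ⟨T0, hTdef⟩ : ∃ T0, T0 = max T00 2 := ⟨_, rfl⟩
  have hC1 : 1 ≤ C := hCdef ▸ le_max_right _ _
  have hT2 : 2 ≤ T0 := hTdef ▸ le_max_right _ _
  have hC : ∀ T, T0 ≤ T → GV T 0 (v + 1) ≤ C := fun T hT =>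
    (hC0 T ((le_max_left _ _).trans (hTdef ▸ hT))).trans (hCdef ▸ le_max_left _ _)
  have hden : 0 < 5 + 3 * (v - u) + 20 * C := by nlinarith
  obtain ⟨s, hsdef⟩ : ∃ s, s = min (1 / 2) (ε / (5 + 3 * (v - u) + 20 * C)) := ⟨_, rfl⟩
  have hs0 : 0 < s := by
    rw [hsdef]
    exact lt_min (by norm_num) (by positivity)
  have hs2 : s ≤ 1 / 2 := hsdef ▸ min_le_left _ _
  have hse : s * (5 + 3 * (v - u) + 20 * C) ≤ ε := by
    have := hsdef ▸ min_le_right (1 / 2) (ε / (5 + 3 * (v - u) + 20 * C))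
    rwa [le_div_iff₀ hden] at this
  have hη0 : 0 < s ^ 2 := by positivity
  have hη4 : s ^ 2 ≤ 1 / 4 := by nlinarith
  have hsq : Real.sqrt (s ^ 2) = s := Real.sqrt_sq hs0.le
  -- the function
  have hg : ∀ T, T0 ≤ T → 0 ≤ GV T u (v + s) ∧ GV T u (v + s) ≤ C := fun T hT =>
    ⟨GV_nonneg (by linarith) (by linarith) (by linarith),
      (GV_mono (by linarith) (by linarith) (by linarith) (by linarith)).trans (hC T hT)⟩
  have hgi : ∀ R R' : ℝ, T0 ≤ R → R ≤ R' → IntervalIntegrable (fun S => GV S u (v + s)) volume R R' :=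
    fun R R' h1 h2 => hGI u (v + s) R R' (by linarith) (by linarith) (by linarith) h2
  have hlim := hCES (fun S => GV S u (v + s)) (v + s - u) C T0 (by linarith) hg hgi
    (hA u (v + s) hu (by linarith)) (s ^ 2) hη0 (by linarith)
  have hev1 : ∀ᶠ R in atTop, 1 / (R - (1 - s ^ 2) * R) *
      ∫ S in ((1 - s ^ 2) * R)..R, GV S u (v + s) < v + s - u + s ^ 2 :=
    hlim.eventually_lt_const (by linarith)
  have hev2 := hCON u v C T0 hu huv (by linarith) hC s (s ^ 2) hs0 hη0 hη4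
  filter_upwards [hev1, hev2, eventually_ge_atTop (2 * T0)] with R h1 h2 h3
  have hR0 : 0 < R := by linarith
  have hR1 : T0 ≤ (1 - s ^ 2) * R := by nlinarith
  have h4 := avg (g := fun S => GV S u (v + s)) (G := GV R u v)
    (κ := (1 + Real.sqrt (s ^ 2)) * (1 + 2 * s ^ 2)) (B := 20 * C * Real.sqrt (s ^ 2)) hR0 hη0
    (hgi _ _ hR1 (by nlinarith)) h2
  rw [hsq] at h4
  have hκ : 0 < (1 + s) * (1 + 2 * s ^ 2) := by positivity
  have h5 := mul_le_mul_of_nonneg_left h1.le hκ.le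
  have h6 : (1 + s) * (1 + 2 * s ^ 2) ≤ 1 + 3 * s := by nlinarith
  have h7 : v + s - u + s ^ 2 ≤ (v - u) + 2 * s := by nlinarith
  have h8 : (1 + s) * (1 + 2 * s ^ 2) * (v + s - u + s ^ 2) ≤ (1 + 3 * s) * ((v - u) + 2 * s) :=
    mul_le_mul h6 h7 (by nlinarith) (by positivity)
  have h9 : (1 + 3 * s) * ((v - u) + 2 * s) ≤ (v - u) + s * (5 + 3 * (v - u)) := by nlinarith
  nlinarith

end H479.X
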