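import Pool.Agent.H479.X.Aal

/-! # The upper half for lengths between `X ^ ε` and `X ^ (1 - ε)`, and a bound for short lengths -/

open MeasureTheory Filter Topology

namespace H479.X

noncomputable section

/-- the upper half of the asymptotic formula, for lengths between `X ^ ε` and `X ^ (1 - ε)` -/
def UpR : Prop := ∀ ε : ℝ, 0 < ε → ∀ᶠ X in atTop, ∀ H : ℝ, X ^ ε ≤ H → H ≤ X ^ (1 - ε) →
  V X H ≤ (1 + ε) * (H * Real.log (X / H))

/-- a bound of the right order for the lengths up to a small power of `X` -/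
def Sm : Prop := ∃ C δ : ℝ, 0 < δ ∧ ∀ᶠ X in atTop, ∀ H : ℝ, 1 ≤ H → H ≤ X ^ δ →
  V X H ≤ C * (H * Real.log X)

namespace UPR

lemma pt_main {ε T v m X : ℝ} (hε : 0 < ε) (hε1 : ε < 1) (hεv : ε * v ≤ 1) (hεm : ε * m ≤ m - 1)
    (hT : 1 < T) (hX1 : T ^ m ≤ X) (hX2 : X ≤ T ^ v)
    (h : ∀ H : ℝ, X ^ ε ≤ H → H ≤ X ^ (1 - ε) → V X H ≤ (1 + ε) * (H * Real.log (X / H))) :
    V X (X / T) / (X / T * Real.log T) ≤ 1 + ε := by
  have hT0 : 0 < T := by linarith
  have hX0 : 0 < X := (Real.rpow_pos_of_pos hT0 m).trans_le hX1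
  have hlog : 0 < Real.log T := Real.log_pos hT
  have h1 : X ^ ε ≤ X / T := by
    rw [le_div_iff₀ hT0]
    have h2 : T ≤ X ^ (1 - ε) := by
      calc T = T ^ (1 : ℝ) := (Real.rpow_one T).symm
        _ ≤ T ^ (m * (1 - ε)) := Real.rpow_le_rpow_of_exponent_le hT.le (by linarith)
        _ = (T ^ m) ^ (1 - ε) := Real.rpow_mul hT0.le _ _
        _ ≤ X ^ (1 - ε) := Real.rpow_le_rpow (by positivity) hX1 (by linarith)
    calc X ^ ε * T ≤ X ^ ε * X ^ (1 - ε) := by gcongr
      _ = X := by rw [← Real.rpow_add hX0, add_sub_cancel, Real.rpow_one]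
  have h2 : X ^ ε ≤ T := by
    calc X ^ ε ≤ (T ^ v) ^ ε := Real.rpow_le_rpow hX0.le hX2 hε.le
      _ = T ^ (v * ε) := (Real.rpow_mul hT0.le v ε).symm
      _ ≤ T ^ (1:ℝ) := Real.rpow_le_rpow_of_exponent_le hT.le (by linarith)
      _ = T := Real.rpow_one T
  have h3 : X / T ≤ X ^ (1 - ε) := by
    rw [Real.rpow_sub hX0, Real.rpow_one]
    exact div_le_div_of_nonneg_left hX0.le (Real.rpow_pos_of_pos hX0 _) h2
  have h4 := h (X / T) h1 h3
  have h5 : X / (X / T) = T := by field_simp
  rw [h5] at h4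
  have h6 : 0 < X / T * Real.log T := by positivity
  rw [div_le_iff₀ h6]
  exact h4

lemma pt_small {C δ T m X : ℝ} (hC : 0 ≤ C) (hmδ : m - 1 ≤ δ) (hT : 1 < T)
    (hX1 : T ≤ X) (hX2 : X ≤ T ^ m)
    (h : ∀ H : ℝ, 1 ≤ H → H ≤ X ^ δ → V X H ≤ C * (H * Real.log X)) :
    V X (X / T) / (X / T * Real.log T) ≤ C * m := by
  have hT0 : 0 < T := by linarith
  have hX0 : 0 < X := by linarith
  have hm : 1 ≤ m := by
    have := hX1.trans hX2
    by_contra hcon
    push Not at hcon
    have h2 : T ^ m < T ^ (1 : ℝ) := Real.rpow_lt_rpow_of_exponent_lt hT hcon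
    rw [Real.rpow_one] at h2
    linarith
  have hlog : 0 < Real.log T := Real.log_pos hT
  have h1 : 1 ≤ X / T := (one_le_div hT0).2 hX1
  have h3 : X / T ≤ X ^ δ := by
    calc X / T ≤ T ^ m / T := by gcongr
      _ = T ^ (m - 1) := by rw [Real.rpow_sub hT0, Real.rpow_one]
      _ ≤ T ^ δ := Real.rpow_le_rpow_of_exponent_le hT.le hmδ
      _ ≤ X ^ δ := Real.rpow_le_rpow hT0.le hX1 (by linarith)
  have h4 := h (X / T) h1 h3
  have h6 : 0 < X / T * Real.log T := by positivity
  have h7 : Real.log X ≤ m * Real.log T := by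
    rw [← Real.log_rpow hT0]
    exact Real.log_le_log hX0 hX2
  rw [div_le_iff₀ h6]
  calc V X (X / T) ≤ C * (X / T * Real.log X) := h4
    _ ≤ C * (X / T * (m * Real.log T)) := by gcongr
    _ = C * m * (X / T * Real.log T) := by ring

lemma int_le {T u v M : ℝ} (hT : 1 < T) (huv : u ≤ v)
    (hint : IntervalIntegrable (fun X => V X (X / T) / (X / T * Real.log T) / X) volume
      (T ^ u) (T ^ v))
    (h : ∀ X : ℝ, T ^ u ≤ X → X ≤ T ^ v → V X (X / T) / (X / T * Real.log T) ≤ M) :
    ∫ X in (T ^ u)..(T ^ v), V X (X / T) / (X / T * Real.log T) / X ≤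
      M * ((v - u) * Real.log T) := by
  have hT0 : 0 < T := by linarith
  have hTv : T ^ u ≤ T ^ v := Real.rpow_le_rpow_of_exponent_le hT.le huv
  have hu0 : 0 < T ^ u := Real.rpow_pos_of_pos hT0 u
  have h0 : (0:ℝ) ∉ Set.uIcc (T ^ u) (T ^ v) := by
    rw [Set.uIcc_of_le hTv]
    rintro ⟨h1, -⟩
    linarith
  have hint2 : IntervalIntegrable (fun X : ℝ => M * X⁻¹) volume (T ^ u) (T ^ v) := by
    refine IntervalIntegrable.const_mul ?_ _
    exact intervalIntegral.intervalIntegrable_inv (fun x hx h' => h0 (h' ▸ hx)) continuousOn_id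
  have h1 : ∫ X in (T ^ u)..(T ^ v), V X (X / T) / (X / T * Real.log T) / X ≤
      ∫ X in (T ^ u)..(T ^ v), M * X⁻¹ := by
    refine intervalIntegral.integral_mono_on hTv hint hint2 ?_
    intro X hX
    rw [div_eq_mul_inv _ X]
    exact mul_le_mul_of_nonneg_right (h X hX.1 hX.2) (inv_nonneg.2 (hu0.le.trans hX.1))
  rwa [intervalIntegral.integral_const_mul, integral_inv h0, ← Real.rpow_sub hT0,
    Real.log_rpow hT0] at h1

end UPR

open UPR in
theorem upr (hR : UpR) (hS : Sm) : Up := by
  intro u v hu huv ε hε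
  obtain ⟨C, δ, hδ, hC⟩ := hS
  have hv : 1 < v := by linarith
  -- the splitting point
  obtain ⟨m, hm1, hm2, hmv, hmδ, hmε⟩ : ∃ m : ℝ, 1 < m ∧ m ≤ 2 ∧ m < v ∧ m - 1 ≤ δ ∧
      2 * |C| * (m - 1) ≤ ε / 2 := by
    refine ⟨1 + min (min 1 ((v - 1) / 2)) (min δ (ε / (4 * (|C| + 1)))), ?_, ?_, ?_, ?_, ?_⟩
    · have : 0 < min (min 1 ((v - 1) / 2)) (min δ (ε / (4 * (|C| + 1)))) :=
        lt_min (lt_min one_pos (by linarith)) (lt_min hδ (by positivity))
      linarith
    · have : min (min 1 ((v - 1) / 2)) (min δ (ε / (4 * (|C| + 1)))) ≤ 1 :=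
        (min_le_left _ _).trans (min_le_left _ _)
      linarith
    · have : min (min 1 ((v - 1) / 2)) (min δ (ε / (4 * (|C| + 1)))) ≤ (v - 1) / 2 :=
        (min_le_left _ _).trans (min_le_right _ _)
      linarith
    · have : min (min 1 ((v - 1) / 2)) (min δ (ε / (4 * (|C| + 1)))) ≤ δ :=
        (min_le_right _ _).trans (min_le_left _ _)
      linarith
    · have h1 : min (min 1 ((v - 1) / 2)) (min δ (ε / (4 * (|C| + 1)))) ≤ ε / (4 * (|C| + 1)) :=
        (min_le_right _ _).trans (min_le_right _ _)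
      have h2 : 0 ≤ |C| := abs_nonneg C
      have h3 : 2 * |C| * (1 + min (min 1 ((v - 1) / 2)) (min δ (ε / (4 * (|C| + 1)))) - 1) ≤
          2 * (|C| + 1) * (ε / (4 * (|C| + 1))) := by
        rw [add_sub_cancel_left]
        have h4 : 0 ≤ ε / (4 * (|C| + 1)) := by positivity
        calc 2 * |C| * min (min 1 ((v - 1) / 2)) (min δ (ε / (4 * (|C| + 1)))) ≤
              2 * |C| * (ε / (4 * (|C| + 1))) := by gcongr
          _ ≤ 2 * (|C| + 1) * (ε / (4 * (|C| + 1))) := by gcongr; linarith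
      refine h3.trans (le_of_eq ?_)
      field_simp
      ring
  obtain ⟨η, hη, hη1, hηv, hηm, hηε⟩ : ∃ η : ℝ, 0 < η ∧ η < 1 ∧ η * v ≤ 1 ∧ η * m ≤ m - 1 ∧
      η * (v - u) ≤ ε / 2 := by
    have hvu : 0 < v - u := by linarith
    have hv0 : 0 < v := by linarith
    have hm0 : 0 < m := by linarith
    have hmm : 0 < m - 1 := by linarith
    refine ⟨min (min (1 / 2) (1 / v)) (min ((m - 1) / m) (ε / (2 * (v - u)))), ?_, ?_, ?_, ?_, ?_⟩
    · exact lt_min (lt_min (by norm_num) (by positivity)) (lt_min (by positivity) (by positivity))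
    · exact ((min_le_left _ _).trans (min_le_left _ _)).trans_lt (by norm_num)
    · calc _ ≤ 1 / v * v := by
            gcongr
            exact (min_le_left _ _).trans (min_le_right _ _)
        _ = 1 := by field_simp
    · calc _ ≤ (m - 1) / m * m := by
            gcongr
            exact (min_le_right _ _).trans (min_le_left _ _)
        _ = m - 1 := by field_simp
    · calc _ ≤ ε / (2 * (v - u)) * (v - u) := by
            gcongr
            exact (min_le_right _ _).trans (min_le_right _ _)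
        _ = ε / 2 := by field_simp
  obtain ⟨X0, hX0⟩ := eventually_atTop.1 (hR _ hη)
  obtain ⟨X1, hX1⟩ := eventually_atTop.1 hC
  filter_upwards [eventually_ge_atTop X0, eventually_ge_atTop X1, eventually_gt_atTop (1:ℝ)] with
    T hT0 hT1 hT
  have hTp : 0 < T := by linarith
  have hlog : 0 < Real.log T := Real.log_pos hT
  have hTu : ∀ a : ℝ, 1 ≤ a → T ≤ T ^ a := fun a ha => by
    calc T = T ^ (1:ℝ) := (Real.rpow_one T).symm
      _ ≤ T ^ a := Real.rpow_le_rpow_of_exponent_le hT.le ha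
  have main : ∀ a : ℝ, m ≤ a → ∀ X : ℝ, T ^ a ≤ X → X ≤ T ^ v →
      V X (X / T) / (X / T * Real.log T) ≤ 1 + η := by
    intro a ha X h1 h2
    have h3 : T ^ m ≤ X := (Real.rpow_le_rpow_of_exponent_le hT.le ha).trans h1
    exact pt_main hη hη1 hηv hηm hT h3 h2 (hX0 X (hT0.trans ((hTu m hm1.le).trans h3)))
  have small : ∀ X : ℝ, T ^ u ≤ X → X ≤ T ^ m →
      V X (X / T) / (X / T * Real.log T) ≤ 2 * |C| := by
    intro X h1 h2
    have h3 : T ≤ X := (hTu u hu).trans h1
    have h4 := pt_small (C := |C|) (δ := δ) (abs_nonneg C) hmδ hT h3 h2 (fun H hH1 hH2 => ?_)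
    · refine h4.trans ?_
      have := abs_nonneg C
      nlinarith
    · refine (hX1 X (hT1.trans h3) H hH1 hH2).trans ?_
      have h5 : 0 ≤ H * Real.log X := mul_nonneg (by linarith) (Real.log_nonneg (by linarith))
      exact mul_le_mul_of_nonneg_right (le_abs_self C) h5
  have hTv : T ^ u ≤ T ^ v := Real.rpow_le_rpow_of_exponent_le hT.le huv.le
  unfold W
  by_cases hint : IntervalIntegrable (fun X => V X (X / T) / (X / T * Real.log T) / X) volume
      (T ^ u) (T ^ v)
  · have goal : ∫ X in (T ^ u)..(T ^ v), V X (X / T) / (X / T * Real.log T) / X ≤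
        (v - u + ε) * Real.log T := by
      rcases le_or_gt m u with hmu | hmu
      · have h1 := int_le hT huv.le hint (main u hmu)
        refine h1.trans ?_
        have h2 : (1 + η) * (v - u) ≤ v - u + ε := by nlinarith
        calc (1 + η) * ((v - u) * Real.log T) = (1 + η) * (v - u) * Real.log T := by ring
          _ ≤ _ := by gcongr
      · have hTm1 : T ^ u ≤ T ^ m := Real.rpow_le_rpow_of_exponent_le hT.le hmu.le
        have hTm2 : T ^ m ≤ T ^ v := Real.rpow_le_rpow_of_exponent_le hT.le hmv.le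
        have i1 : IntervalIntegrable (fun X => V X (X / T) / (X / T * Real.log T) / X) volume
            (T ^ u) (T ^ m) := by
          refine hint.mono_set ?_
          rw [Set.uIcc_of_le hTv, Set.uIcc_of_le hTm1]
          exact Set.Icc_subset_Icc_right hTm2
        have i2 : IntervalIntegrable (fun X => V X (X / T) / (X / T * Real.log T) / X) volume
            (T ^ m) (T ^ v) := by
          refine hint.mono_set ?_
          rw [Set.uIcc_of_le hTv, Set.uIcc_of_le hTm2]
          exact Set.Icc_subset_Icc_left hTm1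
        rw [← intervalIntegral.integral_add_adjacent_intervals i1 i2]
        have h1 := int_le hT hmu.le i1 small
        have h2 := int_le hT hmv.le i2 (main m le_rfl)
        have h3 : 2 * |C| * (m - u) ≤ ε / 2 := by
          refine le_trans ?_ hmε
          have := abs_nonneg C
          gcongr
        have h4 : (1 + η) * (v - m) ≤ v - u + ε / 2 := by
          have h5 : η * (v - m) ≤ η * (v - u) := by gcongr
          linarith
        calc _ ≤ 2 * |C| * ((m - u) * Real.log T) + (1 + η) * ((v - m) * Real.log T) :=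
              add_le_add h1 h2
          _ = (2 * |C| * (m - u) + (1 + η) * (v - m)) * Real.log T := by ring
          _ ≤ (v - u + ε) * Real.log T := by
              refine mul_le_mul_of_nonneg_right (by linarith) hlog.le
    rw [one_div, ← div_eq_inv_mul, div_le_iff₀ hlog]
    exact goal
  · rw [intervalIntegral.integral_undef hint, mul_zero]
    linarith

open UPR AAL in
theorem aal_gt (hMV : S_MV) (hR : UpR) (hAs : As) (u v ε : ℝ) (hu : 1 < u) (huv : u < v)
    (hε : 0 < ε) : ∀ᶠ T in atTop,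
    volume {x : ℝ | u * Real.log T ≤ x ∧ x ≤ v * Real.log T ∧
      ε < |V (Real.exp x) (Real.exp x / T) / (Real.exp x / T * Real.log T) - 1|} ≤
        ENNReal.ofReal (ε * Real.log T) := by
  have hv : 0 < v := by linarith
  have hu0 : 0 < u := by linarith
  -- the small parameter
  obtain ⟨η, hη, hη1, hηε, hηv, hηu, hη2⟩ : ∃ η : ℝ, 0 < η ∧ η < 1 ∧ η < ε ∧ η * v ≤ 1 ∧
      η * u ≤ u - 1 ∧ η * (v - u + 1) ≤ ε ^ 2 := by
    have hvu : 0 < v - u + 1 := by linarith
    have hu1 : 0 < u - 1 := by linarith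
    refine ⟨min (min (ε / 2) (1 / 2)) (min (1 / v) (min ((u - 1) / u) (ε ^ 2 / (v - u + 1)))),
      ?_, ?_, ?_, ?_, ?_, ?_⟩
    · refine lt_min (lt_min (by positivity) (by norm_num)) (lt_min (by positivity)
        (lt_min (by positivity) (by positivity)))
    · exact ((min_le_left _ _).trans (min_le_right _ _)).trans_lt (by norm_num)
    · exact ((min_le_left _ _).trans (min_le_left _ _)).trans_lt (by linarith)
    · calc _ ≤ 1 / v * v := by
            gcongr
            exact (min_le_right _ _).trans (min_le_left _ _)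
        _ = 1 := by field_simp
    · calc _ ≤ (u - 1) / u * u := by
            gcongr
            exact (min_le_right _ _).trans ((min_le_right _ _).trans (min_le_left _ _))
        _ = u - 1 := by field_simp
    · calc _ ≤ ε ^ 2 / (v - u + 1) * (v - u + 1) := by
            gcongr
            exact (min_le_right _ _).trans ((min_le_right _ _).trans (min_le_right _ _))
        _ = ε ^ 2 := by field_simp
  obtain ⟨X0, hX0⟩ := eventually_atTop.1 (hR η hη)
  have hAs' : ∀ᶠ T in atTop, v - u - η < W T u v :=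
    (hAs u v hu.le huv).eventually (lt_mem_nhds (by linarith))
  filter_upwards [hAs', eventually_gt_atTop (1 : ℝ), eventually_ge_atTop X0] with T hW hT hTX
  have hT0 : 0 < T := by linarith
  have hL := Real.log_pos hT
  have hq0 : ∀ x, u * Real.log T ≤ x → x ≤ v * Real.log T → 0 ≤ q T x := by
    intro x _ _
    unfold q
    have h1 : 0 ≤ V (Real.exp x) (Real.exp x / T) := V_nonneg (Real.exp_pos x)
    have := Real.exp_pos x
    positivity
  have hq1 : ∀ x, u * Real.log T ≤ x → x ≤ v * Real.log T → q T x ≤ 1 + η := by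
    intro x hx1 hx2
    have e1 : ∀ s : ℝ, T ^ s = Real.exp (s * Real.log T) := fun s => by
      rw [Real.rpow_def_of_pos hT0, mul_comm]
    have h1 : T ^ u ≤ Real.exp x := by rw [e1]; exact Real.exp_le_exp.2 hx1
    have h2 : Real.exp x ≤ T ^ v := by rw [e1]; exact Real.exp_le_exp.2 hx2
    have h3 : T ≤ T ^ u := by
      calc T = T ^ (1:ℝ) := (Real.rpow_one T).symm
        _ ≤ T ^ u := Real.rpow_le_rpow_of_exponent_le hT.le hu.le
    exact pt_main hη hη1 hηv hηu hT h1 h2 (hX0 _ (hTX.trans (h3.trans h1)))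
  have hab : u * Real.log T ≤ v * Real.log T := by gcongr
  obtain ⟨hfin, hkey⟩ := core (meas_q hMV T) hab hηε hq0 hq1
  rw [W_eq hT huv.le] at hW
  have hW' : (v - u - η) * Real.log T < ∫ x in (u * Real.log T)..(v * Real.log T), q T x := by
    rw [one_div, ← div_eq_inv_mul, lt_div_iff₀ hL] at hW
    exact hW
  have hvol : (volume {x : ℝ | u * Real.log T ≤ x ∧ x ≤ v * Real.log T ∧ ε < |q T x - 1|}).toReal ≤
      ε * Real.log T := by
    generalize (volume {x : ℝ | u * Real.log T ≤ x ∧ x ≤ v * Real.log T ∧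
      ε < |q T x - 1|}).toReal = m at hkey ⊢
    by_contra hcon
    push Not at hcon
    have h1 : ε * (ε * Real.log T) < (ε + η) * m := by
      have : 0 < ε * Real.log T := by positivity
      nlinarith
    have h2 : (ε + η) * m < η * (v - u + 1) * Real.log T := by nlinarith
    have h3 : η * (v - u + 1) * Real.log T ≤ ε ^ 2 * Real.log T := by gcongr
    nlinarith
  have := ENNReal.ofReal_le_ofReal hvol
  rw [ENNReal.ofReal_toReal hfin] at this
  exact this

theorem aal_ge (hMV : S_MV) (hR : UpR) (hAs : As) (u v ε : ℝ) (hu : 1 ≤ u) (huv : u < v)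
    (hε : 0 < ε) : ∀ᶠ T in atTop,
    volume {x : ℝ | u * Real.log T ≤ x ∧ x ≤ v * Real.log T ∧
      ε < |V (Real.exp x) (Real.exp x / T) / (Real.exp x / T * Real.log T) - 1|} ≤
        ENNReal.ofReal (ε * Real.log T) := by
  obtain ⟨w, h1, h2, h3⟩ : ∃ w : ℝ, u < w ∧ w < v ∧ w - u ≤ ε / 2 := by
    refine ⟨u + min (ε / 2) ((v - u) / 2), ?_, ?_, ?_⟩
    · have : 0 < min (ε / 2) ((v - u) / 2) := lt_min (by linarith) (by linarith)
      linarith
    · have : min (ε / 2) ((v - u) / 2) ≤ (v - u) / 2 := min_le_right _ _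
      linarith
    · have : min (ε / 2) ((v - u) / 2) ≤ ε / 2 := min_le_left _ _
      linarith
  filter_upwards [aal_gt hMV hR hAs w v (ε / 2) (by linarith) h2 (by linarith),
    eventually_gt_atTop (1 : ℝ)] with T hT1 hT
  have hL := Real.log_pos hT
  have hsub : {x : ℝ | u * Real.log T ≤ x ∧ x ≤ v * Real.log T ∧
      ε < |V (Real.exp x) (Real.exp x / T) / (Real.exp x / T * Real.log T) - 1|} ⊆
      Set.Icc (u * Real.log T) (w * Real.log T) ∪ {x : ℝ | w * Real.log T ≤ x ∧
        x ≤ v * Real.log T ∧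
        ε / 2 < |V (Real.exp x) (Real.exp x / T) / (Real.exp x / T * Real.log T) - 1|} := by
    rintro x ⟨g1, g2, g3⟩
    rcases le_total x (w * Real.log T) with g | g
    · exact Or.inl ⟨g1, g⟩
    · exact Or.inr ⟨g, g2, by linarith⟩
  refine (measure_mono hsub).trans ((measure_union_le _ _).trans ?_)
  rw [Real.volume_Icc]
  refine (add_le_add_right hT1 _).trans ?_
  rw [← ENNReal.ofReal_add (by nlinarith) (by positivity)]
  apply ENNReal.ofReal_le_ofReal
  nlinarith

end

end H479.X
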