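import Pool.Agent.H479.X.Stm

/-! # from all pairs (X,H) to the mean (proved by helper94) -/


open MeasureTheory Filter Topology

namespace H479.X

namespace UPW94

/-- the bound of the integrand -/
theorem integrand {ε T v X : ℝ} (hε : 0 < ε) (hεv : ε * v ≤ 1) (hT : 1 < T) (hX1 : T ≤ X)
    (hX2 : X ≤ T ^ v)
    (h : ∀ H : ℝ, 1 ≤ H → H ≤ X ^ (1 - ε) → V X H ≤ (1 + ε) * (H * Real.log (X / H))) :
    V X (X / T) / (X / T * Real.log T) / X ≤ (1 + ε) * X⁻¹ := by
  have hT0 : 0 < T := by linarith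
  have hX0 : 0 < X := by linarith
  have hlog : 0 < Real.log T := Real.log_pos hT
  have h1 : 1 ≤ X / T := (one_le_div hT0).2 hX1
  have h2 : X ^ ε ≤ T := by
    calc X ^ ε ≤ (T ^ v) ^ ε := Real.rpow_le_rpow hX0.le hX2 hε.le
      _ = T ^ (v * ε) := (Real.rpow_mul hT0.le v ε).symm
      _ ≤ T ^ (1:ℝ) := Real.rpow_le_rpow_of_exponent_le hT.le (by linarith)
      _ = T := Real.rpow_one T
  have h3 : X / T ≤ X ^ (1 - ε) := by
    rw [Real.rpow_sub hX0, Real.rpow_one]
    exact div_le_div_of_nonneg_left hX0.le (Real.rpow_pos_of_pos hX0 _) h2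
  have h4 := h (X / T) h1 h3
  have h5 : X / (X / T) = T := by field_simp
  rw [h5] at h4
  have h6 : 0 < X / T * Real.log T := by positivity
  rw [div_eq_mul_inv _ X]
  refine mul_le_mul_of_nonneg_right ?_ (inv_nonneg.2 hX0.le)
  rw [div_le_iff₀ h6]
  exact h4

theorem W_le {ε T u v : ℝ} (hε : 0 < ε) (hεv : ε * v ≤ 1) (hT : 1 < T) (hu : 1 ≤ u) (huv : u < v)
    (h : ∀ X : ℝ, T ≤ X → ∀ H : ℝ, 1 ≤ H → H ≤ X ^ (1 - ε) →
      V X H ≤ (1 + ε) * (H * Real.log (X / H))) :
    W T u v ≤ (1 + ε) * (v - u) := by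
  have hT0 : 0 < T := by linarith
  have hlog : 0 < Real.log T := Real.log_pos hT
  have hTu : T ≤ T ^ u := by
    calc T = T ^ (1:ℝ) := (Real.rpow_one T).symm
      _ ≤ T ^ u := Real.rpow_le_rpow_of_exponent_le hT.le hu
  have hTv : T ^ u ≤ T ^ v := Real.rpow_le_rpow_of_exponent_le hT.le huv.le
  unfold W
  by_cases hint : IntervalIntegrable (fun X => V X (X / T) / (X / T * Real.log T) / X) volume
      (T ^ u) (T ^ v)
  · have h0 : (0:ℝ) ∉ Set.uIcc (T ^ u) (T ^ v) := by
      rw [Set.uIcc_of_le hTv]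
      rintro ⟨h1, -⟩
      linarith
    have hint2 : IntervalIntegrable (fun X : ℝ => (1 + ε) * X⁻¹) volume (T ^ u) (T ^ v) := by
      refine IntervalIntegrable.const_mul ?_ _
      exact intervalIntegral.intervalIntegrable_inv (fun x hx h' => h0 (h' ▸ hx)) continuousOn_id
    have h1 : ∫ X in (T ^ u)..(T ^ v), V X (X / T) / (X / T * Real.log T) / X ≤
        ∫ X in (T ^ u)..(T ^ v), (1 + ε) * X⁻¹ := by
      refine intervalIntegral.integral_mono_on hTv hint hint2 ?_
      intro X hX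
      exact integrand hε hεv hT (hTu.trans hX.1) hX.2 (h X (hTu.trans hX.1))
    have h2 : ∫ X in (T ^ u)..(T ^ v), (1 + ε) * X⁻¹ = (1 + ε) * ((v - u) * Real.log T) := by
      rw [intervalIntegral.integral_const_mul, integral_inv h0, ← Real.rpow_sub hT0,
        Real.log_rpow hT0]
    rw [h2] at h1
    calc 1 / Real.log T * ∫ X in (T ^ u)..(T ^ v), V X (X / T) / (X / T * Real.log T) / X
        ≤ 1 / Real.log T * ((1 + ε) * ((v - u) * Real.log T)) :=
          mul_le_mul_of_nonneg_left h1 (by positivity)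
      _ = (1 + ε) * (v - u) := by field_simp
  · rw [intervalIntegral.integral_undef hint, mul_zero]
    exact mul_nonneg (by linarith) (by linarith)

end UPW94

theorem upw : S_UPW := by
  intro hU u v hu huv ε hε
  have hv : 0 < v := by linarith
  have hvu : 0 < v - u := by linarith
  have hε' : 0 < min (ε / (v - u)) (1 / v) := lt_min (by positivity) (by positivity)
  obtain ⟨X0, hX0⟩ := eventually_atTop.1 (hU _ hε')
  filter_upwards [eventually_ge_atTop X0, eventually_gt_atTop (1:ℝ)] with T hT1 hT2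
  have h1 : min (ε / (v - u)) (1 / v) * v ≤ 1 := by
    calc min (ε / (v - u)) (1 / v) * v ≤ 1 / v * v :=
          mul_le_mul_of_nonneg_right (min_le_right _ _) hv.le
      _ = 1 := by field_simp
  have h2 : min (ε / (v - u)) (1 / v) * (v - u) ≤ ε := by
    calc min (ε / (v - u)) (1 / v) * (v - u) ≤ ε / (v - u) * (v - u) :=
          mul_le_mul_of_nonneg_right (min_le_left _ _) hvu.le
      _ = ε := by field_simp
  have h3 := UPW94.W_le hε' h1 hT2 hu huv (fun X hX => hX0 X (hT1.trans hX))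
  linarith

end H479.X
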